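import Pool.Agent.R415.VN.St

/-! Assembly of the pieces. -/

namespace R415VN
open Set Bornology

theorem injective_of_regions {V : Fin 4 → Set (Fin 4 → ℝ)}
    (h : ∀ ε, (region V ε).Nonempty) : Function.Injective V := by
  intro i j hij
  by_contra hne
  obtain ⟨x, hx⟩ := h (fun k => if k = i then true else false)
  have h1 := mem_iInter.1 hx i
  have h2 := mem_iInter.1 hx j
  have hji : ¬ j = i := fun h => hne h.symm
  simp only [if_true, side] at h1
  simp only [hji, if_false, side] at h2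
  rw [← hij] at h2
  exact h1.2 h2.2

theorem simple_of_good (s08 : S08) (s09 : S09) {h : Fin 3 → (Fin 3 → ℝ) → ℝ} (H : Good h)
    (hI : ∀ K : Finset (Fin 4), 2 ≤ K.card →
      IsUnionOfSpheres (4 - K.card) (⋂ i ∈ K, VV h i)) : IsSimpleVenn (VV h) where
  injective := injective_of_regions fun ε => (s09 H ε).1
  surface := fun i => (s08 H i).1
  region_connected := fun ε => ⟨(s09 H ε).1, (s09 H ε).2.1⟩
  region_homeo := fun ε => (s09 H ε).2.2
  inter := fun i j hij => by
    have := hI {i, j} (by rw [Finset.card_pair hij])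
    rw [Finset.card_pair hij] at this
    simpa using this
  simple := fun K hK => ⟨fun _ => hI K hK, fun h4 => by
    exfalso
    have := Finset.card_le_univ K
    simp at this
    omega⟩

theorem final (s08 : S08) (s09 : S09) (s10 : S10) (s11 : S11) (s12 : S12) (s13 : S13)
    (s14 : S14) (s15 : S15) (s16 : S16) (s17 : S17) :
    ∃ V V' : Fin 4 → Set (Fin 4 → ℝ),
      IsSimpleVenn V ∧ IsSimpleVenn V' ∧ edgeCount V ≤ 30 ∧ 32 ≤ edgeCount V' := by
  refine ⟨VV hSpun, VV hStd, simple_of_good s08 s09 s11 s13,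
    simple_of_good s08 s09 s10 s12, ?_, s14⟩
  have := s15 (V := VV hSpun) (N := ![8, 8, 6, 8]) (by
    intro i
    fin_cases i
    · exact s16.1
    · exact s16.2.1
    · exact s16.2.2
    · exact s17)
  simpa [Fin.sum_univ_four] using this

theorem main (s08 : S08) (s09 : S09) (s10 : S10) (s11 : S11) (s12 : S12) (s13 : S13)
    (s14 : S14) (s15 : S15) (s16 : S16) (s17 : S17) :
    ∃ m n : ℕ, 2 ≤ m ∧ 1 ≤ n ∧ ∃ V V' : Fin n → Set (Fin m → ℝ),
      IsSimpleVenn V ∧ IsSimpleVenn V' ∧ edgeCount V ≠ edgeCount V' := by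
  obtain ⟨V, V', h1, h2, h3, h4⟩ := final s08 s09 s10 s11 s12 s13 s14 s15 s16 s17
  refine ⟨4, 4, by norm_num, by norm_num, V, V', h1, h2, ?_⟩
  intro h
  rw [h] at h3
  exact absurd (h4.trans h3) (by decide)

end R415VN
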