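import Mathlib

/-!
# Higher-dimensional Venn diagrams (problem MP_3341d1_co)

Definitions only.  The ambient space is `Fin m → ℝ` with its usual topology and bornology.
-/

namespace R415VN

open Set Bornology

/-- A topological `j`-sphere: a subset homeomorphic to the unit sphere `S^j` of `ℝ^{j+1}`. -/
def IsTopSphere {m : ℕ} (j : ℕ) (S : Set (Fin m → ℝ)) : Prop :=
  Nonempty (S ≃ₜ Metric.sphere (0 : EuclideanSpace ℝ (Fin (j + 1))) 1)

/-- An `m`-surface: a topological `(m-1)`-sphere in `ℝ^m` (used for `m ≥ 2` only). -/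
def IsSurface {m : ℕ} (S : Set (Fin m → ℝ)) : Prop := IsTopSphere (m - 1) S

/-- The interior `S^0`: the points off `S` whose component of `Sᶜ` is bounded. -/
def inside {m : ℕ} (S : Set (Fin m → ℝ)) : Set (Fin m → ℝ) :=
  {x | x ∈ Sᶜ ∧ IsBounded (connectedComponentIn Sᶜ x)}

/-- The exterior `S^1`: the points off `S` whose component of `Sᶜ` is unbounded. -/
def outside {m : ℕ} (S : Set (Fin m → ℝ)) : Set (Fin m → ℝ) :=
  {x | x ∈ Sᶜ ∧ ¬ IsBounded (connectedComponentIn Sᶜ x)}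

/-- `side S false = S^0` (interior) and `side S true = S^1` (exterior). -/
def side {m : ℕ} (S : Set (Fin m → ℝ)) : Bool → Set (Fin m → ℝ)
  | false => inside S
  | true => outside S

/-- The region `S_1^{ε_1} ∩ ⋯ ∩ S_n^{ε_n}`. -/
def region {m n : ℕ} (V : Fin n → Set (Fin m → ℝ)) (ε : Fin n → Bool) : Set (Fin m → ℝ) :=
  ⋂ i, side (V i) (ε i)

/-- A union of finitely many topological `j`-spheres. -/
def IsUnionOfSpheres {m : ℕ} (j : ℕ) (A : Set (Fin m → ℝ)) : Prop :=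
  ∃ F : Set (Set (Fin m → ℝ)), F.Finite ∧ (∀ S ∈ F, IsTopSphere j S) ∧ ⋃₀ F = A

/-- `m`-dimensional `n`-Venn diagrams. -/
structure IsVenn {m n : ℕ} (V : Fin n → Set (Fin m → ℝ)) : Prop where
  injective : Function.Injective V
  surface : ∀ i, IsSurface (V i)
  region_connected : ∀ ε, (region V ε).Nonempty ∧ IsConnected (region V ε)
  region_homeo : ∀ ε, ∃ S : Set (Fin m → ℝ), IsSurface S ∧
    (Nonempty (region V ε ≃ₜ inside S) ∨ Nonempty (region V ε ≃ₜ outside S))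
  inter : ∀ i j, i ≠ j → IsUnionOfSpheres (m - 2) (V i ∩ V j)

/-- Simple `m`-dimensional `n`-Venn diagrams. -/
structure IsSimpleVenn {m n : ℕ} (V : Fin n → Set (Fin m → ℝ)) : Prop extends IsVenn V where
  simple : ∀ K : Finset (Fin n), 2 ≤ K.card →
    (K.card ≤ m → IsUnionOfSpheres (m - K.card) (⋂ i ∈ K, V i)) ∧
    (m < K.card → (⋂ i ∈ K, V i) = ∅)

/-- The part of `S_i` lying on no other surface. -/
def offOthers {m n : ℕ} (V : Fin n → Set (Fin m → ℝ)) (i : Fin n) : Set (Fin m → ℝ) :=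
  V i \ ⋃ j ∈ {j : Fin n | j ≠ i}, V j

/-- The edges of `V`: the connected components of the sets `S_i ∖ ⋃_{j ≠ i} S_j`. -/
def edges {m n : ℕ} (V : Fin n → Set (Fin m → ℝ)) : Set (Set (Fin m → ℝ)) :=
  {E | ∃ i, ∃ x ∈ offOthers V i, E = connectedComponentIn (offOthers V i) x}

/-- `e(V)`, the number of edges (possibly infinite). -/
noncomputable def edgeCount {m n : ℕ} (V : Fin n → Set (Fin m → ℝ)) : ℕ∞ := (edges V).encard

/-! ### The two examples -/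

/-- What a region of a Venn diagram must satisfy. -/
def GoodRegion {m : ℕ} (R : Set (Fin m → ℝ)) : Prop :=
  R.Nonempty ∧ IsConnected R ∧ ∃ S : Set (Fin m → ℝ), IsSurface S ∧
    (Nonempty (R ≃ₜ inside S) ∨ Nonempty (R ≃ₜ outside S))

/-- First three coordinates. -/
def base (p : Fin 4 → ℝ) : Fin 3 → ℝ := ![p 0, p 1, p 2]

/-- Defining functions of the four surfaces: `|p 3| = h i (base p)` for `i < 3`, and the
boundary of the box `‖base p‖ ≤ 4, 0 ≤ p 3 ≤ 4`. -/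
noncomputable def G (h : Fin 3 → (Fin 3 → ℝ) → ℝ) : Fin 4 → (Fin 4 → ℝ) → ℝ :=
  ![fun p => h 0 (base p) - |p 3|, fun p => h 1 (base p) - |p 3|, fun p => h 2 (base p) - |p 3|,
    fun p => min (4 - ‖base p‖) (min (p 3) (4 - p 3))]

/-- The four surfaces. -/
def VV (h : Fin 3 → (Fin 3 → ℝ) → ℝ) (i : Fin 4) : Set (Fin 4 → ℝ) := {p | G h i p = 0}

/-- Points of `ℝ³` with order pattern `I`. -/
def Om (h : Fin 3 → (Fin 3 → ℝ) → ℝ) (I : Finset (Fin 3)) : Set (Fin 3 → ℝ) :=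
  {x | (∀ i ∈ I, 0 < h i x) ∧ ∀ i ∈ I, ∀ j ∉ I, h j x < h i x}

/-- The hypotheses that make `VV h` a Venn diagram. -/
structure Good (h : Fin 3 → (Fin 3 → ℝ) → ℝ) : Prop where
  cont : ∀ i, Continuous (h i)
  conc : ∀ i, ConcaveOn ℝ univ (h i)
  lt4 : ∀ i x, h i x < 4
  bdd : ∀ i x, 0 ≤ h i x → ‖x‖ < 4
  conv : ∀ I : Finset (Fin 3), I.Nonempty → Convex ℝ (Om h I)
  ne : ∀ I : Finset (Fin 3), I.Nonempty → (Om h I).Nonempty

/-- The standard diagram. -/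
noncomputable def hStd : Fin 3 → (Fin 3 → ℝ) → ℝ :=
  fun i x => 1 - (x 0 ^ 2 + x 1 ^ 2 + x 2 ^ 2) + 2 * x i

/-- The spun diagram. -/
noncomputable def hSpun : Fin 3 → (Fin 3 → ℝ) → ℝ :=
  ![fun x => 13 / 16 - x 0 ^ 2 / 4 - (x 1 ^ 2 + x 2 ^ 2),
    fun x => 1 - x 0 ^ 2 - (x 1 ^ 2 + x 2 ^ 2),
    fun x => 1 - x 0 ^ 2 - 9 / 5 * x 0 - (x 1 ^ 2 + x 2 ^ 2)]

/-- `A` is covered by `N` preconnected subsets of itself. -/
def CoveredBy (A : Set (Fin 4 → ℝ)) (N : ℕ) : Prop :=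
  ∃ C : Fin N → Set (Fin 4 → ℝ), (∀ k, IsPreconnected (C k)) ∧ (∀ k, C k ⊆ A) ∧ A ⊆ ⋃ k, C k

end R415VN
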