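import Pool.Agent.R415.VN.St

namespace R415VN.P01
open Set Bornology

/-- The frontier of a bounded open convex set is a topological sphere. -/
theorem main : S01 := by
  intro j W hW hc hb hne
  let e := (EuclideanSpace.equiv (Fin (j + 1)) ℝ)
  have hso : IsOpen (e ⁻¹' W) := hW.preimage e.continuous
  have hsc : Convex ℝ (e ⁻¹' W) := hc.linear_preimage e.toLinearEquiv.toLinearMap
  have hsb : IsBounded (e ⁻¹' W) := e.antilipschitz.isBounded_preimage hb
  have hsne : (interior (e ⁻¹' W)).Nonempty := by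
    rw [hso.interior_eq]
    obtain ⟨x, hx⟩ := hne
    exact ⟨e.symm x, by simpa using hx⟩
  obtain ⟨h, -, -, hf⟩ :=
    exists_homeomorph_image_interior_closure_frontier_eq_unitBall hsc hsne hsb
  have hfr : e ⁻¹' (frontier W) = frontier (e ⁻¹' W) := e.toHomeomorph.preimage_frontier W
  let H : (Fin (j + 1) → ℝ) ≃ₜ EuclideanSpace ℝ (Fin (j + 1)) := e.toHomeomorph.symm.trans h
  have hH : H '' frontier W = Metric.sphere 0 1 := by
    rw [← hf, ← hfr]
    ext y
    constructor
    · rintro ⟨x, hx, rfl⟩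
      exact ⟨e.symm x, by simpa using hx, rfl⟩
    · rintro ⟨x, hx, rfl⟩
      refine ⟨e x, hx, ?_⟩
      change h (e.symm (e x)) = h x
      rw [e.symm_apply_apply]
  exact ⟨(H.image (frontier W)).trans (Homeomorph.setCongr hH)⟩

end R415VN.P01
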