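import Pool.Agent.R415.VN.St

namespace R415VN.P02
open Set Bornology

theorem conn_compl_ball {E : Type*} [NormedAddCommGroup E] [NormedSpace ℝ E]
    (h : 1 < Module.rank ℝ E) : IsConnected (Metric.closedBall (0 : E) 1)ᶜ := by
  have h0 : IsConnected ({0}ᶜ : Set E) := isConnected_compl_singleton_of_one_lt_rank h 0
  have hcont : ContinuousOn (fun x : E => (1 + ‖x‖⁻¹) • x) ({0}ᶜ : Set E) := by
    apply ContinuousOn.smul _ continuousOn_id
    apply continuousOn_const.add
    apply ContinuousOn.inv₀ continuous_norm.continuousOn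
    intro x hx
    exact norm_ne_zero_iff.mpr hx
  have him : (fun x : E => (1 + ‖x‖⁻¹) • x) '' ({0}ᶜ : Set E) = (Metric.closedBall (0 : E) 1)ᶜ := by
    ext y
    constructor
    · rintro ⟨x, hx, rfl⟩
      have hx' : 0 < ‖x‖ := norm_pos_iff.mpr hx
      simp only [mem_compl_iff, mem_closedBall_zero_iff, not_le, norm_smul, Real.norm_eq_abs]
      rw [abs_of_pos (by positivity)]
      have : (1 + ‖x‖⁻¹) * ‖x‖ = ‖x‖ + 1 := by
        field_simp
      rw [this]; linarith
    · intro hy
      simp only [mem_compl_iff, mem_closedBall_zero_iff, not_le] at hy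
      have hy0 : 0 < ‖y‖ := by linarith
      have hpos : 0 < 1 - ‖y‖⁻¹ := by
        have : ‖y‖⁻¹ < 1 := inv_lt_one_of_one_lt₀ hy
        linarith
      refine ⟨(1 - ‖y‖⁻¹) • y, ?_, ?_⟩
      · simp only [mem_compl_iff, mem_singleton_iff, smul_eq_zero, not_or]
        exact ⟨hpos.ne', norm_pos_iff.mp hy0⟩
      · simp only [norm_smul, Real.norm_eq_abs, abs_of_pos hpos, smul_smul]
        have h1 : (1 - ‖y‖⁻¹) * ‖y‖ = ‖y‖ - 1 := by field_simp
        rw [h1]
        have h2 : (1 + (‖y‖ - 1)⁻¹) * (1 - ‖y‖⁻¹) = 1 := by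
          have : ‖y‖ - 1 ≠ 0 := by linarith
          field_simp
          ring
        rw [h2, one_smul]
  rw [← him]
  exact h0.image _ hcont

/-- The two sides of the frontier of a bounded open convex set. -/
theorem main : S02 := by
  intro m hm W hW hc hb hne
  have hrank : 1 < Module.rank ℝ (Fin m → ℝ) := by
    rw [rank_fin_fun]
    exact_mod_cast hm
  have hcc : IsConnected (closure W)ᶜ := by
    obtain ⟨h, -, hcl, -⟩ :=
      exists_homeomorph_image_interior_closure_frontier_eq_unitBall hc
        (by rwa [hW.interior_eq]) hb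
    have h1 : (closure W)ᶜ = h.symm '' (Metric.closedBall (0 : Fin m → ℝ) 1)ᶜ := by
      rw [← hcl, image_compl_eq h.symm.bijective]
      congr 1
      rw [← image_comp]
      simp
    rw [h1]
    exact (conn_compl_ball hrank).image _ h.symm.continuous.continuousOn
  have hdisj : Disjoint W (closure W)ᶜ :=
    disjoint_compl_right_iff_subset.mpr subset_closure
  have hcompl : (frontier W)ᶜ = W ∪ (closure W)ᶜ := by
    rw [hW.frontier_eq]
    ext x
    simp only [mem_compl_iff, Set.mem_sdiff, not_and, not_not, mem_union]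
    constructor
    · intro h
      by_cases hx : x ∈ closure W
      · exact Or.inl (h hx)
      · exact Or.inr hx
    · rintro (h | h) hx
      · exact h
      · exact absurd hx h
  have hWb : ∀ x ∈ W, x ∈ (frontier W)ᶜ ∧ IsBounded (connectedComponentIn (frontier W)ᶜ x) := by
    intro x hx
    have hx' : x ∈ (frontier W)ᶜ := by rw [hcompl]; exact Or.inl hx
    refine ⟨hx', ?_⟩
    have hsub : connectedComponentIn (frontier W)ᶜ x ⊆ W := by
      apply isPreconnected_connectedComponentIn.subset_left_of_subset_union hW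
        isClosed_closure.isOpen_compl hdisj
      · rw [← hcompl]; exact connectedComponentIn_subset _ _
      · exact ⟨x, mem_connectedComponentIn hx', hx⟩
    exact hb.subset hsub
  have hWu : ∀ x ∈ (closure W)ᶜ,
      x ∈ (frontier W)ᶜ ∧ ¬ IsBounded (connectedComponentIn (frontier W)ᶜ x) := by
    intro x hx
    have hx' : x ∈ (frontier W)ᶜ := by rw [hcompl]; exact Or.inr hx
    refine ⟨hx', fun hbd => ?_⟩
    have hsub : (closure W)ᶜ ⊆ connectedComponentIn (frontier W)ᶜ x :=
      hcc.isPreconnected.subset_connectedComponentIn hx (by rw [hcompl]; exact subset_union_right)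
    have h1 : IsBounded (closure W)ᶜ := hbd.subset hsub
    have h2 : IsBounded (univ : Set (Fin m → ℝ)) := by
      rw [← union_compl_self (closure W)]
      exact hb.closure.union h1
    haveI : Nonempty (Fin m) := ⟨⟨0, by omega⟩⟩
    exact NormedSpace.unbounded_univ ℝ (Fin m → ℝ) h2
  refine ⟨?_, ?_, hcc⟩
  · ext x
    constructor
    · rintro ⟨hx1, hx2⟩
      rw [hcompl] at hx1
      rcases hx1 with h | h
      · exact h
      · exact absurd hx2 (hWu x h).2
    · intro hx
      exact hWb x hx
  · ext x
    constructor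
    · rintro ⟨hx1, hx2⟩
      rw [hcompl] at hx1
      rcases hx1 with h | h
      · exact absurd (hWb x h).2 hx2
      · exact h
    · intro hx
      exact hWu x hx

end R415VN.P02
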