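import Pool.Agent.R415.VN.St

namespace R415VN.P03
open Set Bornology

/-- Level sets of continuous concave functions. -/
theorem main : S03 := by
  intro m g hg hc hb hp
  obtain ⟨p, hp⟩ := hp
  have hopen : IsOpen {x | 0 < g x} := isOpen_lt continuous_const hg
  have hsub : {x | 0 < g x} ⊆ {x | 0 ≤ g x} := by
    intro x hx
    have hx : 0 < g x := hx
    exact hx.le
  have hcl : closure {x | 0 < g x} = {x | 0 ≤ g x} := by
    apply Subset.antisymm
    · exact closure_minimal hsub (isClosed_le continuous_const hg)
    · intro x hx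
      have hx : 0 ≤ g x := hx
      have hf : Continuous (fun t : ℝ => (1 - t) • x + t • p) := by fun_prop
      have h0 : (0 : ℝ) ∈ closure (Ioo (0 : ℝ) 1) := by
        rw [closure_Ioo (by norm_num)]
        exact ⟨le_rfl, zero_le_one⟩
      have h1 := map_mem_closure hf h0 (t := {x | 0 < g x}) (by
        intro t ht
        have h2 := hc.2 (mem_univ x) (mem_univ p) (by linarith [ht.2] : 0 ≤ 1 - t)
          (le_of_lt ht.1) (by ring)
        simp only [smul_eq_mul] at h2
        have h3 : 0 < t * g p := mul_pos ht.1 hp
        have h4 : 0 ≤ (1 - t) * g x := mul_nonneg (by linarith [ht.2]) hx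
        change 0 < g ((1 - t) • x + t • p)
        linarith)
      simpa using h1
  refine ⟨hopen, ?_, hb.subset hsub, ⟨p, hp⟩, ?_, hcl⟩
  · have := hc.convex_gt 0
    simpa using this
  · rw [hopen.frontier_eq, hcl]
    ext x
    simp only [Set.mem_sdiff, mem_ofPred_eq, not_lt]
    constructor
    · rintro ⟨h1, h2⟩; exact le_antisymm h2 h1
    · intro h; exact ⟨h.ge, h.le⟩

end R415VN.P03
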