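import Pool.Agent.R415.VN.St

/-!
# VN-P04: embedded level sets are spheres (helper699)
-/

set_option autoImplicit false

namespace R415VN.P04

open Set Bornology

theorem main (s01 : S01) (s03 : S03) : S04 := by
  intro k m g hg hconc hbdd hpos φ ψ hφ hψ hleft
  obtain ⟨h1, h2, h3, h4, h5, _⟩ := s03 hg hconc hbdd hpos
  have hs := s01 h1 h2 h3 h4
  rw [h5] at hs
  obtain ⟨e⟩ := hs
  have hemb : Topology.IsEmbedding φ := Topology.IsEmbedding.of_leftInverse hleft hψ hφ
  exact ⟨(hemb.homeomorphImage {x | g x = 0}).symm.trans e⟩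

end R415VN.P04
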