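import Pool.Agent.R415.VN.St

/-! P05 (helper173): the open set between two graphs over an open convex set. -/

namespace R415VN.P05
open Set Bornology

lemma base_mk (x y z w : ℝ) : base ![x, y, z, w] = ![x, y, z] := by
  simp [base]

lemma base_self (p : Fin 4 → ℝ) (w : ℝ) : base ![p 0, p 1, p 2, w] = base p := by
  simp [base]

lemma continuous_base : Continuous base := by
  unfold base
  refine continuous_pi ?_
  intro i
  fin_cases i <;> simp <;> fun_prop

lemma continuous_vec {X : Type*} [TopologicalSpace X] {f0 f1 f2 f3 : X → ℝ}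
    (h0 : Continuous f0) (h1 : Continuous f1) (h2 : Continuous f2) (h3 : Continuous f3) :
    Continuous (fun x => (![f0 x, f1 x, f2 x, f3 x] : Fin 4 → ℝ)) := by
  refine continuous_pi ?_
  intro i
  fin_cases i <;> simpa

lemma vec_eta (p : Fin 4 → ℝ) : (![p 0, p 1, p 2, p 3] : Fin 4 → ℝ) = p := by
  funext i
  fin_cases i <;> rfl

theorem main (s01 : S01) (s02 : S02) : S05 := by
  intro Ω hO hc hb hne a b ha hb' hab
  set R : Set (Fin 4 → ℝ) := {p | base p ∈ Ω ∧ a (base p) < p 3 ∧ p 3 < b (base p)} with hR
  set W : Set (Fin 4 → ℝ) := {p | base p ∈ Ω ∧ 0 < p 3 ∧ p 3 < 1} with hW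
  have hWo : IsOpen W := by
    have h1 : IsOpen {p : Fin 4 → ℝ | base p ∈ Ω} := hO.preimage continuous_base
    have h2 : IsOpen {p : Fin 4 → ℝ | 0 < p 3} :=
      isOpen_lt continuous_const (continuous_apply 3)
    have h3 : IsOpen {p : Fin 4 → ℝ | p 3 < 1} :=
      isOpen_lt (continuous_apply 3) continuous_const
    exact h1.inter (h2.inter h3)
  have hWc : Convex ℝ W := by
    intro p hp q hq s t hs ht hst
    refine ⟨?_, ?_, ?_⟩
    · have : base (s • p + t • q) = s • base p + t • base q := by
        funext i
        fin_cases i <;> simp [base]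
      rw [this]
      exact hc hp.1 hq.1 hs ht hst
    · have := convex_Ioo (0 : ℝ) 1 ⟨hp.2.1, hp.2.2⟩ ⟨hq.2.1, hq.2.2⟩ hs ht hst
      simpa using this.1
    · have := convex_Ioo (0 : ℝ) 1 ⟨hp.2.1, hp.2.2⟩ ⟨hq.2.1, hq.2.2⟩ hs ht hst
      simpa using this.2
  have hWb : IsBounded W := by
    obtain ⟨M, hM⟩ := isBounded_iff_forall_norm_le.1 hb
    refine isBounded_iff_forall_norm_le.2 ⟨max M 1, ?_⟩
    intro p hp
    have hp0 := hM _ hp.1
    have h0 : (0 : ℝ) ≤ max M 1 := le_max_of_le_right zero_le_one
    refine (pi_norm_le_iff_of_nonneg h0).2 ?_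
    have hk : ∀ k : Fin 3, ‖base p k‖ ≤ max M 1 := fun k =>
      ((norm_le_pi_norm (base p) k).trans hp0).trans (le_max_left _ _)
    intro i
    fin_cases i
    · exact hk 0
    · exact hk 1
    · exact hk 2
    · refine le_trans ?_ (le_max_right _ _)
      show ‖p 3‖ ≤ 1
      rw [Real.norm_eq_abs, abs_le]
      constructor <;> linarith [hp.2.1, hp.2.2]
  have hWne : W.Nonempty := by
    obtain ⟨x, hx⟩ := hne
    refine ⟨![x 0, x 1, x 2, 1 / 2], ?_, ?_, ?_⟩
    · rw [base_mk]
      have : (![x 0, x 1, x 2] : Fin 3 → ℝ) = x := by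
        funext i
        fin_cases i <;> rfl
      rwa [this]
    · show (0 : ℝ) < 1 / 2
      norm_num
    · show (1 / 2 : ℝ) < 1
      norm_num
  -- the homeomorphism
  let f : R → W := fun p => ⟨![p.1 0, p.1 1, p.1 2,
      (p.1 3 - a (base p.1)) / (b (base p.1) - a (base p.1))], by
    obtain ⟨p, h1, h2, h3⟩ := p
    have hpos : 0 < b (base p) - a (base p) := sub_pos.2 (hab _ h1)
    refine ⟨?_, ?_, ?_⟩
    · rw [base_self]
      exact h1
    · show 0 < (p 3 - a (base p)) / (b (base p) - a (base p))
      exact div_pos (sub_pos.2 h2) hpos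
    · show (p 3 - a (base p)) / (b (base p) - a (base p)) < 1
      rw [div_lt_one hpos]
      linarith⟩
  let g : W → R := fun p => ⟨![p.1 0, p.1 1, p.1 2,
      a (base p.1) + p.1 3 * (b (base p.1) - a (base p.1))], by
    obtain ⟨p, h1, h2, h3⟩ := p
    have hpos : 0 < b (base p) - a (base p) := sub_pos.2 (hab _ h1)
    refine ⟨?_, ?_, ?_⟩
    · rw [base_self]
      exact h1
    · rw [base_self]
      show a (base p) < a (base p) + p 3 * (b (base p) - a (base p))
      have := mul_pos h2 hpos
      linarith
    · rw [base_self]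
      show a (base p) + p 3 * (b (base p) - a (base p)) < b (base p)
      have : p 3 * (b (base p) - a (base p)) < 1 * (b (base p) - a (base p)) :=
        mul_lt_mul_of_pos_right h3 hpos
      linarith⟩
  have hfg : ∀ p, f (g p) = p := by
    intro p
    obtain ⟨p, h1, h2, h3⟩ := p
    have hpos : b (base p) - a (base p) ≠ 0 := (sub_pos.2 (hab _ h1)).ne'
    apply Subtype.ext
    show (![p 0, p 1, p 2, (a (base p) + p 3 * (b (base p) - a (base p))
      - a (base ![p 0, p 1, p 2, a (base p) + p 3 * (b (base p) - a (base p))])) /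
      (b (base ![p 0, p 1, p 2, a (base p) + p 3 * (b (base p) - a (base p))])
        - a (base ![p 0, p 1, p 2, a (base p) + p 3 * (b (base p) - a (base p))]))] :
          Fin 4 → ℝ) = p
    rw [base_self]
    have : (a (base p) + p 3 * (b (base p) - a (base p)) - a (base p)) /
        (b (base p) - a (base p)) = p 3 := by
      field_simp
      ring
    rw [this, vec_eta]
  have hgf : ∀ p, g (f p) = p := by
    intro p
    obtain ⟨p, h1, h2, h3⟩ := p
    have hpos : b (base p) - a (base p) ≠ 0 := (sub_pos.2 (hab _ h1)).ne'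
    apply Subtype.ext
    show (![p 0, p 1, p 2,
      a (base ![p 0, p 1, p 2, (p 3 - a (base p)) / (b (base p) - a (base p))])
      + ((p 3 - a (base p)) / (b (base p) - a (base p))) *
      (b (base ![p 0, p 1, p 2, (p 3 - a (base p)) / (b (base p) - a (base p))])
        - a (base ![p 0, p 1, p 2, (p 3 - a (base p)) / (b (base p) - a (base p))]))] :
          Fin 4 → ℝ) = p
    rw [base_self]
    have : a (base p) + ((p 3 - a (base p)) / (b (base p) - a (base p))) *
        (b (base p) - a (base p)) = p 3 := by
      field_simp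
      ring
    rw [this, vec_eta]
  have hbR : Continuous (fun p : R => base p.1) := continuous_base.comp continuous_subtype_val
  have hbW : Continuous (fun p : W => base p.1) := continuous_base.comp continuous_subtype_val
  have hiR : ∀ i : Fin 4, Continuous (fun p : R => p.1 i) := fun i =>
    (continuous_apply i).comp continuous_subtype_val
  have hiW : ∀ i : Fin 4, Continuous (fun p : W => p.1 i) := fun i =>
    (continuous_apply i).comp continuous_subtype_val
  have hf : Continuous f := by
    refine Continuous.subtype_mk ?_ _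
    refine continuous_vec (hiR 0) (hiR 1) (hiR 2) ?_
    refine Continuous.div ((hiR 3).sub (ha.comp hbR)) ((hb'.comp hbR).sub (ha.comp hbR)) ?_
    intro p
    exact (sub_pos.2 (hab _ p.2.1)).ne'
  have hg : Continuous g := by
    refine Continuous.subtype_mk ?_ _
    refine continuous_vec (hiW 0) (hiW 1) (hiW 2) ?_
    exact (ha.comp hbW).add ((hiW 3).mul ((hb'.comp hbW).sub (ha.comp hbW)))
  let e : R ≃ₜ W :=
    { toFun := f
      invFun := g
      left_inv := hgf
      right_inv := hfg
      continuous_toFun := hf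
      continuous_invFun := hg }
  have hWconn : IsConnected W := ⟨hWne, hWc.isPreconnected⟩
  have hRconn : IsConnected R := by
    have : ConnectedSpace W := isConnected_iff_connectedSpace.1 hWconn
    have hcs : ConnectedSpace R := e.symm.surjective.connectedSpace e.symm.continuous
    exact isConnected_iff_connectedSpace.2 hcs
  have h2 := s02 (m := 4) (by norm_num) hWo hWc hWb hWne
  refine ⟨hRconn.nonempty, hRconn, frontier W, ?_, Or.inl ?_⟩
  · exact s01 (j := 3) hWo hWc hWb hWne
  · rw [h2.1]
    exact ⟨e⟩

end R415VN.P05
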