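import Pool.Agent.R415.VN.St

namespace R415VN.P06
open Set Bornology

/-- cut-off -/
noncomputable def cc (t : ℝ) : ℝ := min 1 (max 0 t)

lemma cc_cont : Continuous cc := by unfold cc; fun_prop

/-- forward map on the last coordinate -/
noncomputable def fw (B s : ℝ) : ℝ := s + B * cc (1 - s / 4)

/-- backward map on the last coordinate -/
noncomputable def bw (B t : ℝ) : ℝ := t - B * cc ((4 - t) / (4 - B))

lemma cc_of_le {t : ℝ} (h : t ≤ 0) : cc t = 0 := by
  unfold cc; rw [max_eq_left h]; norm_num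

lemma cc_of_ge {t : ℝ} (h : 1 ≤ t) : cc t = 1 := by
  unfold cc; rw [max_eq_right (by linarith)]; exact min_eq_left h

lemma cc_of_mem {t : ℝ} (h : 0 ≤ t) (h' : t ≤ 1) : cc t = t := by
  unfold cc; rw [max_eq_right h]; exact min_eq_right h'

lemma fw_le {B s : ℝ} (h : s ≤ 0) : fw B s = s + B := by
  unfold fw; rw [cc_of_ge (by linarith)]; ring

lemma fw_mid {B s : ℝ} (h : 0 ≤ s) (h' : s ≤ 4) : fw B s = s + B * (1 - s / 4) := by
  unfold fw; rw [cc_of_mem (by linarith) (by linarith)]

lemma fw_ge {B s : ℝ} (h : 4 ≤ s) : fw B s = s := by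
  unfold fw; rw [cc_of_le (by linarith)]; ring

lemma bw_fw {B s : ℝ} (hB : 0 ≤ B) (hB4 : B < 4) : bw B (fw B s) = s := by
  have h4 : 0 < 4 - B := by linarith
  rcases le_total s 0 with h | h
  · rw [fw_le h]; unfold bw
    rw [cc_of_ge (by rw [le_div_iff₀ h4]; linarith)]; ring
  · rcases le_total s 4 with h' | h'
    · rw [fw_mid h h']; unfold bw
      have e : (4 - (s + B * (1 - s / 4))) / (4 - B) = 1 - s / 4 := by
        field_simp; ring
      rw [e, cc_of_mem (by linarith) (by linarith)]; ring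
    · rw [fw_ge h']; unfold bw
      rw [cc_of_le (by rw [div_le_iff₀ h4]; linarith)]; ring

lemma fw_bw {B t : ℝ} (hB : 0 ≤ B) (hB4 : B < 4) : fw B (bw B t) = t := by
  have h4 : 0 < 4 - B := by linarith
  rcases le_total t B with h | h
  · have e : bw B t = t - B := by
      unfold bw; rw [cc_of_ge (by rw [le_div_iff₀ h4]; linarith)]; ring
    rw [e, fw_le (by linarith)]; ring
  · rcases le_total t 4 with h' | h'
    · have e : bw B t = t - B * ((4 - t) / (4 - B)) := by
        unfold bw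
        rw [cc_of_mem (div_nonneg (by linarith) h4.le) (by rw [div_le_iff₀ h4]; linarith)]
      have e2 : t - B * ((4 - t) / (4 - B)) = 4 * (t - B) / (4 - B) := by
        field_simp; ring
      rw [e, e2, fw_mid (div_nonneg (by linarith) h4.le) (by rw [div_le_iff₀ h4]; linarith)]
      field_simp; ring
    · have e : bw B t = t := by
        unfold bw; rw [cc_of_le (by rw [div_le_iff₀ h4]; linarith)]; ring
      rw [e, fw_ge h']

lemma fw_nonneg_iff {B s : ℝ} (hB : 0 ≤ B) (hB4 : B < 4) : 0 ≤ fw B s ↔ -B ≤ s := by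
  rcases le_total s 0 with h | h
  · rw [fw_le h]; constructor <;> intro h <;> linarith
  · constructor
    · intro _; linarith
    · intro _
      rcases le_total s 4 with h' | h'
      · rw [fw_mid h h']
        have : 0 ≤ B * (1 - s / 4) := mul_nonneg hB (by linarith)
        linarith
      · rw [fw_ge h']; exact h

lemma fw_le_iff {B s : ℝ} (hB : 0 ≤ B) (hB4 : B < 4) : fw B s ≤ 4 ↔ s ≤ 4 := by
  rcases le_total s 0 with h | h
  · rw [fw_le h]; constructor <;> intro h <;> linarith
  · rcases le_total s 4 with h' | h'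
    · rw [fw_mid h h']
      constructor
      · intro _; exact h'
      · intro _; nlinarith [mul_nonneg (sub_nonneg.2 h') (sub_nonneg.2 hB4.le)]
    · rw [fw_ge h']

lemma base_mk (p : Fin 4 → ℝ) (x : ℝ) : base ![p 0, p 1, p 2, x] = base p := by
  ext i; fin_cases i <;> simp [base]

lemma base_cont : Continuous base := by
  unfold base
  refine continuous_pi fun i => ?_
  fin_cases i <;> simp <;> fun_prop

lemma mk_cont {f : (Fin 4 → ℝ) → ℝ} (hf : Continuous f) :
    Continuous (fun p : Fin 4 → ℝ => (![p 0, p 1, p 2, f p] : Fin 4 → ℝ)) := by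
  refine continuous_pi fun i => ?_
  fin_cases i
  · simpa using continuous_apply (0 : Fin 4)
  · simpa using continuous_apply (1 : Fin 4)
  · simpa using continuous_apply (2 : Fin 4)
  · simpa using hf

lemma vec4 (p : Fin 4 → ℝ) {x : ℝ} (h : x = p 3) : (![p 0, p 1, p 2, x] : Fin 4 → ℝ) = p := by
  subst h
  ext i; fin_cases i <;> rfl

/-- the homeomorphism -/
noncomputable def Phi {B : (Fin 3 → ℝ) → ℝ} (hB : Continuous B) (h0 : ∀ x, 0 ≤ B x)
    (h4 : ∀ x, B x < 4) : (Fin 4 → ℝ) ≃ₜ (Fin 4 → ℝ) where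
  toFun p := ![p 0, p 1, p 2, fw (B (base p)) (p 3)]
  invFun p := ![p 0, p 1, p 2, bw (B (base p)) (p 3)]
  left_inv p := by
    show (![p 0, p 1, p 2, bw (B (base ![p 0, p 1, p 2, fw (B (base p)) (p 3)]))
      (fw (B (base p)) (p 3))] : Fin 4 → ℝ) = p
    rw [base_mk]
    exact vec4 p (bw_fw (h0 _) (h4 _))
  right_inv p := by
    show (![p 0, p 1, p 2, fw (B (base ![p 0, p 1, p 2, bw (B (base p)) (p 3)]))
      (bw (B (base p)) (p 3))] : Fin 4 → ℝ) = p
    rw [base_mk]
    exact vec4 p (fw_bw (h0 _) (h4 _))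
  continuous_toFun := by
    refine mk_cont ?_
    unfold fw
    have hb : Continuous fun p : Fin 4 → ℝ => B (base p) := hB.comp base_cont
    have h3 : Continuous fun p : Fin 4 → ℝ => p 3 := continuous_apply 3
    exact h3.add (hb.mul (cc_cont.comp (continuous_const.sub (h3.div_const 4))))
  continuous_invFun := by
    refine mk_cont ?_
    unfold bw
    have hb : Continuous fun p : Fin 4 → ℝ => B (base p) := hB.comp base_cont
    have h3 : Continuous fun p : Fin 4 → ℝ => p 3 := continuous_apply 3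
    refine h3.sub (hb.mul (cc_cont.comp ((continuous_const.sub h3).div (continuous_const.sub hb)
      fun p => ?_)))
    have := h4 (base p)
    linarith

/-- the open box -/
def W : Set (Fin 4 → ℝ) :=
  Set.pi univ (fun i => Ioo ((![-4, -4, -4, 0] : Fin 4 → ℝ) i) 4)

lemma W_open : IsOpen W := isOpen_set_pi finite_univ fun _ _ => isOpen_Ioo

lemma W_conv : Convex ℝ W := convex_pi fun _ _ => convex_Ioo _ _

lemma W_bdd : IsBounded W := by
  refine (Metric.isBounded_closedBall (x := (0 : Fin 4 → ℝ)) (r := 4)).subset ?_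
  intro p hp
  rw [mem_closedBall_zero_iff, pi_norm_le_iff_of_nonneg (by norm_num)]
  intro i
  have := hp i (mem_univ _)
  fin_cases i <;> simp at this ⊢ <;> rw [abs_le] <;> constructor <;> linarith [this.1, this.2]

lemma W_ne : W.Nonempty := by
  refine ⟨fun _ => 2, fun i _ => ?_⟩
  fin_cases i <;> simp <;> norm_num

lemma W_closure : closure W = {p | ‖base p‖ ≤ 4 ∧ 0 ≤ p 3 ∧ p 3 ≤ 4} := by
  unfold W
  rw [closure_pi_set]
  ext p
  have e : ∀ i : Fin 4, closure (Ioo ((![-4, -4, -4, 0] : Fin 4 → ℝ) i) 4)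
      = Icc ((![-4, -4, -4, 0] : Fin 4 → ℝ) i) 4 := by
    intro i
    refine closure_Ioo ?_
    fin_cases i <;> simp <;> norm_num
  simp only [e, mem_pi, mem_univ, true_implies, mem_setOf_eq]
  rw [pi_norm_le_iff_of_nonneg (by norm_num)]
  simp only [Fin.forall_fin_succ, base]
  simp [abs_le]
  tauto

theorem main (s01 : S01) (s02 : S02) : S06 := by
  intro B hB h0 h4
  have hS : IsTopSphere 3 (frontier W) := s01 W_open W_conv W_bdd W_ne
  obtain ⟨-, hout, hconn⟩ := s02 (by norm_num) W_open W_conv W_bdd W_ne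
  have hR : {p : Fin 4 → ℝ | ¬ (‖base p‖ ≤ 4 ∧ -B (base p) ≤ p 3 ∧ p 3 ≤ 4)}
      = (Phi hB h0 h4) ⁻¹' (outside (frontier W)) := by
    rw [hout, W_closure]
    ext p
    have e1 : base ((Phi hB h0 h4) p) = base p := base_mk p _
    have e2 : ((Phi hB h0 h4) p) 3 = fw (B (base p)) (p 3) := rfl
    simp only [mem_setOf_eq, mem_preimage, mem_compl_iff]
    rw [e1, e2, fw_nonneg_iff (h0 _) (h4 _), fw_le_iff (h0 _) (h4 _)]
  have hc : IsConnected {p : Fin 4 → ℝ | ¬ (‖base p‖ ≤ 4 ∧ -B (base p) ≤ p 3 ∧ p 3 ≤ 4)} := by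
    rw [hR, hout]
    have e : (Phi hB h0 h4) ⁻¹' (closure W)ᶜ = (Phi hB h0 h4).symm '' (closure W)ᶜ := by
      ext p
      constructor
      · intro hp
        exact ⟨_, hp, (Phi hB h0 h4).symm_apply_apply p⟩
      · rintro ⟨q, hq, rfl⟩
        show (Phi hB h0 h4) ((Phi hB h0 h4).symm q) ∈ (closure W)ᶜ
        rw [(Phi hB h0 h4).apply_symm_apply]
        exact hq
    rw [e]
    exact hconn.image _ (Phi hB h0 h4).symm.continuous.continuousOn
  exact ⟨hc.nonempty, hc, frontier W, hS, Or.inr ⟨(Phi hB h0 h4).sets hR⟩⟩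

end R415VN.P06
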