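import Pool.Agent.R415.VN.St

/-!
# P07: reflection (MP_3341d1_co)
-/

namespace R415VN.P07

open Set Bornology R415VN

/-- the reflection -/
def rf (p : Fin 4 → ℝ) : Fin 4 → ℝ := ![p 0, p 1, p 2, -p 3]

theorem rf_rf (p : Fin 4 → ℝ) : rf (rf p) = p := by
  funext i
  fin_cases i <;> simp [rf]

theorem rf_cont : Continuous rf := by
  unfold rf
  refine continuous_pi fun i => ?_
  fin_cases i
  · exact continuous_apply 0
  · exact continuous_apply 1
  · exact continuous_apply 2
  · exact (continuous_apply 3).neg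

/-- the reflection as a homeomorphism -/
def rfh : (Fin 4 → ℝ) ≃ₜ (Fin 4 → ℝ) where
  toFun := rf
  invFun := rf
  left_inv := rf_rf
  right_inv := rf_rf
  continuous_toFun := rf_cont
  continuous_invFun := rf_cont

theorem main : S07 := by
  intro R hR
  obtain ⟨h1, h2, S, hS, h3⟩ := hR
  have e : {p : Fin 4 → ℝ | (![p 0, p 1, p 2, -p 3] : Fin 4 → ℝ) ∈ R} = rf '' R := by
    ext p
    constructor
    · intro h
      exact ⟨rf p, h, rf_rf p⟩
    · rintro ⟨q, hq, rfl⟩
      have : rf (rf q) ∈ R := by rw [rf_rf]; exact hq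
      exact this
  rw [e]
  have f : R ≃ₜ (rf '' R) := rfh.image R
  refine ⟨h1.image _, h2.image _ rf_cont.continuousOn, S, hS, ?_⟩
  rcases h3 with ⟨⟨g⟩⟩ | ⟨⟨g⟩⟩
  · exact Or.inl ⟨f.symm.trans g⟩
  · exact Or.inr ⟨f.symm.trans g⟩

end R415VN.P07
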