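import Pool.Agent.R415.VN.St

/-!
# P08: the surfaces and their sides (problem MP_3341d1_co).
-/

namespace R415VN.P08
open Set Bornology

/-- `base` as a linear map. -/
def baseL : (Fin 4 → ℝ) →ₗ[ℝ] (Fin 3 → ℝ) where
  toFun := base
  map_add' p q := by
    ext i; fin_cases i <;> simp [base]
  map_smul' c p := by
    ext i; fin_cases i <;> simp [base]

lemma baseL_apply (p : Fin 4 → ℝ) : baseL p = base p := rfl

lemma cont_base : Continuous base := by
  unfold base
  refine continuous_pi fun i => ?_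
  fin_cases i
  · exact continuous_apply 0
  · exact continuous_apply 1
  · exact continuous_apply 2

/-- The last coordinate as a linear map. -/
def lastL : (Fin 4 → ℝ) →ₗ[ℝ] ℝ := LinearMap.proj 3

lemma norm_lt_of {p : Fin 4 → ℝ} {r : ℝ} (h1 : ‖base p‖ ≤ r) (h2 : |p 3| ≤ r) : ‖p‖ ≤ r := by
  have hr : 0 ≤ r := le_trans (norm_nonneg _) h1
  refine (pi_norm_le_iff_of_nonneg hr).2 fun i => ?_
  have h0 := fun j : Fin 3 => (norm_le_pi_norm (base p) j).trans h1
  fin_cases i
  · simpa [base] using h0 0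
  · simpa [base] using h0 1
  · simpa [base] using h0 2
  · simpa using h2

lemma key (g : (Fin 4 → ℝ) → ℝ) (s01 : S01) (s02 : S02) (s03 : S03) (hc : Continuous g)
    (hv : ConcaveOn ℝ univ g) (hb : IsBounded {x | 0 ≤ g x}) (hp : ∃ x, 0 < g x) :
    IsSurface {p | g p = 0} ∧ inside {p | g p = 0} = {p | 0 < g p} ∧
      outside {p | g p = 0} = {p | g p < 0} := by
  obtain ⟨ho, hcv, hbd, hne, hfr, hcl⟩ := s03 hc hv hb hp
  have h1 : IsTopSphere 3 (frontier {x | 0 < g x}) := s01 ho hcv hbd hne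
  obtain ⟨h2, h3, -⟩ := s02 (by norm_num : 2 ≤ 4) ho hcv hbd hne
  rw [hfr] at h1 h2 h3
  refine ⟨h1, h2, ?_⟩
  rw [h3, hcl]
  ext p
  simp

lemma conc_graph {f : (Fin 3 → ℝ) → ℝ} (hf : ConcaveOn ℝ univ f) :
    ConcaveOn ℝ univ (fun p : Fin 4 → ℝ => f (base p) - |p 3|) := by
  have h1 : ConcaveOn ℝ univ (fun p : Fin 4 → ℝ => f (base p)) := by
    have := hf.comp_linearMap baseL
    rw [preimage_univ] at this
    exact this
  have h2 : ConvexOn ℝ univ (fun p : Fin 4 → ℝ => |p 3|) := by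
    have h : ConvexOn ℝ univ (fun x : ℝ => ‖x‖) := convexOn_univ_norm
    have := h.comp_linearMap lastL
    simpa [lastL, Function.comp_def] using this
  exact h1.sub h2

lemma graph_case (s01 : S01) (s02 : S02) (s03 : S03) {h : Fin 3 → (Fin 3 → ℝ) → ℝ}
    (hg : Good h) (i : Fin 3) :
    IsSurface {p : Fin 4 → ℝ | h i (base p) - |p 3| = 0} ∧
    inside {p : Fin 4 → ℝ | h i (base p) - |p 3| = 0} = {p | 0 < h i (base p) - |p 3|} ∧
    outside {p : Fin 4 → ℝ | h i (base p) - |p 3| = 0} = {p | h i (base p) - |p 3| < 0} := by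
  refine key (fun p : Fin 4 → ℝ => h i (base p) - |p 3|) s01 s02 s03 ?_ (conc_graph (hg.conc i)) ?_ ?_
  · exact ((hg.cont i).comp cont_base).sub ((continuous_apply 3).abs)
  · refine (Metric.isBounded_closedBall (x := (0 : Fin 4 → ℝ)) (r := 4)).subset ?_
    intro p hp
    change 0 ≤ h i (base p) - |p 3| at hp
    rw [mem_closedBall_zero_iff]
    have h0 : 0 ≤ |p 3| := abs_nonneg _
    exact norm_lt_of (hg.bdd i _ (by linarith)).le (by linarith [hg.lt4 i (base p)])
  · obtain ⟨x, hx⟩ := hg.ne {i} ⟨i, Finset.mem_singleton_self i⟩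
    refine ⟨![x 0, x 1, x 2, 0], ?_⟩
    have hb : base ![x 0, x 1, x 2, 0] = x := by
      ext j; fin_cases j <;> simp [base]
    have := hx.1 i (Finset.mem_singleton_self i)
    simpa [hb] using this

lemma box_case (s01 : S01) (s02 : S02) (s03 : S03) :
    IsSurface {p : Fin 4 → ℝ | min (4 - ‖base p‖) (min (p 3) (4 - p 3)) = 0} ∧
    inside {p : Fin 4 → ℝ | min (4 - ‖base p‖) (min (p 3) (4 - p 3)) = 0} =
      {p | 0 < min (4 - ‖base p‖) (min (p 3) (4 - p 3))} ∧
    outside {p : Fin 4 → ℝ | min (4 - ‖base p‖) (min (p 3) (4 - p 3)) = 0} =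
      {p | min (4 - ‖base p‖) (min (p 3) (4 - p 3)) < 0} := by
  refine key (fun p : Fin 4 → ℝ => min (4 - ‖base p‖) (min (p 3) (4 - p 3))) s01 s02 s03 ?_ ?_ ?_ ?_
  · exact (continuous_const.sub cont_base.norm).min
      ((continuous_apply 3).min (continuous_const.sub (continuous_apply 3)))
  · have h1 : ConcaveOn ℝ univ (fun p : Fin 4 → ℝ => 4 - ‖base p‖) := by
      have h : ConvexOn ℝ univ (fun x : Fin 3 → ℝ => ‖x‖) := convexOn_univ_norm
      have h' : ConvexOn ℝ univ (fun p : Fin 4 → ℝ => ‖base p‖) := by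
        have := h.comp_linearMap baseL
        simpa [baseL_apply, Function.comp_def] using this
      exact (concaveOn_const (4 : ℝ) convex_univ).sub h'
    have h2 : ConcaveOn ℝ univ (fun p : Fin 4 → ℝ => p 3) := by
      have := lastL.concaveOn (convex_univ)
      simpa [lastL] using this
    have h3 : ConcaveOn ℝ univ (fun p : Fin 4 → ℝ => 4 - p 3) := by
      have h' : ConvexOn ℝ univ (fun p : Fin 4 → ℝ => p 3) := by
        have := lastL.convexOn (convex_univ)
        simpa [lastL] using this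
      exact (concaveOn_const (4 : ℝ) convex_univ).sub h'
    exact h1.inf (h2.inf h3)
  · refine (Metric.isBounded_closedBall (x := (0 : Fin 4 → ℝ)) (r := 4)).subset ?_
    intro p hp
    change 0 ≤ min (4 - ‖base p‖) (min (p 3) (4 - p 3)) at hp
    rw [le_min_iff, le_min_iff] at hp
    rw [mem_closedBall_zero_iff]
    refine norm_lt_of (by linarith [hp.1]) ?_
    rw [abs_of_nonneg hp.2.1]
    linarith [hp.2.2]
  · refine ⟨![0, 0, 0, 2], ?_⟩
    have hb : base ![0, 0, 0, 2] = 0 := by
      ext j; fin_cases j <;> simp [base]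
    have h3 : (![0, 0, 0, 2] : Fin 4 → ℝ) 3 = 2 := rfl
    simp only [hb, norm_zero, h3]
    norm_num

/-- P08. -/
theorem main (s01 : S01) (s02 : S02) (s03 : S03) : S08 := by
  intro h hg i
  fin_cases i
  · exact graph_case s01 s02 s03 hg 0
  · exact graph_case s01 s02 s03 hg 1
  · exact graph_case s01 s02 s03 hg 2
  · exact box_case s01 s02 s03

end R415VN.P08
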