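import Pool.Agent.R415.VN.St

namespace R415VN.P09
open Set Bornology R415VN

variable {h : Fin 3 → (Fin 3 → ℝ) → ℝ}

/-- lower graph -/
noncomputable def lo (h : Fin 3 → (Fin 3 → ℝ) → ℝ) (I : Finset (Fin 3)) (x : Fin 3 → ℝ) : ℝ :=
  max 0 ((Finset.univ : Finset (Fin 3)).sup' ⟨0, Finset.mem_univ _⟩
    (fun j => if j ∈ I then 0 else h j x))

/-- upper graph -/
noncomputable def hi (h : Fin 3 → (Fin 3 → ℝ) → ℝ) (I : Finset (Fin 3)) (x : Fin 3 → ℝ) : ℝ :=
  min 4 ((Finset.univ : Finset (Fin 3)).inf' ⟨0, Finset.mem_univ _⟩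
    (fun j => if j ∈ I then h j x else 4))

theorem lo_lt (I : Finset (Fin 3)) (x : Fin 3 → ℝ) (s : ℝ) :
    lo h I x < s ↔ 0 < s ∧ ∀ j ∉ I, h j x < s := by
  unfold lo
  rw [max_lt_iff, Finset.sup'_lt_iff]
  constructor
  · rintro ⟨h0, h1⟩
    refine ⟨h0, fun j hj => ?_⟩
    have := h1 j (Finset.mem_univ j)
    rwa [if_neg hj] at this
  · rintro ⟨h0, h1⟩
    refine ⟨h0, fun j _ => ?_⟩
    split_ifs with hj
    · exact h0
    · exact h1 j hj

theorem lt_hi (I : Finset (Fin 3)) (x : Fin 3 → ℝ) (s : ℝ) :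
    s < hi h I x ↔ s < 4 ∧ ∀ i ∈ I, s < h i x := by
  unfold hi
  rw [lt_min_iff, Finset.lt_inf'_iff]
  constructor
  · rintro ⟨h0, h1⟩
    refine ⟨h0, fun j hj => ?_⟩
    have := h1 j (Finset.mem_univ j)
    rwa [if_pos hj] at this
  · rintro ⟨h0, h1⟩
    refine ⟨h0, fun j _ => ?_⟩
    split_ifs with hj
    · exact h1 j hj
    · exact h0

theorem lo_cont (hg : Good h) (I : Finset (Fin 3)) : Continuous (lo h I) := by
  unfold lo
  refine continuous_const.max ?_
  apply Continuous.finset_sup'_apply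
  intro j _
  by_cases hj : j ∈ I
  · simp only [hj, if_true]; exact continuous_const
  · simp only [hj, if_false]; exact hg.cont j

theorem hi_cont (hg : Good h) (I : Finset (Fin 3)) : Continuous (hi h I) := by
  unfold hi
  refine continuous_const.min ?_
  apply Continuous.finset_inf'_apply
  intro j _
  by_cases hj : j ∈ I
  · simp only [hj, if_true]; exact hg.cont j
  · simp only [hj, if_false]; exact continuous_const

/-- the set of a pattern -/
def Reg (h : Fin 3 → (Fin 3 → ℝ) → ℝ) (I : Finset (Fin 3)) (b : Bool) : Set (Fin 4 → ℝ) :=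
  {p | (∀ i ∈ I, |p 3| < h i (base p)) ∧ (∀ j ∉ I, h j (base p) < |p 3|) ∧
    (b = false → 0 < G h 3 p) ∧ (b = true → G h 3 p < 0)}

theorem G3_pos (p : Fin 4 → ℝ) : 0 < G h 3 p ↔ ‖base p‖ < 4 ∧ 0 < p 3 ∧ p 3 < 4 := by
  show 0 < min (4 - ‖base p‖) (min (p 3) (4 - p 3)) ↔ _
  rw [lt_min_iff, lt_min_iff, sub_pos, sub_pos]

theorem G3_neg (p : Fin 4 → ℝ) : G h 3 p < 0 ↔ 4 < ‖base p‖ ∨ p 3 < 0 ∨ 4 < p 3 := by
  show min (4 - ‖base p‖) (min (p 3) (4 - p 3)) < 0 ↔ _
  rw [min_lt_iff, min_lt_iff, sub_neg, sub_neg]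

theorem G_low (i : Fin 3) (p : Fin 4 → ℝ) : G h i.castSucc p = h i (base p) - |p 3| := by
  fin_cases i <;> rfl

theorem region_eq (s08 : S08) (hg : Good h) (ε : Fin 4 → Bool) :
    region (VV h) ε = Reg h (Finset.univ.filter fun i : Fin 3 => ε i.castSucc = false) (ε 3) := by
  have hside : ∀ i : Fin 4, ∀ p, p ∈ side (VV h i) (ε i) ↔
      (ε i = false → 0 < G h i p) ∧ (ε i = true → G h i p < 0) := by
    intro i p
    obtain ⟨_, h1, h2⟩ := s08 hg i
    rcases hb : ε i with _ | _
    · have e : side (VV h i) false = inside (VV h i) := rfl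
      rw [e, h1]
      simp
    · have e : side (VV h i) true = outside (VV h i) := rfl
      rw [e, h2]
      simp
  ext p
  unfold region
  rw [Set.mem_iInter]
  constructor
  · intro hp
    refine ⟨?_, ?_, ?_⟩
    · intro i hi
      have hi' : ε i.castSucc = false := by simpa using hi
      have := ((hside i.castSucc p).mp (hp _)).1 hi'
      rw [G_low] at this
      linarith
    · intro j hj
      have hj' : ε j.castSucc = true := by simpa using hj
      have := ((hside j.castSucc p).mp (hp _)).2 hj'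
      rw [G_low] at this
      linarith
    · exact (hside 3 p).mp (hp 3)
  · rintro ⟨h1, h2, h3⟩ i
    rw [hside]
    induction i using Fin.lastCases with
    | last => exact h3
    | cast i =>
      rw [G_low]
      constructor
      · intro hi
        have := h1 i (by simpa using hi)
        linarith
      · intro hi
        have := h2 i (by simpa using hi)
        linarith

/-- upper regions over a set `Ω` -/
theorem reg_false (s05 : S05) (hg : Good h) (I : Finset (Fin 3)) :
    GoodRegion (Reg h I false) := by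
  set Ω : Set (Fin 3 → ℝ) := {x | ‖x‖ < 4 ∧ (∀ i ∈ I, 0 < h i x) ∧
    ∀ i ∈ I, ∀ j ∉ I, h j x < h i x} with hΩ
  have hΩe : I.Nonempty → Ω = Om h I := by
    intro hI
    ext x
    constructor
    · rintro ⟨_, h1, h2⟩; exact ⟨h1, h2⟩
    · rintro ⟨h1, h2⟩
      obtain ⟨i, hi⟩ := hI
      exact ⟨hg.bdd i x (h1 i hi).le, h1, h2⟩
  have hball : ¬ I.Nonempty → Ω = Metric.ball 0 4 := by
    intro hI
    rw [Finset.not_nonempty_iff_eq_empty] at hI
    ext x
    simp [hΩ, hI]
  have hopen : IsOpen Ω := by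
    have : Ω = {x | ‖x‖ < 4} ∩ ((⋂ i ∈ I, {x | 0 < h i x}) ∩
        (⋂ i ∈ I, ⋂ j ∈ Iᶜ, {x | h j x < h i x})) := by
      ext x
      simp [hΩ]
    rw [this]
    refine (isOpen_lt continuous_norm continuous_const).inter (IsOpen.inter ?_ ?_)
    · exact isOpen_biInter_finset fun i _ => isOpen_lt continuous_const (hg.cont i)
    · exact isOpen_biInter_finset fun i _ => isOpen_biInter_finset fun j _ =>
        isOpen_lt (hg.cont j) (hg.cont i)
  have hconv : Convex ℝ Ω := by
    by_cases hI : I.Nonempty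
    · rw [hΩe hI]; exact hg.conv I hI
    · rw [hball hI]; exact convex_ball 0 4
  have hbdd : IsBounded Ω := by
    apply (Metric.isBounded_ball (x := (0 : Fin 3 → ℝ)) (r := 4)).subset
    intro x hx
    simpa using hx.1
  have hne : Ω.Nonempty := by
    by_cases hI : I.Nonempty
    · rw [hΩe hI]; exact hg.ne I hI
    · rw [hball hI]; exact ⟨0, by simp⟩
  have hlt : ∀ x ∈ Ω, lo h I x < hi h I x := by
    rintro x ⟨_, h1, h2⟩
    rw [lt_hi]
    constructor
    · rw [lo_lt]
      exact ⟨by norm_num, fun j _ => hg.lt4 j x⟩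
    · intro i hi
      rw [lo_lt]
      exact ⟨h1 i hi, fun j hj => h2 i hi j hj⟩
  have key := s05 hopen hconv hbdd hne (lo_cont hg I) (hi_cont hg I) hlt
  have heq : Reg h I false = {p : Fin 4 → ℝ | base p ∈ Ω ∧ lo h I (base p) < p 3 ∧
      p 3 < hi h I (base p)} := by
    ext p
    constructor
    · rintro ⟨h1, h2, h3, _⟩
      have h3' := (G3_pos p).mp (h3 rfl)
      rw [abs_of_pos h3'.2.1] at h1 h2
      refine ⟨⟨h3'.1, fun i hi => h3'.2.1.trans (h1 i hi), fun i hi j hj =>
        (h2 j hj).trans (h1 i hi)⟩, ?_, ?_⟩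
      · rw [lo_lt]; exact ⟨h3'.2.1, h2⟩
      · rw [lt_hi]; exact ⟨h3'.2.2, h1⟩
    · rintro ⟨⟨h1, h2, h3⟩, h4, h5⟩
      rw [lo_lt] at h4
      rw [lt_hi] at h5
      refine ⟨?_, ?_, ?_, ?_⟩
      · rw [abs_of_pos h4.1]; exact h5.2
      · rw [abs_of_pos h4.1]; exact h4.2
      · intro _
        rw [G3_pos]
        exact ⟨h1, h4.1, h5.1⟩
      · intro hf; exact absurd hf (by decide)
  rw [heq]
  exact key

theorem base_refl (p : Fin 4 → ℝ) : base (![p 0, p 1, p 2, -p 3] : Fin 4 → ℝ) = base p := by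
  unfold base
  rfl

theorem reg_true_ne (s05 : S05) (s07 : S07) (hg : Good h) (I : Finset (Fin 3)) (hI : I.Nonempty) :
    GoodRegion (Reg h I true) := by
  have key := s07 (reg_false s05 hg I)
  have heq : Reg h I true = {p : Fin 4 → ℝ | (![p 0, p 1, p 2, -p 3] : Fin 4 → ℝ) ∈
      Reg h I false} := by
    ext p
    have e3 : (![p 0, p 1, p 2, -p 3] : Fin 4 → ℝ) 3 = - p 3 := rfl
    constructor
    · rintro ⟨h1, h2, _, h4⟩
      have h4' := (G3_neg p).mp (h4 rfl)
      obtain ⟨i, hi⟩ := hI
      have hb := hg.bdd i (base p) ((abs_nonneg _).trans (h1 i hi).le)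
      have h44 := (h1 i hi).trans (hg.lt4 i (base p))
      have hs : p 3 < 0 := by
        rcases h4' with h | h | h
        · linarith
        · exact h
        · have := le_abs_self (p 3)
          linarith
      refine ⟨?_, ?_, ?_, ?_⟩
      · rw [base_refl, e3, abs_neg]; exact h1
      · rw [base_refl, e3, abs_neg]; exact h2
      · intro _
        rw [G3_pos, base_refl, e3]
        refine ⟨hb, by linarith, ?_⟩
        have := neg_abs_le (p 3)
        linarith
      · intro hf; exact absurd hf (by decide)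
    · rintro ⟨h1, h2, h3, _⟩
      rw [base_refl, e3, abs_neg] at h1 h2
      have h3' := (G3_pos _).mp (h3 rfl)
      rw [base_refl, e3] at h3'
      refine ⟨h1, h2, ?_, ?_⟩
      · intro hf; exact absurd hf (by decide)
      · intro _
        rw [G3_neg]
        right; left
        linarith [h3'.2.1]
  rw [heq]
  exact key

theorem reg_true_empty (s06 : S06) (hg : Good h) : GoodRegion (Reg h ∅ true) := by
  have hB0 : ∀ x, 0 ≤ lo h ∅ x := fun x => le_max_left _ _
  have hB4 : ∀ x, lo h ∅ x < 4 := by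
    intro x
    rw [lo_lt]
    exact ⟨by norm_num, fun j _ => hg.lt4 j x⟩
  have key := s06 (lo_cont hg ∅) hB0 hB4
  have heq : Reg h ∅ true = {p : Fin 4 → ℝ | ¬ (‖base p‖ ≤ 4 ∧ -lo h ∅ (base p) ≤ p 3 ∧
      p 3 ≤ 4)} := by
    ext p
    constructor
    · rintro ⟨_, h2, _, h4⟩ ⟨a1, a2, a3⟩
      have h4' := (G3_neg p).mp (h4 rfl)
      have hs : p 3 < 0 := by
        rcases h4' with h | h | h
        · linarith
        · exact h
        · linarith
      have : lo h ∅ (base p) < - p 3 := by
        rw [lo_lt]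
        refine ⟨by linarith, fun j hj => ?_⟩
        have := h2 j hj
        rwa [abs_of_neg hs] at this
      linarith
    · intro hp
      have hcase : 4 < ‖base p‖ ∨ p 3 < -lo h ∅ (base p) ∨ 4 < p 3 := by
        by_contra hc
        push Not at hc
        exact hp ⟨hc.1, hc.2.1, hc.2.2⟩
      refine ⟨by simp, ?_, by simp, ?_⟩
      · intro j hj
        rcases hcase with hc | hc | hc
        · by_contra hcon
          push Not at hcon
          have := hg.bdd j (base p) ((abs_nonneg _).trans hcon)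
          linarith
        · have h' : lo h ∅ (base p) < - p 3 := by linarith
          have := ((lo_lt ∅ (base p) (- p 3)).mp h').2 j hj
          exact this.trans_le (neg_le_abs _)
        · have := hg.lt4 j (base p)
          have := le_abs_self (p 3)
          linarith
      · intro _
        rw [G3_neg]
        rcases hcase with h | h | h
        · left; exact h
        · right; left
          have := hB0 (base p)
          linarith
        · right; right; exact h
  rw [heq]
  exact key

theorem main (s05 : S05) (s06 : S06) (s07 : S07) (s08 : S08) : S09 := by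
  intro h hg ε
  rw [region_eq s08 hg ε]
  set I := Finset.univ.filter fun i : Fin 3 => ε i.castSucc = false
  rcases hb : ε 3 with _ | _
  · exact reg_false s05 hg I
  · by_cases hI : I.Nonempty
    · exact reg_true_ne s05 s07 hg I hI
    · rw [Finset.not_nonempty_iff_eq_empty] at hI
      rw [hI]
      exact reg_true_empty s06 hg

end R415VN.P09
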