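import Pool.Agent.R415.VN.St

/-!
# P10: the standard diagram is good (MP_3341d1_co)
-/

namespace R415VN.P10

open Set Bornology R415VN

theorem cont (i : Fin 3) : Continuous (hStd i) := by
  unfold hStd
  fun_prop

theorem conc (i : Fin 3) : ConcaveOn ℝ univ (hStd i) := by
  refine ⟨convex_univ, ?_⟩
  intro x _ y _ a b ha hb hab
  obtain rfl : b = 1 - a := by linarith
  simp only [hStd, Pi.add_apply, Pi.smul_apply, smul_eq_mul]
  have h : 0 ≤ a * (1 - a) * ((x 0 - y 0) ^ 2 + (x 1 - y 1) ^ 2 + (x 2 - y 2) ^ 2) :=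
    mul_nonneg (mul_nonneg ha hb) (by positivity)
  nlinarith

theorem lt4 (i : Fin 3) (x : Fin 3 → ℝ) : hStd i x < 4 := by
  unfold hStd
  fin_cases i <;>
    simp only [Fin.zero_eta, Fin.mk_one, Fin.reduceFinMk] <;>
    nlinarith [sq_nonneg (x 0 - 1), sq_nonneg (x 1 - 1), sq_nonneg (x 2 - 1), sq_nonneg (x 0),
      sq_nonneg (x 1), sq_nonneg (x 2)]

theorem bdd (i : Fin 3) (x : Fin 3 → ℝ) (h : 0 ≤ hStd i x) : ‖x‖ < 4 := by
  rw [pi_norm_lt_iff (by norm_num)]
  unfold hStd at h
  intro j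
  rw [Real.norm_eq_abs]
  apply abs_lt_of_sq_lt_sq _ (by norm_num)
  fin_cases i <;> fin_cases j <;>
    simp only [Fin.zero_eta, Fin.mk_one, Fin.reduceFinMk] at h ⊢ <;>
    nlinarith [sq_nonneg (x 0 - 2), sq_nonneg (x 1 - 2), sq_nonneg (x 2 - 2), sq_nonneg (x 0),
      sq_nonneg (x 1), sq_nonneg (x 2)]

theorem conv (I : Finset (Fin 3)) : Convex ℝ (Om hStd I) := by
  have e : Om hStd I = (⋂ i ∈ I, {x | 0 < hStd i x}) ∩
      (⋂ i ∈ I, ⋂ j ∈ ((I : Set (Fin 3))ᶜ), {x : Fin 3 → ℝ | x j < x i}) := by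
    ext x
    simp only [Om, mem_setOf_eq, mem_inter_iff, mem_iInter, mem_compl_iff, Finset.mem_coe]
    refine and_congr Iff.rfl ?_
    refine forall_congr' fun i => forall_congr' fun _ => forall_congr' fun j =>
      forall_congr' fun _ => ?_
    simp only [hStd]
    constructor <;> intro h <;> linarith
  rw [e]
  refine Convex.inter (convex_iInter₂ fun i _ => ?_) (convex_iInter₂ fun i _ =>
    convex_iInter₂ fun j _ => ?_)
  · have := (conc i).convex_gt 0
    simpa using this
  · intro x hx y hy a b ha hb hab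
    simp only [mem_setOf_eq, Pi.add_apply, Pi.smul_apply, smul_eq_mul] at hx hy ⊢
    rcases eq_or_lt_of_le ha with rfl | ha'
    · have : b = 1 := by linarith
      subst this
      linarith
    · nlinarith

theorem ne (I : Finset (Fin 3)) (hI : I.Nonempty) : (Om hStd I).Nonempty := by
  classical
  refine ⟨fun j => if j ∈ I then 1 / 2 else 0, ?_, ?_⟩
  · intro i hi
    simp only [hStd, if_pos hi]
    have h : ∀ j : Fin 3, (if j ∈ I then (1 / 2 : ℝ) else 0) ^ 2 ≤ 1 / 4 := by
      intro j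
      split_ifs <;> norm_num
    linarith [h 0, h 1, h 2]
  · intro i hi j hj
    simp only [hStd, if_pos hi, if_neg hj]
    linarith

theorem main : S10 where
  cont := cont
  conc := conc
  lt4 := lt4
  bdd := bdd
  conv := fun I _ => conv I
  ne := ne

end R415VN.P10
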