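import Pool.Agent.R415.VN.St

/-! P11: the spun diagram is good. -/

namespace R415VN.P11

open R415VN Set Bornology

theorem h0_apply (x : Fin 3 → ℝ) :
    hSpun 0 x = 13 / 16 - x 0 ^ 2 / 4 - (x 1 ^ 2 + x 2 ^ 2) := rfl
theorem h1_apply (x : Fin 3 → ℝ) :
    hSpun 1 x = 1 - x 0 ^ 2 - (x 1 ^ 2 + x 2 ^ 2) := rfl
theorem h2_apply (x : Fin 3 → ℝ) :
    hSpun 2 x = 1 - x 0 ^ 2 - 9 / 5 * x 0 - (x 1 ^ 2 + x 2 ^ 2) := rfl

theorem mem_Om (I : Finset (Fin 3)) (x : Fin 3 → ℝ) : x ∈ Om hSpun I ↔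
    ((0 ∈ I → 0 < hSpun 0 x) ∧ (1 ∈ I → 0 < hSpun 1 x) ∧ (2 ∈ I → 0 < hSpun 2 x)) ∧
    (((0 ∈ I → 1 ∉ I → hSpun 1 x < hSpun 0 x) ∧ (0 ∈ I → 2 ∉ I → hSpun 2 x < hSpun 0 x)) ∧
    ((1 ∈ I → 0 ∉ I → hSpun 0 x < hSpun 1 x) ∧ (1 ∈ I → 2 ∉ I → hSpun 2 x < hSpun 1 x)) ∧
    ((2 ∈ I → 0 ∉ I → hSpun 0 x < hSpun 2 x) ∧ (2 ∈ I → 1 ∉ I → hSpun 1 x < hSpun 2 x))) := by
  constructor
  · rintro ⟨h1, h2⟩
    exact ⟨⟨fun h => h1 0 h, fun h => h1 1 h, fun h => h1 2 h⟩,
      ⟨fun h h' => h2 0 h 1 h', fun h h' => h2 0 h 2 h'⟩,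
      ⟨fun h h' => h2 1 h 0 h', fun h h' => h2 1 h 2 h'⟩,
      ⟨fun h h' => h2 2 h 0 h', fun h h' => h2 2 h 1 h'⟩⟩
  · rintro ⟨⟨a, b, c⟩, ⟨d, e⟩, ⟨f, g⟩, ⟨k, l⟩⟩
    refine ⟨?_, ?_⟩
    · intro i hi
      fin_cases i
      · exact a hi
      · exact b hi
      · exact c hi
    · intro i hi j hj
      fin_cases i <;> fin_cases j
      · exact absurd hi hj
      · exact d hi hj
      · exact e hi hj
      · exact f hi hj
      · exact absurd hi hj
      · exact g hi hj
      · exact k hi hj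
      · exact l hi hj
      · exact absurd hi hj

theorem concave (i : Fin 3) : ConcaveOn ℝ univ (hSpun i) := by
  refine ⟨convex_univ, fun x _ y _ a b ha hb hab => ?_⟩
  have hb' : b = 1 - a := by linarith
  subst hb'
  have h := mul_nonneg ha hb
  have e0 := mul_nonneg h (sq_nonneg (x 0 - y 0))
  have e1 := mul_nonneg h (sq_nonneg (x 1 - y 1))
  have e2 := mul_nonneg h (sq_nonneg (x 2 - y 2))
  fin_cases i
  · show a • hSpun 0 x + (1 - a) • hSpun 0 y ≤ hSpun 0 (a • x + (1 - a) • y)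
    simp only [h0_apply, smul_eq_mul, Pi.add_apply, Pi.smul_apply]
    nlinarith
  · show a • hSpun 1 x + (1 - a) • hSpun 1 y ≤ hSpun 1 (a • x + (1 - a) • y)
    simp only [h1_apply, smul_eq_mul, Pi.add_apply, Pi.smul_apply]
    nlinarith
  · show a • hSpun 2 x + (1 - a) • hSpun 2 y ≤ hSpun 2 (a • x + (1 - a) • y)
    simp only [h2_apply, smul_eq_mul, Pi.add_apply, Pi.smul_apply]
    nlinarith

theorem cont (i : Fin 3) : Continuous (hSpun i) := by
  fin_cases i
  · show Continuous (fun x : Fin 3 → ℝ => 13 / 16 - x 0 ^ 2 / 4 - (x 1 ^ 2 + x 2 ^ 2))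
    fun_prop
  · show Continuous (fun x : Fin 3 → ℝ => 1 - x 0 ^ 2 - (x 1 ^ 2 + x 2 ^ 2))
    fun_prop
  · show Continuous (fun x : Fin 3 → ℝ => 1 - x 0 ^ 2 - 9 / 5 * x 0 - (x 1 ^ 2 + x 2 ^ 2))
    fun_prop

/-- the slab description of the set of an order pattern -/
theorem exists_slab (I : Finset (Fin 3)) (hI : I.Nonempty) : ∃ lo hi : ℝ,
    (∀ x, x ∈ Om hSpun I ↔ (lo < x 0 ∧ x 0 < hi ∧ ∀ i ∈ I, 0 < hSpun i x)) ∧
    ∃ u : ℝ, lo < u ∧ u < hi ∧ (0 ∈ I → u ^ 2 / 4 < 13 / 16) ∧ (1 ∈ I → u ^ 2 < 1) ∧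
      (2 ∈ I → u ^ 2 + 9 / 5 * u < 1) := by
  have hall : ∀ x : Fin 3 → ℝ, (∀ i ∈ I, 0 < hSpun i x) ↔
      ((0 ∈ I → 0 < hSpun 0 x) ∧ (1 ∈ I → 0 < hSpun 1 x) ∧ (2 ∈ I → 0 < hSpun 2 x)) := by
    intro x
    constructor
    · intro h
      exact ⟨h 0, h 1, h 2⟩
    · rintro ⟨a, b, c⟩ i hi
      fin_cases i
      · exact a hi
      · exact b hi
      · exact c hi
  simp only [hall, mem_Om]
  by_cases m0 : (0 : Fin 3) ∈ I <;> by_cases m1 : (1 : Fin 3) ∈ I <;>
    by_cases m2 : (2 : Fin 3) ∈ I <;>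
    simp only [m0, m1, m2, not_true_eq_false, not_false_eq_true, true_imp_iff, false_imp_iff,
      and_true, true_and, IsEmpty.forall_iff, forall_const]
  · -- ABC
    refine ⟨-10, 10, fun x => ?_, 0, by norm_num, by norm_num, by norm_num, by norm_num,
      by norm_num⟩
    simp only [h0_apply, h1_apply, h2_apply]
    constructor
    · rintro ⟨a, b, c⟩
      have p1 := sq_nonneg (x 1)
      have p2 := sq_nonneg (x 2)
      exact ⟨by nlinarith, by nlinarith, a, b, c⟩
    · rintro ⟨-, -, a, b, c⟩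
      exact ⟨a, b, c⟩
  · -- AB
    refine ⟨1 / 10, 10, fun x => ?_, 1 / 2, by norm_num, by norm_num, by norm_num, by norm_num⟩
    simp only [h0_apply, h1_apply, h2_apply]
    have p1 := sq_nonneg (x 1)
    have p2 := sq_nonneg (x 2)
    constructor
    · rintro ⟨⟨a, b⟩, c, d⟩
      have q1 : 0 < x 0 := by linarith
      have q2 : x 0 < 10 := by nlinarith
      refine ⟨?_, q2, a, b⟩
      by_contra hcon
      rw [not_lt] at hcon
      nlinarith
    · rintro ⟨q1, q2, a, b⟩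
      exact ⟨⟨a, b⟩, by nlinarith, by nlinarith⟩
  · -- AC
    refine ⟨-10, -(1 / 2), fun x => ?_, -(3 / 4), by norm_num, by norm_num, by norm_num,
      by norm_num⟩
    simp only [h0_apply, h1_apply, h2_apply]
    have p1 := sq_nonneg (x 1)
    have p2 := sq_nonneg (x 2)
    constructor
    · rintro ⟨⟨a, b⟩, c, d⟩
      have q1 : x 0 < 0 := by linarith
      have q2 : -10 < x 0 := by nlinarith
      refine ⟨q2, ?_, a, b⟩
      by_contra hcon
      rw [not_lt] at hcon
      nlinarith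
    · rintro ⟨q1, q2, a, b⟩
      exact ⟨⟨a, b⟩, by nlinarith, by nlinarith⟩
  · -- A
    refine ⟨1 / 2, 10, fun x => ?_, 1, by norm_num, by norm_num, by norm_num⟩
    simp only [h0_apply, h1_apply, h2_apply]
    have p1 := sq_nonneg (x 1)
    have p2 := sq_nonneg (x 2)
    constructor
    · rintro ⟨a, b, c⟩
      have q1 : -2 < x 0 := by nlinarith
      have q2 : x 0 < 10 := by nlinarith
      have q3 : 1 / 10 < x 0 := by
        by_contra hcon
        rw [not_lt] at hcon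
        nlinarith
      refine ⟨?_, q2, a⟩
      by_contra hcon
      rw [not_lt] at hcon
      nlinarith
    · rintro ⟨q1, q2, a⟩
      exact ⟨a, by nlinarith, by nlinarith⟩
  · -- BC
    refine ⟨-(1 / 2), 1 / 10, fun x => ?_, 0, by norm_num, by norm_num, by norm_num,
      by norm_num⟩
    simp only [h0_apply, h1_apply, h2_apply]
    have p1 := sq_nonneg (x 1)
    have p2 := sq_nonneg (x 2)
    constructor
    · rintro ⟨⟨a, b⟩, c, d⟩
      have q1 : -(1 / 2) < x 0 := by nlinarith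
      have q2 : x 0 < 1 / 2 := by nlinarith
      refine ⟨q1, ?_, a, b⟩
      by_contra hcon
      rw [not_lt] at hcon
      nlinarith
    · rintro ⟨q1, q2, a, b⟩
      exact ⟨⟨a, b⟩, by nlinarith, by nlinarith⟩
  · -- B
    refine ⟨0, 1 / 2, fun x => ?_, 1 / 4, by norm_num, by norm_num, by norm_num⟩
    simp only [h0_apply, h1_apply, h2_apply]
    have p1 := sq_nonneg (x 1)
    have p2 := sq_nonneg (x 2)
    constructor
    · rintro ⟨a, b, c⟩
      exact ⟨by linarith, by nlinarith, a⟩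
    · rintro ⟨q1, q2, a⟩
      exact ⟨a, by nlinarith, by nlinarith⟩
  · -- C
    refine ⟨-10, 0, fun x => ?_, -(3 / 2), by norm_num, by norm_num, by norm_num⟩
    simp only [h0_apply, h1_apply, h2_apply]
    have p1 := sq_nonneg (x 1)
    have p2 := sq_nonneg (x 2)
    constructor
    · rintro ⟨a, b, c⟩
      exact ⟨by nlinarith, by linarith, a⟩
    · rintro ⟨q1, q2, a⟩
      have q3 : -(5 / 2) < x 0 := by nlinarith
      exact ⟨a, by nlinarith, by nlinarith⟩
  · -- empty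
    exfalso
    obtain ⟨i, hi⟩ := hI
    fin_cases i
    · exact m0 hi
    · exact m1 hi
    · exact m2 hi

theorem main : S11 where
  cont := cont
  conc := concave
  lt4 := by
    intro i x
    have p0 := sq_nonneg (x 0)
    have p1 := sq_nonneg (x 1)
    have p2 := sq_nonneg (x 2)
    have p3 := sq_nonneg (x 0 + 9 / 10)
    fin_cases i
    · show hSpun 0 x < 4
      rw [h0_apply]
      nlinarith
    · show hSpun 1 x < 4
      rw [h1_apply]
      nlinarith
    · show hSpun 2 x < 4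
      rw [h2_apply]
      nlinarith
  bdd := by
    intro i x hx
    rw [pi_norm_lt_iff (by norm_num)]
    have p0 := sq_nonneg (x 0)
    have p1 := sq_nonneg (x 1)
    have p2 := sq_nonneg (x 2)
    have p3 := sq_nonneg (x 0 + 9 / 10)
    have key : x 0 ^ 2 + x 1 ^ 2 + x 2 ^ 2 < 16 ∧ x 0 ^ 2 < 16 := by
      fin_cases i
      · change 0 ≤ hSpun 0 x at hx
        rw [h0_apply] at hx
        constructor <;> nlinarith
      · change 0 ≤ hSpun 1 x at hx
        rw [h1_apply] at hx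
        constructor <;> nlinarith
      · change 0 ≤ hSpun 2 x at hx
        rw [h2_apply] at hx
        have q1 : -3 < x 0 := by nlinarith
        have q2 : x 0 < 3 := by nlinarith
        constructor <;> nlinarith
    intro j
    rw [Real.norm_eq_abs]
    apply abs_lt_of_sq_lt_sq _ (by norm_num)
    fin_cases j
    · show x 0 ^ 2 < 4 ^ 2
      nlinarith [key.1]
    · show x 1 ^ 2 < 4 ^ 2
      nlinarith [key.1]
    · show x 2 ^ 2 < 4 ^ 2
      nlinarith [key.1]
  conv := by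
    intro I hI
    obtain ⟨lo, hi, h, -⟩ := exists_slab I hI
    intro x hx y hy a b ha hb hab
    rw [h] at hx hy ⊢
    obtain ⟨x1, x2, x3⟩ := hx
    obtain ⟨y1, y2, y3⟩ := hy
    have hb' : b = 1 - a := by linarith
    refine ⟨?_, ?_, ?_⟩
    · show lo < a * x 0 + b * y 0
      rcases ha.eq_or_lt with h0 | h0
      · rw [← h0] at hb' ⊢
        rw [hb']
        linarith
      · have := mul_lt_mul_of_pos_left x1 h0
        have := mul_le_mul_of_nonneg_left y1.le hb
        have e : lo = a * lo + b * lo := by rw [← add_mul, hab, one_mul]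
        linarith
    · show a * x 0 + b * y 0 < hi
      rcases ha.eq_or_lt with h0 | h0
      · rw [← h0] at hb' ⊢
        rw [hb']
        linarith
      · have := mul_lt_mul_of_pos_left x2 h0
        have := mul_le_mul_of_nonneg_left y2.le hb
        have e : hi = a * hi + b * hi := by rw [← add_mul, hab, one_mul]
        linarith
    · intro i hi'
      have h1 := (concave i).2 (mem_univ x) (mem_univ y) ha hb hab
      refine lt_of_lt_of_le ?_ h1
      rcases ha.eq_or_lt with h0 | h0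
      · rw [← h0] at hb' ⊢
        rw [hb']
        simpa using y3 i hi'
      · have h2 := mul_pos h0 (x3 i hi')
        have h3 := mul_nonneg hb (y3 i hi').le
        show 0 < a * hSpun i x + b * hSpun i y
        linarith
  ne := by
    intro I hI
    obtain ⟨lo, hi, h, u, h1, h2, h3, h4, h5⟩ := exists_slab I hI
    refine ⟨![u, 0, 0], (h _).mpr ⟨h1, h2, ?_⟩⟩
    intro i hi'
    fin_cases i
    · show 0 < hSpun 0 ![u, 0, 0]
      rw [h0_apply]
      have := h3 hi'
      simp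
      linarith
    · show 0 < hSpun 1 ![u, 0, 0]
      rw [h1_apply]
      have := h4 hi'
      show 0 < 1 - u ^ 2 - ((0 : ℝ) ^ 2 + 0 ^ 2)
      linarith
    · show 0 < hSpun 2 ![u, 0, 0]
      rw [h2_apply]
      have := h5 hi'
      show 0 < 1 - u ^ 2 - 9 / 5 * u - ((0 : ℝ) ^ 2 + 0 ^ 2)
      linarith

end R415VN.P11
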