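import Pool.Agent.R415.VN.St

namespace R415VN.P12
open Set Bornology

/-! ### tools -/

theorem one (s04 : S04) {k m : ℕ} {A : Set (Fin m → ℝ)} {g : (Fin (k + 1) → ℝ) → ℝ}
    (hg : Continuous g) (hc : ConcaveOn ℝ univ g) (hb : IsBounded {x | 0 ≤ g x})
    (hp : ∃ x, 0 < g x) (φ : (Fin (k + 1) → ℝ) → (Fin m → ℝ)) (ψ : (Fin m → ℝ) → (Fin (k + 1) → ℝ))
    (hφ : Continuous φ) (hψ : Continuous ψ) (h : ∀ x, ψ (φ x) = x)
    (hA : ∀ p, p ∈ A ↔ φ (ψ p) = p ∧ g (ψ p) = 0) : IsTopSphere k A := by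
  have h1 := s04 hg hc hb hp hφ hψ h
  have h2 : A = φ '' {x | g x = 0} := by
    ext p
    rw [hA]
    constructor
    · rintro ⟨h1, h2⟩
      exact ⟨ψ p, h2, h1⟩
    · rintro ⟨x, hx, rfl⟩
      rw [h]
      exact ⟨rfl, hx⟩
  rw [h2]
  exact h1

theorem single {m j : ℕ} {A : Set (Fin m → ℝ)} (h : IsTopSphere j A) : IsUnionOfSpheres j A :=
  ⟨{A}, Set.finite_singleton A, by rintro S rfl; exact h, sUnion_singleton A⟩

theorem double {m j : ℕ} {A B C : Set (Fin m → ℝ)} (h : IsTopSphere j A) (h' : IsTopSphere j B)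
    (hC : C = A ∪ B) : IsUnionOfSpheres j C :=
  ⟨{A, B}, by simp, by rintro S (rfl | rfl) <;> assumption, by rw [hC]; exact sUnion_pair A B⟩

theorem none {m j : ℕ} {A : Set (Fin m → ℝ)} (h : A = ∅) : IsUnionOfSpheres j A :=
  ⟨∅, Set.finite_empty, by simp, by rw [h]; exact sUnion_empty⟩

theorem cases4 : ∀ K : Finset (Fin 4), 2 ≤ K.card → K = {0, 1} ∨ K = {0, 2} ∨ K = {1, 2} ∨
    K = {0, 3} ∨ K = {1, 3} ∨ K = {2, 3} ∨ K = {0, 1, 2} ∨ K = {0, 1, 3} ∨ K = {0, 2, 3} ∨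
    K = {1, 2, 3} ∨ K = {0, 1, 2, 3} := by decide

/-- squares are convex -/
theorem sqc (a b x y : ℝ) (ha : 0 ≤ a) (hb : 0 ≤ b) (hab : a + b = 1) :
    (a * x + b * y) ^ 2 ≤ a * x ^ 2 + b * y ^ 2 := by
  have h : b = 1 - a := by linarith
  subst h
  nlinarith [mul_nonneg (mul_nonneg ha hb) (sq_nonneg (x - y))]

theorem absc (a b x y : ℝ) (ha : 0 ≤ a) (hb : 0 ≤ b) :
    |a * x + b * y| ≤ a * |x| + b * |y| := by
  calc |a * x + b * y| ≤ |a * x| + |b * y| := abs_add_le _ _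
    _ = a * |x| + b * |y| := by rw [abs_mul, abs_mul, abs_of_nonneg ha, abs_of_nonneg hb]

theorem bddc {k : ℕ} {g : (Fin k → ℝ) → ℝ} (h : ∀ x, 0 ≤ g x → ∀ i, -4 ≤ x i ∧ x i ≤ 4) :
    IsBounded {x | 0 ≤ g x} := by
  apply Metric.isBounded_closedBall (x := (0 : Fin k → ℝ)) (r := 4) |>.subset
  intro x hx
  rw [mem_closedBall_zero_iff, pi_norm_le_iff_of_nonneg (by norm_num)]
  intro i
  rw [Real.norm_eq_abs, abs_le]
  exact h x hx i

theorem G3 {h : Fin 3 → (Fin 3 → ℝ) → ℝ} {p : Fin 4 → ℝ} (h1 : ‖base p‖ < 4) (h2 : |p 3| < 4) :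
    G h 3 p = 0 ↔ p 3 = 0 := by
  have e : G h 3 p = min (4 - ‖base p‖) (min (p 3) (4 - p 3)) := rfl
  rw [e]
  have h3 := (abs_lt.1 h2).2
  constructor
  · intro h
    rcases min_choice (4 - ‖base p‖) (min (p 3) (4 - p 3)) with h' | h'
    · rw [h'] at h; linarith
    · rw [h'] at h
      rcases min_choice (p 3) (4 - p 3) with h'' | h''
      · rw [h''] at h; exact h
      · rw [h''] at h; linarith
  · intro h
    rw [h]
    rw [min_eq_left (by norm_num : (0:ℝ) ≤ 4 - 0), min_eq_right (by linarith)]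

theorem normlt (p : Fin 4 → ℝ) (h0 : |p 0| < 4) (h1 : |p 1| < 4) (h2 : |p 2| < 4) :
    ‖base p‖ < 4 := by
  rw [pi_norm_lt_iff (by norm_num)]
  intro i
  fin_cases i
  · exact h0
  · exact h1
  · exact h2

theorem G0 {h : Fin 3 → (Fin 3 → ℝ) → ℝ} {p : Fin 4 → ℝ} :
    G h 0 p = h 0 (base p) - |p 3| := rfl
theorem G1 {h : Fin 3 → (Fin 3 → ℝ) → ℝ} {p : Fin 4 → ℝ} :
    G h 1 p = h 1 (base p) - |p 3| := rfl
theorem G2 {h : Fin 3 → (Fin 3 → ℝ) → ℝ} {p : Fin 4 → ℝ} :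
    G h 2 p = h 2 (base p) - |p 3| := rfl


theorem std_e (i : Fin 3) (p : Fin 4 → ℝ) : hStd i (base p) =
    1 - (p 0 ^ 2 + p 1 ^ 2 + p 2 ^ 2) + 2 * (base p i) := rfl

theorem std_bd (a b c s : ℝ) (h : 1 - (a ^ 2 + b ^ 2 + c ^ 2) + 2 * a = |s|) :
    |a| < 4 ∧ |b| < 4 ∧ |c| < 4 ∧ |s| < 4 := by
  have hs := abs_nonneg s
  refine ⟨?_, ?_, ?_, ?_⟩
  · rw [abs_lt]; constructor <;> nlinarith [sq_nonneg b, sq_nonneg c]
  · rw [abs_lt]; constructor <;> nlinarith [sq_nonneg (a - 1), sq_nonneg c]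
  · rw [abs_lt]; constructor <;> nlinarith [sq_nonneg (a - 1), sq_nonneg b]
  · nlinarith [sq_nonneg (a - 1), sq_nonneg b, sq_nonneg c]

theorem stdG3 (i : Fin 3) (p : Fin 4 → ℝ) (h : hStd i (base p) = |p 3|) :
    G hStd 3 p = 0 ↔ p 3 = 0 := by
  rw [std_e] at h
  have key : |p 0| < 4 ∧ |p 1| < 4 ∧ |p 2| < 4 ∧ |p 3| < 4 := by
    fin_cases i
    · have h' : 1 - (p 0 ^ 2 + p 1 ^ 2 + p 2 ^ 2) + 2 * p 0 = |p 3| := h
      exact std_bd _ _ _ _ h'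
    · have h' : 1 - (p 0 ^ 2 + p 1 ^ 2 + p 2 ^ 2) + 2 * p 1 = |p 3| := h
      obtain ⟨q1, q2, q3, q4⟩ := std_bd (p 1) (p 0) (p 2) (p 3) (by linarith)
      exact ⟨q2, q1, q3, q4⟩
    · have h' : 1 - (p 0 ^ 2 + p 1 ^ 2 + p 2 ^ 2) + 2 * p 2 = |p 3| := h
      obtain ⟨q1, q2, q3, q4⟩ := std_bd (p 2) (p 1) (p 0) (p 3) (by linarith)
      exact ⟨q3, q2, q1, q4⟩
  exact G3 (normlt p key.1 key.2.1 key.2.2.1) key.2.2.2

/-- `|p 3| = h_0` -/
theorem m0 (p : Fin 4 → ℝ) : p ∈ VV hStd 0 ↔ 1 - (p 0 ^ 2 + p 1 ^ 2 + p 2 ^ 2) + 2 * p 0 = |p 3| := by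
  show 1 - (p 0 ^ 2 + p 1 ^ 2 + p 2 ^ 2) + 2 * p 0 - |p 3| = 0 ↔ _
  exact sub_eq_zero
theorem m1 (p : Fin 4 → ℝ) : p ∈ VV hStd 1 ↔ 1 - (p 0 ^ 2 + p 1 ^ 2 + p 2 ^ 2) + 2 * p 1 = |p 3| := by
  show 1 - (p 0 ^ 2 + p 1 ^ 2 + p 2 ^ 2) + 2 * p 1 - |p 3| = 0 ↔ _
  exact sub_eq_zero
theorem m2 (p : Fin 4 → ℝ) : p ∈ VV hStd 2 ↔ 1 - (p 0 ^ 2 + p 1 ^ 2 + p 2 ^ 2) + 2 * p 2 = |p 3| := by
  show 1 - (p 0 ^ 2 + p 1 ^ 2 + p 2 ^ 2) + 2 * p 2 - |p 3| = 0 ↔ _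
  exact sub_eq_zero
theorem m3 (i : Fin 3) (p : Fin 4 → ℝ) (h : p ∈ VV hStd i.castSucc) : p ∈ VV hStd 3 ↔ p 3 = 0 := by
  apply stdG3 i
  fin_cases i
  · exact (m0 p).1 h
  · exact (m1 p).1 h
  · exact (m2 p).1 h

/-- concavity of the function for pairs -/
theorem gp (g : (Fin 3 → ℝ) → ℝ) (hg : g = fun x => 1 - 2 * x 0 ^ 2 - x 1 ^ 2 + 2 * x 0 - |x 2|) :
    Continuous g ∧ ConcaveOn ℝ univ g ∧ IsBounded {x | 0 ≤ g x} ∧ ∃ x, 0 < g x := by
  subst hg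
  refine ⟨by fun_prop, ⟨convex_univ, ?_⟩, ?_, ⟨fun _ => 0, by norm_num⟩⟩
  · intro x _ y _ a b ha hb hab
    simp only [smul_eq_mul, Pi.add_apply, Pi.smul_apply]
    have e0 := sqc a b (x 0) (y 0) ha hb hab
    have e1 := sqc a b (x 1) (y 1) ha hb hab
    have e2 := absc a b (x 2) (y 2) ha hb
    linarith
  · apply bddc
    intro x hx i
    have hs := abs_nonneg (x 2)
    have key : -4 ≤ x 0 ∧ x 0 ≤ 4 ∧ -4 ≤ x 1 ∧ x 1 ≤ 4 ∧ |x 2| ≤ 4 := by
      refine ⟨?_, ?_, ?_, ?_, ?_⟩ <;>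
        nlinarith [sq_nonneg (x 0 - 1), sq_nonneg (x 1), sq_nonneg (x 0)]
    fin_cases i
    · exact ⟨key.1, key.2.1⟩
    · exact ⟨key.2.2.1, key.2.2.2.1⟩
    · exact abs_le.1 key.2.2.2.2

/-- concavity of the functions `hStd i` -/
theorem gh (i : Fin 3) :
    Continuous (hStd i) ∧ ConcaveOn ℝ univ (hStd i) ∧ IsBounded {x | 0 ≤ hStd i x} ∧
      ∃ x, 0 < hStd i x := by
  have hg : hStd i = fun x => 1 - (x 0 ^ 2 + x 1 ^ 2 + x 2 ^ 2) + 2 * x i := rfl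
  rw [hg]
  refine ⟨by fun_prop, ⟨convex_univ, ?_⟩, ?_, ⟨fun _ => 0, by norm_num⟩⟩
  · intro x _ y _ a b ha hb hab
    simp only [smul_eq_mul, Pi.add_apply, Pi.smul_apply]
    have e0 := sqc a b (x 0) (y 0) ha hb hab
    have e1 := sqc a b (x 1) (y 1) ha hb hab
    have e2 := sqc a b (x 2) (y 2) ha hb hab
    linarith
  · apply bddc
    intro x hx j
    have hx' : 0 ≤ 1 - (x 0 ^ 2 + x 1 ^ 2 + x 2 ^ 2) + 2 * x i := hx
    have key : (-4 ≤ x 0 ∧ x 0 ≤ 4) ∧ (-4 ≤ x 1 ∧ x 1 ≤ 4) ∧ (-4 ≤ x 2 ∧ x 2 ≤ 4) := by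
      fin_cases i <;> simp only [Fin.zero_eta, Fin.mk_one, Fin.reduceFinMk, Fin.isValue] at hx' <;>
      refine ⟨⟨?_, ?_⟩, ⟨?_, ?_⟩, ?_, ?_⟩ <;>
        nlinarith [sq_nonneg (x 0 - 1), sq_nonneg (x 1 - 1), sq_nonneg (x 2 - 1),
          sq_nonneg (x 0), sq_nonneg (x 1), sq_nonneg (x 2)]
    fin_cases j
    · exact key.1
    · exact key.2.1
    · exact key.2.2

theorem gt (g : (Fin 2 → ℝ) → ℝ) (hg : g = fun x => 1 - 3 * x 0 ^ 2 + 2 * x 0 - |x 1|) :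
    Continuous g ∧ ConcaveOn ℝ univ g ∧ IsBounded {x | 0 ≤ g x} ∧ ∃ x, 0 < g x := by
  subst hg
  refine ⟨by fun_prop, ⟨convex_univ, ?_⟩, ?_, ⟨fun _ => 0, by norm_num⟩⟩
  · intro x _ y _ a b ha hb hab
    simp only [smul_eq_mul, Pi.add_apply, Pi.smul_apply]
    have e0 := sqc a b (x 0) (y 0) ha hb hab
    have e2 := absc a b (x 1) (y 1) ha hb
    linarith
  · apply bddc
    intro x hx i
    have hs := abs_nonneg (x 1)
    have key : -4 ≤ x 0 ∧ x 0 ≤ 4 ∧ |x 1| ≤ 4 := by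
      refine ⟨?_, ?_, ?_⟩ <;>
        nlinarith [sq_nonneg (x 0 - 1), sq_nonneg (x 0)]
    fin_cases i
    · exact ⟨key.1, key.2.1⟩
    · exact abs_le.1 key.2.2

theorem gu (g : (Fin 2 → ℝ) → ℝ) (hg : g = fun x => 1 - 2 * x 0 ^ 2 - x 1 ^ 2 + 2 * x 0) :
    Continuous g ∧ ConcaveOn ℝ univ g ∧ IsBounded {x | 0 ≤ g x} ∧ ∃ x, 0 < g x := by
  subst hg
  refine ⟨by fun_prop, ⟨convex_univ, ?_⟩, ?_, ⟨fun _ => 0, by norm_num⟩⟩
  · intro x _ y _ a b ha hb hab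
    simp only [smul_eq_mul, Pi.add_apply, Pi.smul_apply]
    have e0 := sqc a b (x 0) (y 0) ha hb hab
    have e2 := sqc a b (x 1) (y 1) ha hb hab
    linarith
  · apply bddc
    intro x hx i
    have key : (-4 ≤ x 0 ∧ x 0 ≤ 4) ∧ (-4 ≤ x 1 ∧ x 1 ≤ 4) := by
      refine ⟨⟨?_, ?_⟩, ?_, ?_⟩ <;>
        nlinarith [sq_nonneg (x 0 - 1), sq_nonneg (x 0), sq_nonneg (x 1)]
    fin_cases i
    · exact key.1
    · exact key.2

theorem gv (g : (Fin 1 → ℝ) → ℝ) (hg : g = fun x => 1 - 3 * x 0 ^ 2 + 2 * x 0) :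
    Continuous g ∧ ConcaveOn ℝ univ g ∧ IsBounded {x | 0 ≤ g x} ∧ ∃ x, 0 < g x := by
  subst hg
  refine ⟨by fun_prop, ⟨convex_univ, ?_⟩, ?_, ⟨fun _ => 0, by norm_num⟩⟩
  · intro x _ y _ a b ha hb hab
    simp only [smul_eq_mul, Pi.add_apply, Pi.smul_apply]
    have e0 := sqc a b (x 0) (y 0) ha hb hab
    linarith
  · apply bddc
    intro x hx i
    have key : -4 ≤ x 0 ∧ x 0 ≤ 4 := by
      refine ⟨?_, ?_⟩ <;>
        nlinarith [sq_nonneg (x 0 - 1), sq_nonneg (x 0)]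
    fin_cases i
    exact key

theorem vec4 (p : Fin 4 → ℝ) (a b c d : ℝ) :
    (![a, b, c, d] : Fin 4 → ℝ) = p ↔ a = p 0 ∧ b = p 1 ∧ c = p 2 ∧ d = p 3 := by
  constructor
  · rintro rfl
    exact ⟨rfl, rfl, rfl, rfl⟩
  · rintro ⟨rfl, rfl, rfl, rfl⟩
    ext i; fin_cases i <;> rfl

theorem cv4 {X : Type*} [TopologicalSpace X] {a b c d : X → ℝ} (ha : Continuous a)
    (hb : Continuous b) (hc : Continuous c) (hd : Continuous d) :
    Continuous fun x => (![a x, b x, c x, d x] : Fin 4 → ℝ) := by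
  apply continuous_pi
  intro i; fin_cases i <;> assumption

theorem cv3 {X : Type*} [TopologicalSpace X] {a b c : X → ℝ} (ha : Continuous a)
    (hb : Continuous b) (hc : Continuous c) :
    Continuous fun x => (![a x, b x, c x] : Fin 3 → ℝ) := by
  apply continuous_pi
  intro i; fin_cases i <;> assumption

theorem cv2 {X : Type*} [TopologicalSpace X] {a b : X → ℝ} (ha : Continuous a)
    (hb : Continuous b) : Continuous fun x => (![a x, b x] : Fin 2 → ℝ) := by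
  apply continuous_pi
  intro i; fin_cases i <;> assumption

theorem cv1 {X : Type*} [TopologicalSpace X] {a : X → ℝ} (ha : Continuous a) :
    Continuous fun x => (![a x] : Fin 1 → ℝ) := by
  apply continuous_pi
  intro i; fin_cases i; assumption

theorem e3 (x : Fin 3 → ℝ) : (![x 0, x 1, x 2] : Fin 3 → ℝ) = x := by
  ext i; fin_cases i <;> rfl
theorem e2 (x : Fin 2 → ℝ) : (![x 0, x 1] : Fin 2 → ℝ) = x := by
  ext i; fin_cases i <;> rfl
theorem e1 (x : Fin 1 → ℝ) : (![x 0] : Fin 1 → ℝ) = x := by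
  ext i; fin_cases i; rfl

theorem main (s04 : S04) : S12 := by
  intro K hK
  have cc : ∀ {n : ℕ} (i : Fin n), Continuous fun x : Fin n → ℝ => x i := fun i => continuous_apply i
  rcases cases4 K hK with rfl | rfl | rfl | rfl | rfl | rfl | rfl | rfl | rfl | rfl | rfl
  · -- {0,1}
    have e : (⋂ i ∈ ({0, 1} : Finset (Fin 4)), VV hStd i) = VV hStd 0 ∩ VV hStd 1 := by simp
    rw [e]
    obtain ⟨g1, g2, g3, g4⟩ := gp _ rfl
    refine single (one (k := 2) s04 g1 g2 g3 g4 (fun x => ![x 0, x 0, x 1, x 2])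
      (fun p => ![p 0, p 2, p 3]) (cv4 (cc _) (cc _) (cc _) (cc _)) (cv3 (cc _) (cc _) (cc _))
      (fun x => e3 x) ?_)
    intro p
    rw [mem_inter_iff, m0, m1, vec4]
    simp only [Matrix.cons_val_zero, Matrix.cons_val_one, Matrix.cons_val]
    constructor
    · rintro ⟨h1, h2⟩
      have : p 0 = p 1 := by linarith
      refine ⟨⟨trivial, this, trivial, trivial⟩, ?_⟩
      rw [← this] at h1
      linarith
    · rintro ⟨⟨-, h, -, -⟩, h2⟩
      rw [← h]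
      constructor <;> linarith
  · -- {0,2}
    have e : (⋂ i ∈ ({0, 2} : Finset (Fin 4)), VV hStd i) = VV hStd 0 ∩ VV hStd 2 := by simp
    rw [e]
    obtain ⟨g1, g2, g3, g4⟩ := gp _ rfl
    refine single (one (k := 2) s04 g1 g2 g3 g4 (fun x => ![x 0, x 1, x 0, x 2])
      (fun p => ![p 0, p 1, p 3]) (cv4 (cc _) (cc _) (cc _) (cc _)) (cv3 (cc _) (cc _) (cc _))
      (fun x => e3 x) ?_)
    intro p
    rw [mem_inter_iff, m0, m2, vec4]
    simp only [Matrix.cons_val_zero, Matrix.cons_val_one, Matrix.cons_val]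
    constructor
    · rintro ⟨h1, h2⟩
      have : p 0 = p 2 := by linarith
      refine ⟨⟨trivial, trivial, this, trivial⟩, ?_⟩
      rw [← this] at h1
      linarith
    · rintro ⟨⟨-, -, h, -⟩, h2⟩
      rw [← h]
      constructor <;> linarith
  · -- {1,2}
    have e : (⋂ i ∈ ({1, 2} : Finset (Fin 4)), VV hStd i) = VV hStd 1 ∩ VV hStd 2 := by simp
    rw [e]
    obtain ⟨g1, g2, g3, g4⟩ := gp _ rfl
    refine single (one (k := 2) s04 g1 g2 g3 g4 (fun x => ![x 1, x 0, x 0, x 2])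
      (fun p => ![p 1, p 0, p 3]) (cv4 (cc _) (cc _) (cc _) (cc _)) (cv3 (cc _) (cc _) (cc _))
      (fun x => e3 x) ?_)
    intro p
    rw [mem_inter_iff, m1, m2, vec4]
    simp only [Matrix.cons_val_zero, Matrix.cons_val_one, Matrix.cons_val]
    constructor
    · rintro ⟨h1, h2⟩
      have : p 1 = p 2 := by linarith
      refine ⟨⟨trivial, trivial, this, trivial⟩, ?_⟩
      rw [← this] at h1
      linarith
    · rintro ⟨⟨-, -, h, -⟩, h2⟩
      rw [← h]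
      constructor <;> linarith
  · -- {0,3}
    have e : (⋂ i ∈ ({0, 3} : Finset (Fin 4)), VV hStd i) = VV hStd 0 ∩ VV hStd 3 := by simp
    rw [e]
    obtain ⟨g1, g2, g3, g4⟩ := gh 0
    refine single (one (k := 2) s04 g1 g2 g3 g4 (fun x => ![x 0, x 1, x 2, 0])
      (fun p => ![p 0, p 1, p 2]) (cv4 (cc _) (cc _) (cc _) continuous_const)
      (cv3 (cc _) (cc _) (cc _)) (fun x => e3 x) ?_)
    intro p
    rw [mem_inter_iff, vec4]
    simp only [Matrix.cons_val_zero, Matrix.cons_val_one, Matrix.cons_val]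
    constructor
    · rintro ⟨h1, h2⟩
      have h3 := (m3 0 p h1).1 h2
      rw [m0, h3, abs_zero] at h1
      exact ⟨⟨trivial, trivial, trivial, h3.symm⟩, h1⟩
    · rintro ⟨⟨-, -, -, h3⟩, h2⟩
      have h1 : p ∈ VV hStd 0 := by rw [m0, ← h3, abs_zero]; exact h2
      exact ⟨h1, (m3 0 p h1).2 h3.symm⟩
  · -- {1,3}
    have e : (⋂ i ∈ ({1, 3} : Finset (Fin 4)), VV hStd i) = VV hStd 1 ∩ VV hStd 3 := by simp
    rw [e]
    obtain ⟨g1, g2, g3, g4⟩ := gh 1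
    refine single (one (k := 2) s04 g1 g2 g3 g4 (fun x => ![x 0, x 1, x 2, 0])
      (fun p => ![p 0, p 1, p 2]) (cv4 (cc _) (cc _) (cc _) continuous_const)
      (cv3 (cc _) (cc _) (cc _)) (fun x => e3 x) ?_)
    intro p
    rw [mem_inter_iff, vec4]
    simp only [Matrix.cons_val_zero, Matrix.cons_val_one, Matrix.cons_val]
    constructor
    · rintro ⟨h1, h2⟩
      have h3 := (m3 1 p h1).1 h2
      rw [m1, h3, abs_zero] at h1
      exact ⟨⟨trivial, trivial, trivial, h3.symm⟩, h1⟩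
    · rintro ⟨⟨-, -, -, h3⟩, h2⟩
      have h1 : p ∈ VV hStd 1 := by rw [m1, ← h3, abs_zero]; exact h2
      exact ⟨h1, (m3 1 p h1).2 h3.symm⟩
  · -- {2,3}
    have e : (⋂ i ∈ ({2, 3} : Finset (Fin 4)), VV hStd i) = VV hStd 2 ∩ VV hStd 3 := by simp
    rw [e]
    obtain ⟨g1, g2, g3, g4⟩ := gh 2
    refine single (one (k := 2) s04 g1 g2 g3 g4 (fun x => ![x 0, x 1, x 2, 0])
      (fun p => ![p 0, p 1, p 2]) (cv4 (cc _) (cc _) (cc _) continuous_const)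
      (cv3 (cc _) (cc _) (cc _)) (fun x => e3 x) ?_)
    intro p
    rw [mem_inter_iff, vec4]
    simp only [Matrix.cons_val_zero, Matrix.cons_val_one, Matrix.cons_val]
    constructor
    · rintro ⟨h1, h2⟩
      have h3 := (m3 2 p h1).1 h2
      rw [m2, h3, abs_zero] at h1
      exact ⟨⟨trivial, trivial, trivial, h3.symm⟩, h1⟩
    · rintro ⟨⟨-, -, -, h3⟩, h2⟩
      have h1 : p ∈ VV hStd 2 := by rw [m2, ← h3, abs_zero]; exact h2
      exact ⟨h1, (m3 2 p h1).2 h3.symm⟩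
  · -- {0,1,2}
    have e : (⋂ i ∈ ({0, 1, 2} : Finset (Fin 4)), VV hStd i) = VV hStd 0 ∩ (VV hStd 1 ∩ VV hStd 2) := by
      simp
    rw [e]
    obtain ⟨g1, g2, g3, g4⟩ := gt _ rfl
    refine single (one (k := 1) s04 g1 g2 g3 g4 (fun x => ![x 0, x 0, x 0, x 1])
      (fun p => ![p 0, p 3]) (cv4 (cc _) (cc _) (cc _) (cc _)) (cv2 (cc _) (cc _))
      (fun x => e2 x) ?_)
    intro p
    rw [mem_inter_iff, mem_inter_iff, m0, m1, m2, vec4]
    simp only [Matrix.cons_val_zero, Matrix.cons_val_one, Matrix.cons_val]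
    constructor
    · rintro ⟨h1, h2, h3⟩
      have q1 : p 0 = p 1 := by linarith
      have q2 : p 0 = p 2 := by linarith
      refine ⟨⟨trivial, q1, q2, trivial⟩, ?_⟩
      rw [← q1, ← q2] at h1
      linarith
    · rintro ⟨⟨-, h, h', -⟩, h2⟩
      rw [← h, ← h']
      refine ⟨?_, ?_, ?_⟩ <;> linarith
  · -- {0,1,3}
    have e : (⋂ i ∈ ({0, 1, 3} : Finset (Fin 4)), VV hStd i) = VV hStd 0 ∩ (VV hStd 1 ∩ VV hStd 3) := by
      simp
    rw [e]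
    obtain ⟨g1, g2, g3, g4⟩ := gu _ rfl
    refine single (one (k := 1) s04 g1 g2 g3 g4 (fun x => ![x 0, x 0, x 1, 0])
      (fun p => ![p 0, p 2]) (cv4 (cc _) (cc _) (cc _) continuous_const) (cv2 (cc _) (cc _))
      (fun x => e2 x) ?_)
    intro p
    rw [mem_inter_iff, mem_inter_iff, vec4]
    simp only [Matrix.cons_val_zero, Matrix.cons_val_one, Matrix.cons_val]
    constructor
    · rintro ⟨h1, h2, h3⟩
      have h4 := (m3 0 p h1).1 h3
      rw [m0] at h1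
      rw [m1] at h2
      have q1 : p 0 = p 1 := by linarith
      refine ⟨⟨trivial, q1, trivial, h4.symm⟩, ?_⟩
      rw [← q1, h4, abs_zero] at h1
      linarith
    · rintro ⟨⟨-, h, -, h'⟩, h2⟩
      have q0 : p ∈ VV hStd 0 := by rw [m0, ← h', ← h, abs_zero]; linarith
      refine ⟨q0, ?_, (m3 0 p q0).2 h'.symm⟩
      rw [m1, ← h', ← h, abs_zero]; linarith
  · -- {0,2,3}
    have e : (⋂ i ∈ ({0, 2, 3} : Finset (Fin 4)), VV hStd i) = VV hStd 0 ∩ (VV hStd 2 ∩ VV hStd 3) := by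
      simp
    rw [e]
    obtain ⟨g1, g2, g3, g4⟩ := gu _ rfl
    refine single (one (k := 1) s04 g1 g2 g3 g4 (fun x => ![x 0, x 1, x 0, 0])
      (fun p => ![p 0, p 1]) (cv4 (cc _) (cc _) (cc _) continuous_const) (cv2 (cc _) (cc _))
      (fun x => e2 x) ?_)
    intro p
    rw [mem_inter_iff, mem_inter_iff, vec4]
    simp only [Matrix.cons_val_zero, Matrix.cons_val_one, Matrix.cons_val]
    constructor
    · rintro ⟨h1, h2, h3⟩
      have h4 := (m3 0 p h1).1 h3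
      rw [m0] at h1
      rw [m2] at h2
      have q1 : p 0 = p 2 := by linarith
      refine ⟨⟨trivial, trivial, q1, h4.symm⟩, ?_⟩
      rw [← q1, h4, abs_zero] at h1
      linarith
    · rintro ⟨⟨-, -, h, h'⟩, h2⟩
      have q0 : p ∈ VV hStd 0 := by rw [m0, ← h', ← h, abs_zero]; linarith
      refine ⟨q0, ?_, (m3 0 p q0).2 h'.symm⟩
      rw [m2, ← h', ← h, abs_zero]; linarith
  · -- {1,2,3}
    have e : (⋂ i ∈ ({1, 2, 3} : Finset (Fin 4)), VV hStd i) = VV hStd 1 ∩ (VV hStd 2 ∩ VV hStd 3) := by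
      simp
    rw [e]
    obtain ⟨g1, g2, g3, g4⟩ := gu _ rfl
    refine single (one (k := 1) s04 g1 g2 g3 g4 (fun x => ![x 1, x 0, x 0, 0])
      (fun p => ![p 1, p 0]) (cv4 (cc _) (cc _) (cc _) continuous_const) (cv2 (cc _) (cc _))
      (fun x => e2 x) ?_)
    intro p
    rw [mem_inter_iff, mem_inter_iff, vec4]
    simp only [Matrix.cons_val_zero, Matrix.cons_val_one, Matrix.cons_val]
    constructor
    · rintro ⟨h1, h2, h3⟩
      have h4 := (m3 1 p h1).1 h3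
      rw [m1] at h1
      rw [m2] at h2
      have q1 : p 1 = p 2 := by linarith
      refine ⟨⟨trivial, trivial, q1, h4.symm⟩, ?_⟩
      rw [← q1, h4, abs_zero] at h1
      linarith
    · rintro ⟨⟨-, -, h, h'⟩, h2⟩
      have q0 : p ∈ VV hStd 1 := by rw [m1, ← h', ← h, abs_zero]; linarith
      refine ⟨q0, ?_, (m3 1 p q0).2 h'.symm⟩
      rw [m2, ← h', ← h, abs_zero]; linarith
  · -- all
    have e : (⋂ i ∈ ({0, 1, 2, 3} : Finset (Fin 4)), VV hStd i) =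
        VV hStd 0 ∩ (VV hStd 1 ∩ (VV hStd 2 ∩ VV hStd 3)) := by
      simp
    rw [e]
    obtain ⟨g1, g2, g3, g4⟩ := gv _ rfl
    refine single (one (k := 0) s04 g1 g2 g3 g4 (fun x => ![x 0, x 0, x 0, 0])
      (fun p => ![p 0]) (cv4 (cc _) (cc _) (cc _) continuous_const) (cv1 (cc _))
      (fun x => e1 x) ?_)
    intro p
    rw [mem_inter_iff, mem_inter_iff, mem_inter_iff, vec4]
    simp only [Matrix.cons_val_zero, Matrix.cons_val_one, Matrix.cons_val]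
    constructor
    · rintro ⟨h0, h1, h2, h3⟩
      have h4 := (m3 0 p h0).1 h3
      rw [m0] at h0
      rw [m1] at h1
      rw [m2] at h2
      have q1 : p 0 = p 1 := by linarith
      have q2 : p 0 = p 2 := by linarith
      refine ⟨⟨trivial, q1, q2, h4.symm⟩, ?_⟩
      rw [← q1, ← q2, h4, abs_zero] at h0
      linarith
    · rintro ⟨⟨-, h, h'', h'⟩, h2⟩
      have q0 : p ∈ VV hStd 0 := by rw [m0, ← h', ← h, ← h'', abs_zero]; linarith
      refine ⟨q0, ?_, ?_, (m3 0 p q0).2 h'.symm⟩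
      · rw [m1, ← h', ← h, ← h'', abs_zero]; linarith
      · rw [m2, ← h', ← h, ← h'', abs_zero]; linarith

end R415VN.P12
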