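import Pool.Agent.R415.VN.P12

namespace R415VN.P13
open Set Bornology
open R415VN.P12 (one single double cases4 sqc absc bddc G3 normlt vec4 cv4 cv3 cv2 e3 e2)

/-! ### membership -/

theorem m0 (p : Fin 4 → ℝ) :
    p ∈ VV hSpun 0 ↔ 13 / 16 - p 0 ^ 2 / 4 - (p 1 ^ 2 + p 2 ^ 2) = |p 3| := by
  show 13 / 16 - p 0 ^ 2 / 4 - (p 1 ^ 2 + p 2 ^ 2) - |p 3| = 0 ↔ _
  exact sub_eq_zero
theorem m1 (p : Fin 4 → ℝ) :
    p ∈ VV hSpun 1 ↔ 1 - p 0 ^ 2 - (p 1 ^ 2 + p 2 ^ 2) = |p 3| := by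
  show 1 - p 0 ^ 2 - (p 1 ^ 2 + p 2 ^ 2) - |p 3| = 0 ↔ _
  exact sub_eq_zero
theorem m2 (p : Fin 4 → ℝ) :
    p ∈ VV hSpun 2 ↔ 1 - p 0 ^ 2 - 9 / 5 * p 0 - (p 1 ^ 2 + p 2 ^ 2) = |p 3| := by
  show 1 - p 0 ^ 2 - 9 / 5 * p 0 - (p 1 ^ 2 + p 2 ^ 2) - |p 3| = 0 ↔ _
  exact sub_eq_zero

theorem m3 (i : Fin 3) (p : Fin 4 → ℝ) (h : p ∈ VV hSpun i.castSucc) :
    p ∈ VV hSpun 3 ↔ p 3 = 0 := by
  have key : |p 0| < 4 ∧ |p 1| < 4 ∧ |p 2| < 4 ∧ |p 3| < 4 := by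
    have hs := abs_nonneg (p 3)
    fin_cases i
    · have h' := (m0 p).1 h
      refine ⟨?_, ?_, ?_, ?_⟩
      · rw [abs_lt]; constructor <;> nlinarith [sq_nonneg (p 1), sq_nonneg (p 2)]
      · rw [abs_lt]; constructor <;> nlinarith [sq_nonneg (p 0), sq_nonneg (p 2)]
      · rw [abs_lt]; constructor <;> nlinarith [sq_nonneg (p 1), sq_nonneg (p 0)]
      · nlinarith [sq_nonneg (p 0), sq_nonneg (p 1), sq_nonneg (p 2)]
    · have h' := (m1 p).1 h
      refine ⟨?_, ?_, ?_, ?_⟩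
      · rw [abs_lt]; constructor <;> nlinarith [sq_nonneg (p 1), sq_nonneg (p 2)]
      · rw [abs_lt]; constructor <;> nlinarith [sq_nonneg (p 0), sq_nonneg (p 2)]
      · rw [abs_lt]; constructor <;> nlinarith [sq_nonneg (p 1), sq_nonneg (p 0)]
      · nlinarith [sq_nonneg (p 0), sq_nonneg (p 1), sq_nonneg (p 2)]
    · have h' := (m2 p).1 h
      refine ⟨?_, ?_, ?_, ?_⟩
      · rw [abs_lt]; constructor <;> nlinarith [sq_nonneg (p 1), sq_nonneg (p 2)]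
      · rw [abs_lt]; constructor <;> nlinarith [sq_nonneg (p 0 + 9 / 10), sq_nonneg (p 2)]
      · rw [abs_lt]; constructor <;> nlinarith [sq_nonneg (p 1), sq_nonneg (p 0 + 9 / 10)]
      · nlinarith [sq_nonneg (p 0 + 9 / 10), sq_nonneg (p 1), sq_nonneg (p 2)]
  exact G3 (normlt p key.1 key.2.1 key.2.2.1) key.2.2.2

/-! ### the concave functions -/

/-- `c - y² - z² - |s|` -/
theorem gp (c : ℝ) (hc : 0 < c) (hc' : c ≤ 4) (g : (Fin 3 → ℝ) → ℝ)
    (hg : g = fun x => c - (x 0 ^ 2 + x 1 ^ 2) - |x 2|) :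
    Continuous g ∧ ConcaveOn ℝ univ g ∧ IsBounded {x | 0 ≤ g x} ∧ ∃ x, 0 < g x := by
  subst hg
  refine ⟨by fun_prop, ⟨convex_univ, ?_⟩, ?_, ⟨fun _ => 0, by simpa using hc⟩⟩
  · intro x _ y _ a b ha hb hab
    simp only [smul_eq_mul, Pi.add_apply, Pi.smul_apply]
    have e0 := sqc a b (x 0) (y 0) ha hb hab
    have e1 := sqc a b (x 1) (y 1) ha hb hab
    have e2 := absc a b (x 2) (y 2) ha hb
    have e3 : a * c + b * c = c := by rw [← add_mul, hab, one_mul]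
    linarith
  · apply bddc
    intro x hx i
    have hx' : 0 ≤ c - (x 0 ^ 2 + x 1 ^ 2) - |x 2| := hx
    have hs := abs_nonneg (x 2)
    have key : -4 ≤ x 0 ∧ x 0 ≤ 4 ∧ -4 ≤ x 1 ∧ x 1 ≤ 4 ∧ |x 2| ≤ 4 := by
      refine ⟨?_, ?_, ?_, ?_, ?_⟩ <;>
        nlinarith [sq_nonneg (x 1), sq_nonneg (x 0)]
    fin_cases i
    · exact ⟨key.1, key.2.1⟩
    · exact ⟨key.2.2.1, key.2.2.2.1⟩
    · exact abs_le.1 key.2.2.2.2

/-- `c - y² - z²` -/
theorem gu (c : ℝ) (hc : 0 < c) (hc' : c ≤ 4) (g : (Fin 2 → ℝ) → ℝ)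
    (hg : g = fun x => c - (x 0 ^ 2 + x 1 ^ 2)) :
    Continuous g ∧ ConcaveOn ℝ univ g ∧ IsBounded {x | 0 ≤ g x} ∧ ∃ x, 0 < g x := by
  subst hg
  refine ⟨by fun_prop, ⟨convex_univ, ?_⟩, ?_, ⟨fun _ => 0, by simpa using hc⟩⟩
  · intro x _ y _ a b ha hb hab
    simp only [smul_eq_mul, Pi.add_apply, Pi.smul_apply]
    have e0 := sqc a b (x 0) (y 0) ha hb hab
    have e1 := sqc a b (x 1) (y 1) ha hb hab
    have e3 : a * c + b * c = c := by rw [← add_mul, hab, one_mul]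
    linarith
  · apply bddc
    intro x hx i
    have hx' : 0 ≤ c - (x 0 ^ 2 + x 1 ^ 2) := hx
    have key : -4 ≤ x 0 ∧ x 0 ≤ 4 ∧ -4 ≤ x 1 ∧ x 1 ≤ 4 := by
      refine ⟨?_, ?_, ?_, ?_⟩ <;>
        nlinarith [sq_nonneg (x 1), sq_nonneg (x 0)]
    fin_cases i
    · exact ⟨key.1, key.2.1⟩
    · exact ⟨key.2.2.1, key.2.2.2⟩

/-- `c - α u² - β u - y² - z²` -/
theorem gq (c α β : ℝ) (hα : 1 / 4 ≤ α) (hα' : α ≤ 1) (hβ : 0 ≤ β) (hβ' : β ≤ 9 / 5 * α)
    (hc : 0 < c) (hc' : c ≤ 1) (g : (Fin 3 → ℝ) → ℝ)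
    (hg : g = fun x => c - α * x 0 ^ 2 - β * x 0 - (x 1 ^ 2 + x 2 ^ 2)) :
    Continuous g ∧ ConcaveOn ℝ univ g ∧ IsBounded {x | 0 ≤ g x} ∧ ∃ x, 0 < g x := by
  subst hg
  refine ⟨by fun_prop, ⟨convex_univ, ?_⟩, ?_, ⟨fun _ => 0, by simpa using hc⟩⟩
  · intro x _ y _ a b ha hb hab
    simp only [smul_eq_mul, Pi.add_apply, Pi.smul_apply]
    have e0 := mul_le_mul_of_nonneg_left (sqc a b (x 0) (y 0) ha hb hab)
      (by linarith : (0:ℝ) ≤ α)
    have e1 := sqc a b (x 1) (y 1) ha hb hab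
    have e2 := sqc a b (x 2) (y 2) ha hb hab
    have e3 : a * c + b * c = c := by rw [← add_mul, hab, one_mul]
    nlinarith
  · apply bddc
    intro x hx i
    have hx' : 0 ≤ c - α * x 0 ^ 2 - β * x 0 - (x 1 ^ 2 + x 2 ^ 2) := hx
    have h0 : α * x 0 ^ 2 + β * x 0 ≤ c := by nlinarith [sq_nonneg (x 1), sq_nonneg (x 2)]
    have h1 : -1 ≤ α * x 0 ^ 2 + β * x 0 := by
      rcases le_total 0 (x 0) with h | h
      · nlinarith [sq_nonneg (x 0), mul_nonneg hβ h]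
      · nlinarith [sq_nonneg (x 0 + 9 / 10), mul_nonneg (sub_nonneg.2 hβ') (neg_nonneg.2 h)]
    have k0 : -4 ≤ x 0 := by
      by_contra hcon
      push Not at hcon
      have t1 := mul_nonneg (sub_nonneg.2 hβ') (by linarith : (0:ℝ) ≤ - x 0)
      have t2 : (8 : ℝ) ≤ x 0 ^ 2 + 9 / 5 * x 0 := by nlinarith
      have t3 := mul_nonneg (sub_nonneg.2 hα) (sub_nonneg.2 t2)
      nlinarith
    have k1 : x 0 ≤ 4 := by
      by_contra hcon
      push Not at hcon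
      nlinarith [mul_nonneg hβ (by linarith : (0:ℝ) ≤ x 0)]
    have key : -4 ≤ x 1 ∧ x 1 ≤ 4 ∧ -4 ≤ x 2 ∧ x 2 ≤ 4 := by
      refine ⟨?_, ?_, ?_, ?_⟩ <;>
        nlinarith [sq_nonneg (x 1), sq_nonneg (x 2)]
    fin_cases i
    · exact ⟨k0, k1⟩
    · exact ⟨key.1, key.2.1⟩
    · exact ⟨key.2.2.1, key.2.2.2⟩

theorem e23 (x : Fin 2 → ℝ) : (![x 0, x 1] : Fin 2 → ℝ) = x := e2 x

/-- the spheres `u = c, d - y² - z² - |s| = 0` -/
theorem sph (s04 : S04) (c d : ℝ) (hd : 0 < d) (hd' : d ≤ 4) :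
    IsTopSphere 2 {p : Fin 4 → ℝ | p 0 = c ∧ d - (p 1 ^ 2 + p 2 ^ 2) - |p 3| = 0} := by
  obtain ⟨g1, g2, g3, g4⟩ := gp d hd hd' _ rfl
  refine one (k := 2) s04 g1 g2 g3 g4 (fun x => ![c, x 0, x 1, x 2])
      (fun p => ![p 1, p 2, p 3]) (cv4 continuous_const (continuous_apply _) (continuous_apply _)
      (continuous_apply _)) (cv3 (continuous_apply _) (continuous_apply _) (continuous_apply _))
      (fun x => e3 x) ?_
  intro p
  rw [vec4]
  simp only [mem_ofPred_eq, Matrix.cons_val_zero, Matrix.cons_val_one, Matrix.cons_val]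
  constructor
  · rintro ⟨h1, h2⟩
    exact ⟨⟨h1.symm, trivial, trivial, trivial⟩, h2⟩
  · rintro ⟨⟨h1, -⟩, h2⟩
    exact ⟨h1.symm, h2⟩

/-- the circles `u = c, s = 0, d - y² - z² = 0` -/
theorem cir (s04 : S04) (c d : ℝ) (hd : 0 < d) (hd' : d ≤ 4) :
    IsTopSphere 1 {p : Fin 4 → ℝ | p 0 = c ∧ p 3 = 0 ∧ d - (p 1 ^ 2 + p 2 ^ 2) = 0} := by
  obtain ⟨g1, g2, g3, g4⟩ := gu d hd hd' _ rfl
  refine one (k := 1) s04 g1 g2 g3 g4 (fun x => ![c, x 0, x 1, 0])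
      (fun p => ![p 1, p 2]) (cv4 continuous_const (continuous_apply _) (continuous_apply _)
      continuous_const) (cv2 (continuous_apply _) (continuous_apply _))
      (fun x => e2 x) ?_
  intro p
  rw [vec4]
  simp only [mem_ofPred_eq, Matrix.cons_val_zero, Matrix.cons_val_one, Matrix.cons_val]
  constructor
  · rintro ⟨h1, h2, h3⟩
    exact ⟨⟨h1.symm, trivial, trivial, h2.symm⟩, h3⟩
  · rintro ⟨⟨h1, -, -, h2⟩, h3⟩
    exact ⟨h1.symm, h2.symm, h3⟩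

/-- the spheres `s = 0, c - α u² - β u - y² - z² = 0` -/
theorem flo (s04 : S04) (c α β : ℝ) (hα : 1 / 4 ≤ α) (hα' : α ≤ 1) (hβ : 0 ≤ β)
    (hβ' : β ≤ 9 / 5 * α) (hc : 0 < c) (hc' : c ≤ 1) :
    IsTopSphere 2 {p : Fin 4 → ℝ | p 3 = 0 ∧
      c - α * p 0 ^ 2 - β * p 0 - (p 1 ^ 2 + p 2 ^ 2) = 0} := by
  obtain ⟨g1, g2, g3, g4⟩ := gq c α β hα hα' hβ hβ' hc hc' _ rfl
  refine one (k := 2) s04 g1 g2 g3 g4 (fun x => ![x 0, x 1, x 2, 0])
      (fun p => ![p 0, p 1, p 2]) (cv4 (continuous_apply _) (continuous_apply _)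
      (continuous_apply _) continuous_const)
      (cv3 (continuous_apply _) (continuous_apply _) (continuous_apply _))
      (fun x => e3 x) ?_
  intro p
  rw [vec4]
  simp only [mem_ofPred_eq, Matrix.cons_val_zero, Matrix.cons_val_one, Matrix.cons_val]
  constructor
  · rintro ⟨h1, h2⟩
    exact ⟨⟨trivial, trivial, trivial, h1.symm⟩, h2⟩
  · rintro ⟨⟨-, -, -, h1⟩, h2⟩
    exact ⟨h1.symm, h2⟩

theorem ab (p : Fin 4 → ℝ) (h0 : p ∈ VV hSpun 0) (h1 : p ∈ VV hSpun 1) :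
    p 0 = 1 / 2 ∨ p 0 = -(1 / 2) := by
  rw [m0] at h0
  rw [m1] at h1
  have : (p 0 - 1 / 2) * (p 0 + 1 / 2) = 0 := by nlinarith
  rcases mul_eq_zero.1 this with h | h
  · left; linarith
  · right; linarith

theorem ac (p : Fin 4 → ℝ) (h0 : p ∈ VV hSpun 0) (h1 : p ∈ VV hSpun 2) :
    p 0 = 1 / 10 := by
  rw [m0] at h0
  rw [m2] at h1
  have : (p 0 - 1 / 10) * (p 0 + 5 / 2) = 0 := by nlinarith
  rcases mul_eq_zero.1 this with h | h
  · linarith
  · exfalso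
    have h2 : p 0 = -5 / 2 := by linarith
    rw [h2] at h0
    have := abs_nonneg (p 3)
    nlinarith [sq_nonneg (p 1), sq_nonneg (p 2)]

theorem bc (p : Fin 4 → ℝ) (h0 : p ∈ VV hSpun 1) (h1 : p ∈ VV hSpun 2) :
    p 0 = 0 := by
  rw [m1] at h0
  rw [m2] at h1
  linarith

theorem main (s04 : S04) : S13 := by
  intro K hK
  rcases cases4 K hK with rfl | rfl | rfl | rfl | rfl | rfl | rfl | rfl | rfl | rfl | rfl
  · -- {0,1}
    have e : (⋂ i ∈ ({0, 1} : Finset (Fin 4)), VV hSpun i) = VV hSpun 0 ∩ VV hSpun 1 := by simp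
    rw [e]
    refine double (sph s04 (1 / 2) (3 / 4) (by norm_num) (by norm_num))
      (sph s04 (-(1 / 2)) (3 / 4) (by norm_num) (by norm_num)) ?_
    ext p
    simp only [mem_inter_iff, mem_union, mem_ofPred_eq]
    constructor
    · rintro ⟨h1, h2⟩
      rcases ab p h1 h2 with h | h
      · left
        refine ⟨h, ?_⟩
        rw [m0, h] at h1
        linarith
      · right
        refine ⟨h, ?_⟩
        rw [m0, h] at h1
        linarith
    · rintro (⟨h1, h2⟩ | ⟨h1, h2⟩)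
      · rw [m0, m1, h1]
        constructor <;> linarith
      · rw [m0, m1, h1]
        constructor <;> linarith
  · -- {0,2}
    have e : (⋂ i ∈ ({0, 2} : Finset (Fin 4)), VV hSpun i) = VV hSpun 0 ∩ VV hSpun 2 := by simp
    rw [e]
    have e' : VV hSpun 0 ∩ VV hSpun 2 =
        {p : Fin 4 → ℝ | p 0 = 1 / 10 ∧ 81 / 100 - (p 1 ^ 2 + p 2 ^ 2) - |p 3| = 0} := by
      ext p
      simp only [mem_inter_iff, mem_ofPred_eq]
      constructor
      · rintro ⟨h1, h2⟩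
        have h := ac p h1 h2
        refine ⟨h, ?_⟩
        rw [m0, h] at h1
        linarith
      · rintro ⟨h1, h2⟩
        rw [m0, m2, h1]
        constructor <;> linarith
    rw [e']
    exact single (sph s04 (1 / 10) (81 / 100) (by norm_num) (by norm_num))
  · -- {1,2}
    have e : (⋂ i ∈ ({1, 2} : Finset (Fin 4)), VV hSpun i) = VV hSpun 1 ∩ VV hSpun 2 := by simp
    rw [e]
    have e' : VV hSpun 1 ∩ VV hSpun 2 =
        {p : Fin 4 → ℝ | p 0 = 0 ∧ 1 - (p 1 ^ 2 + p 2 ^ 2) - |p 3| = 0} := by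
      ext p
      simp only [mem_inter_iff, mem_ofPred_eq]
      constructor
      · rintro ⟨h1, h2⟩
        have h := bc p h1 h2
        refine ⟨h, ?_⟩
        rw [m1, h] at h1
        linarith
      · rintro ⟨h1, h2⟩
        rw [m1, m2, h1]
        constructor <;> linarith
    rw [e']
    exact single (sph s04 0 1 (by norm_num) (by norm_num))
  · -- {0,3}
    have e : (⋂ i ∈ ({0, 3} : Finset (Fin 4)), VV hSpun i) = VV hSpun 0 ∩ VV hSpun 3 := by simp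
    rw [e]
    have e' : VV hSpun 0 ∩ VV hSpun 3 = {p : Fin 4 → ℝ | p 3 = 0 ∧
        13 / 16 - 1 / 4 * p 0 ^ 2 - 0 * p 0 - (p 1 ^ 2 + p 2 ^ 2) = 0} := by
      ext p
      simp only [mem_inter_iff, mem_ofPred_eq]
      constructor
      · rintro ⟨h1, h2⟩
        have h := (m3 0 p h1).1 h2
        refine ⟨h, ?_⟩
        rw [m0, h, abs_zero] at h1
        linarith
      · rintro ⟨h1, h2⟩
        have q : p ∈ VV hSpun 0 := by rw [m0, h1, abs_zero]; linarith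
        exact ⟨q, (m3 0 p q).2 h1⟩
    rw [e']
    exact single (flo s04 _ _ _ (by norm_num) (by norm_num) (by norm_num) (by norm_num)
      (by norm_num) (by norm_num))
  · -- {1,3}
    have e : (⋂ i ∈ ({1, 3} : Finset (Fin 4)), VV hSpun i) = VV hSpun 1 ∩ VV hSpun 3 := by simp
    rw [e]
    have e' : VV hSpun 1 ∩ VV hSpun 3 = {p : Fin 4 → ℝ | p 3 = 0 ∧
        1 - 1 * p 0 ^ 2 - 0 * p 0 - (p 1 ^ 2 + p 2 ^ 2) = 0} := by
      ext p
      simp only [mem_inter_iff, mem_ofPred_eq]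
      constructor
      · rintro ⟨h1, h2⟩
        have h := (m3 1 p h1).1 h2
        refine ⟨h, ?_⟩
        rw [m1, h, abs_zero] at h1
        linarith
      · rintro ⟨h1, h2⟩
        have q : p ∈ VV hSpun 1 := by rw [m1, h1, abs_zero]; linarith
        exact ⟨q, (m3 1 p q).2 h1⟩
    rw [e']
    exact single (flo s04 _ _ _ (by norm_num) (by norm_num) (by norm_num) (by norm_num)
      (by norm_num) (by norm_num))
  · -- {2,3}
    have e : (⋂ i ∈ ({2, 3} : Finset (Fin 4)), VV hSpun i) = VV hSpun 2 ∩ VV hSpun 3 := by simp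
    rw [e]
    have e' : VV hSpun 2 ∩ VV hSpun 3 = {p : Fin 4 → ℝ | p 3 = 0 ∧
        1 - 1 * p 0 ^ 2 - 9 / 5 * p 0 - (p 1 ^ 2 + p 2 ^ 2) = 0} := by
      ext p
      simp only [mem_inter_iff, mem_ofPred_eq]
      constructor
      · rintro ⟨h1, h2⟩
        have h := (m3 2 p h1).1 h2
        refine ⟨h, ?_⟩
        rw [m2, h, abs_zero] at h1
        linarith
      · rintro ⟨h1, h2⟩
        have q : p ∈ VV hSpun 2 := by rw [m2, h1, abs_zero]; linarith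
        exact ⟨q, (m3 2 p q).2 h1⟩
    rw [e']
    exact single (flo s04 _ _ _ (by norm_num) (by norm_num) (by norm_num) (by norm_num)
      (by norm_num) (by norm_num))
  · -- {0,1,2}
    have e : (⋂ i ∈ ({0, 1, 2} : Finset (Fin 4)), VV hSpun i) =
      VV hSpun 0 ∩ (VV hSpun 1 ∩ VV hSpun 2) := by simp
    rw [e]
    apply R415VN.P12.none
    rw [eq_empty_iff_forall_notMem]
    rintro p ⟨h1, h2, h3⟩
    have q1 := bc p h2 h3
    rcases ab p h1 h2 with h | h <;> linarith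
  · -- {0,1,3}
    have e : (⋂ i ∈ ({0, 1, 3} : Finset (Fin 4)), VV hSpun i) =
      VV hSpun 0 ∩ (VV hSpun 1 ∩ VV hSpun 3) := by simp
    rw [e]
    refine double (cir s04 (1 / 2) (3 / 4) (by norm_num) (by norm_num))
      (cir s04 (-(1 / 2)) (3 / 4) (by norm_num) (by norm_num)) ?_
    ext p
    simp only [mem_inter_iff, mem_union, mem_ofPred_eq]
    constructor
    · rintro ⟨h1, h2, h3⟩
      have h4 := (m3 0 p h1).1 h3
      rcases ab p h1 h2 with h | h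
      · left
        refine ⟨h, h4, ?_⟩
        rw [m0, h, h4, abs_zero] at h1
        linarith
      · right
        refine ⟨h, h4, ?_⟩
        rw [m0, h, h4, abs_zero] at h1
        linarith
    · rintro (⟨h1, h3, h2⟩ | ⟨h1, h3, h2⟩)
      · have q : p ∈ VV hSpun 0 := by rw [m0, h1, h3, abs_zero]; linarith
        refine ⟨q, ?_, (m3 0 p q).2 h3⟩
        rw [m1, h1, h3, abs_zero]; linarith
      · have q : p ∈ VV hSpun 0 := by rw [m0, h1, h3, abs_zero]; linarith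
        refine ⟨q, ?_, (m3 0 p q).2 h3⟩
        rw [m1, h1, h3, abs_zero]; linarith
  · -- {0,2,3}
    have e : (⋂ i ∈ ({0, 2, 3} : Finset (Fin 4)), VV hSpun i) =
      VV hSpun 0 ∩ (VV hSpun 2 ∩ VV hSpun 3) := by simp
    rw [e]
    have e' : VV hSpun 0 ∩ (VV hSpun 2 ∩ VV hSpun 3) =
        {p : Fin 4 → ℝ | p 0 = 1 / 10 ∧ p 3 = 0 ∧ 81 / 100 - (p 1 ^ 2 + p 2 ^ 2) = 0} := by
      ext p
      simp only [mem_inter_iff, mem_ofPred_eq]
      constructor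
      · rintro ⟨h1, h2, h3⟩
        have h4 := (m3 0 p h1).1 h3
        have h := ac p h1 h2
        refine ⟨h, h4, ?_⟩
        rw [m0, h, h4, abs_zero] at h1
        linarith
      · rintro ⟨h1, h3, h2⟩
        have q : p ∈ VV hSpun 0 := by rw [m0, h1, h3, abs_zero]; linarith
        refine ⟨q, ?_, (m3 0 p q).2 h3⟩
        rw [m2, h1, h3, abs_zero]; linarith
    rw [e']
    exact single (cir s04 (1 / 10) (81 / 100) (by norm_num) (by norm_num))
  · -- {1,2,3}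
    have e : (⋂ i ∈ ({1, 2, 3} : Finset (Fin 4)), VV hSpun i) =
      VV hSpun 1 ∩ (VV hSpun 2 ∩ VV hSpun 3) := by simp
    rw [e]
    have e' : VV hSpun 1 ∩ (VV hSpun 2 ∩ VV hSpun 3) =
        {p : Fin 4 → ℝ | p 0 = 0 ∧ p 3 = 0 ∧ 1 - (p 1 ^ 2 + p 2 ^ 2) = 0} := by
      ext p
      simp only [mem_inter_iff, mem_ofPred_eq]
      constructor
      · rintro ⟨h1, h2, h3⟩
        have h4 := (m3 1 p h1).1 h3
        have h := bc p h1 h2
        refine ⟨h, h4, ?_⟩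
        rw [m1, h, h4, abs_zero] at h1
        linarith
      · rintro ⟨h1, h3, h2⟩
        have q : p ∈ VV hSpun 1 := by rw [m1, h1, h3, abs_zero]; linarith
        refine ⟨q, ?_, (m3 1 p q).2 h3⟩
        rw [m2, h1, h3, abs_zero]; linarith
    rw [e']
    exact single (cir s04 0 1 (by norm_num) (by norm_num))
  · -- all
    have e : (⋂ i ∈ ({0, 1, 2, 3} : Finset (Fin 4)), VV hSpun i) =
        VV hSpun 0 ∩ (VV hSpun 1 ∩ (VV hSpun 2 ∩ VV hSpun 3)) := by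
      simp
    rw [e]
    apply R415VN.P12.none
    rw [eq_empty_iff_forall_notMem]
    rintro p ⟨h1, h2, h3, -⟩
    have q1 := bc p h2 h3
    rcases ab p h1 h2 with h | h <;> linarith

end R415VN.P13
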