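import Pool.Agent.R415.VN.St

namespace R415VN.P14
open Set Bornology R415VN

/-- The sample point. -/
noncomputable def pt (i : Fin 4) (σ : Fin 4 → Bool) (l : Fin 4) : ℝ :=
  if l = i then 0 else if σ l then 1 / 2 else -(1 / 2)

theorem pt_abs (i : Fin 4) (σ : Fin 4 → Bool) (l : Fin 4) : |pt i σ l| ≤ 1 / 2 := by
  unfold pt
  split_ifs
  · norm_num
  · rw [abs_of_pos] <;> norm_num
  · rw [abs_neg, abs_of_pos] <;> norm_num

theorem pt_self (i : Fin 4) (σ : Fin 4 → Bool) : pt i σ i = 0 := by simp [pt]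

theorem pt_sq (i : Fin 4) (σ : Fin 4 → Bool) (l : Fin 4) (h : l ≠ i) : pt i σ l ^ 2 = 1 / 4 := by
  unfold pt
  rw [if_neg h]
  split_ifs <;> norm_num

theorem pt_abs_eq (i : Fin 4) (σ : Fin 4 → Bool) (l : Fin 4) (h : l ≠ i) : |pt i σ l| = 1 / 2 := by
  unfold pt
  rw [if_neg h]
  split_ifs
  · rw [abs_of_pos] <;> norm_num
  · rw [abs_neg, abs_of_pos] <;> norm_num

theorem pt_true (i : Fin 4) (σ : Fin 4 → Bool) (l : Fin 4) (h : l ≠ i) (hs : σ l = true) :
    pt i σ l = 1 / 2 := by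
  simp [pt, h, hs]

theorem pt_false (i : Fin 4) (σ : Fin 4 → Bool) (l : Fin 4) (h : l ≠ i) (hs : σ l = false) :
    pt i σ l = -(1 / 2) := by
  simp [pt, h, hs]

theorem base_norm (p : Fin 4 → ℝ) (hp : ∀ l, |p l| ≤ 1 / 2) : ‖base p‖ ≤ 1 / 2 := by
  rw [pi_norm_le_iff_of_nonneg (by norm_num)]
  intro l
  fin_cases l <;> simp [base] <;> [have := hp 0; have := hp 1; have := hp 2] <;> simpa using this

theorem G3 (p : Fin 4 → ℝ) (hp : ∀ l, |p l| ≤ 1 / 2) : G hStd 3 p = p 3 := by
  have h1 := base_norm p hp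
  have h2 := abs_le.mp (hp 3)
  show min (4 - ‖base p‖) (min (p 3) (4 - p 3)) = p 3
  rw [min_eq_left (a := p 3) (by linarith), min_eq_right]
  linarith

theorem G0 (p : Fin 4 → ℝ) : G hStd 0 p = 1 - (p 0 ^ 2 + p 1 ^ 2 + p 2 ^ 2) + 2 * p 0 - |p 3| := by
  simp [G, hStd, base]

theorem G1 (p : Fin 4 → ℝ) : G hStd 1 p = 1 - (p 0 ^ 2 + p 1 ^ 2 + p 2 ^ 2) + 2 * p 1 - |p 3| := by
  simp [G, hStd, base]

theorem G2 (p : Fin 4 → ℝ) : G hStd 2 p = 1 - (p 0 ^ 2 + p 1 ^ 2 + p 2 ^ 2) + 2 * p 2 - |p 3| := by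
  simp [G, hStd, base]

theorem G_cont (j : Fin 4) : Continuous (G hStd j) := by
  have hb : Continuous base := by
    unfold base
    refine continuous_pi ?_
    intro l
    fin_cases l <;> simp <;> fun_prop
  fin_cases j
  · have : G hStd 0 = fun p => 1 - (p 0 ^ 2 + p 1 ^ 2 + p 2 ^ 2) + 2 * p 0 - |p 3| := funext G0
    show Continuous (G hStd 0)
    rw [this]; fun_prop
  · have : G hStd 1 = fun p => 1 - (p 0 ^ 2 + p 1 ^ 2 + p 2 ^ 2) + 2 * p 1 - |p 3| := funext G1
    show Continuous (G hStd 1)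
    rw [this]; fun_prop
  · have : G hStd 2 = fun p => 1 - (p 0 ^ 2 + p 1 ^ 2 + p 2 ^ 2) + 2 * p 2 - |p 3| := funext G2
    show Continuous (G hStd 2)
    rw [this]; fun_prop
  · show Continuous (fun p : Fin 4 → ℝ => min (4 - ‖base p‖) (min (p 3) (4 - p 3)))
    fun_prop

/-- values at the sample point -/
theorem G_pt (i : Fin 4) (σ : Fin 4 → Bool) : G hStd i (pt i σ) = 0 ∧
    ∀ j, j ≠ i → (σ j = true → 0 < G hStd j (pt i σ)) ∧ (σ j = false → G hStd j (pt i σ) < 0) := by
  have h3 := G3 (pt i σ) (pt_abs i σ)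
  have hlow : ∀ j : Fin 4, j ≠ 3 → ∃ c : ℝ, |c| < 1 ∧ (i ≠ 3 → c = 0) ∧
      G hStd j (pt i σ) = c + 2 * pt i σ j := by
    intro j hj
    have hS : i ≠ 3 → (pt i σ 0 ^ 2 + pt i σ 1 ^ 2 + pt i σ 2 ^ 2) = 1 / 2 ∧ |pt i σ 3| = 1 / 2 := by
      intro hi
      refine ⟨?_, pt_abs_eq i σ 3 (Ne.symm hi)⟩
      have e := pt_self i σ
      have a0 := pt_sq i σ 0
      have a1 := pt_sq i σ 1
      have a2 := pt_sq i σ 2
      fin_cases i
      · rw [a1 (by decide), a2 (by decide)]
        simp only [Fin.zero_eta] at e ⊢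
        rw [e]; norm_num
      · rw [a0 (by decide), a2 (by decide)]
        simp only [Fin.mk_one] at e ⊢
        rw [e]; norm_num
      · rw [a0 (by decide), a1 (by decide)]
        simp only [Fin.reduceFinMk] at e ⊢
        rw [e]; norm_num
      · exact absurd rfl hi
    have hT : i = 3 → (pt i σ 0 ^ 2 + pt i σ 1 ^ 2 + pt i σ 2 ^ 2) = 3 / 4 ∧ |pt i σ 3| = 0 := by
      intro hi
      subst hi
      rw [pt_self, pt_sq _ _ 0 (by decide), pt_sq _ _ 1 (by decide), pt_sq _ _ 2 (by decide)]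
      norm_num
    have hG : G hStd j (pt i σ) = 1 - (pt i σ 0 ^ 2 + pt i σ 1 ^ 2 + pt i σ 2 ^ 2) +
        2 * pt i σ j - |pt i σ 3| := by
      fin_cases j
      · exact G0 _
      · exact G1 _
      · exact G2 _
      · exact absurd rfl hj
    by_cases hi : i = 3
    · obtain ⟨e1, e2⟩ := hT hi
      refine ⟨1 / 4, by rw [abs_of_pos] <;> norm_num, fun h => absurd hi h, ?_⟩
      rw [hG, e1, e2]; ring
    · obtain ⟨e1, e2⟩ := hS hi
      refine ⟨0, by norm_num, fun _ => rfl, ?_⟩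
      rw [hG, e1, e2]; ring
  constructor
  · by_cases hi : i = 3
    · subst hi
      rw [h3, pt_self]
    · obtain ⟨c, _, hc, hG⟩ := hlow i hi
      rw [hG, hc hi, pt_self]; ring
  · intro j hj
    by_cases hj3 : j = 3
    · subst hj3
      rw [h3]
      constructor
      · intro hs
        rw [pt_true i σ 3 hj hs]; norm_num
      · intro hs
        rw [pt_false i σ 3 hj hs]; norm_num
    · obtain ⟨c, hc1, _, hG⟩ := hlow j hj3
      have hc2 := abs_lt.mp hc1
      constructor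
      · intro hs
        rw [hG, pt_true i σ j hj hs]; linarith
      · intro hs
        rw [hG, pt_false i σ j hj hs]; linarith

theorem pt_off (i : Fin 4) (σ : Fin 4 → Bool) : pt i σ ∈ offOthers (VV hStd) i := by
  obtain ⟨h0, h1⟩ := G_pt i σ
  refine ⟨h0, ?_⟩
  intro hmem
  simp only [Set.mem_iUnion] at hmem
  obtain ⟨j, hj, hz⟩ := hmem
  have hj' : j ≠ i := hj
  have hz' : G hStd j (pt i σ) = 0 := hz
  rcases hb : σ j with _ | _
  · have := (h1 j hj').2 hb
    linarith
  · have := (h1 j hj').1 hb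
    linarith

/-- the sign of `G j` is constant on a component -/
theorem sign_const (i j : Fin 4) (hj : j ≠ i) (p x y : Fin 4 → ℝ)
    (hx : x ∈ connectedComponentIn (offOthers (VV hStd) i) p)
    (hy : y ∈ connectedComponentIn (offOthers (VV hStd) i) p)
    (h1 : G hStd j x < 0) (h2 : 0 < G hStd j y) : False := by
  have hpc := isPreconnected_connectedComponentIn (x := p) (F := offOthers (VV hStd) i)
  have := hpc.intermediate_value hx hy (G_cont j).continuousOn
  obtain ⟨z, hz, hz0⟩ := this ⟨h1.le, h2.le⟩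
  have hz' := connectedComponentIn_subset _ _ hz
  apply hz'.2
  simp only [Set.mem_iUnion]
  exact ⟨j, hj, hz0⟩

/-- The index type. -/
abbrev Idx := {x : Fin 4 × (Fin 4 → Bool) // x.2 x.1 = false}

theorem card_Idx : Fintype.card Idx = 32 := by decide

/-- the edge of an index -/
def ed (x : Idx) : Set (Fin 4 → ℝ) :=
  connectedComponentIn (offOthers (VV hStd) x.1.1) (pt x.1.1 x.1.2)

theorem ed_inj : Function.Injective ed := by
  rintro ⟨⟨i, σ⟩, hσ⟩ ⟨⟨i', σ'⟩, hσ'⟩ he
  have he' : connectedComponentIn (offOthers (VV hStd) i) (pt i σ) =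
    connectedComponentIn (offOthers (VV hStd) i') (pt i' σ') := he
  have m1 : pt i σ ∈ connectedComponentIn (offOthers (VV hStd) i) (pt i σ) :=
    mem_connectedComponentIn (pt_off i σ)
  have m2 : pt i' σ' ∈ connectedComponentIn (offOthers (VV hStd) i') (pt i' σ') :=
    mem_connectedComponentIn (pt_off i' σ')
  have hii : i' = i := by
    by_contra hne
    have m3 : pt i σ ∈ offOthers (VV hStd) i' := by
      rw [he'] at m1
      exact connectedComponentIn_subset _ _ m1
    have m4 := pt_off i σ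
    apply m4.2
    simp only [Set.mem_iUnion]
    exact ⟨i', hne, m3.1⟩
  subst hii
  have hss : σ = σ' := by
    funext j
    by_cases hj : j = i'
    · subst hj
      have h1 : σ j = false := hσ
      have h2 : σ' j = false := hσ'
      rw [h1, h2]
    · have s1 := (G_pt i' σ).2 j hj
      have s2 := (G_pt i' σ').2 j hj
      rw [← he'] at m2
      rcases hb : σ j with _ | _
      · rcases hb' : σ' j with _ | _
        · rfl
        · exact (sign_const i' j hj _ _ _ m1 m2 (s1.2 hb) (s2.1 hb')).elim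
      · rcases hb' : σ' j with _ | _
        · exact (sign_const i' j hj _ _ _ m2 m1 (s2.2 hb') (s1.1 hb)).elim
        · rfl
  subst hss
  rfl

theorem main : S14 := by
  show 32 ≤ (edges (VV hStd)).encard
  have h1 : (Set.range ed).encard = 32 := by
    rw [← Set.image_univ, ed_inj.encard_image, Set.encard_univ, ENat.card_eq_coe_fintype_card,
      card_Idx]
    rfl
  rw [← h1]
  apply Set.encard_le_encard
  rintro _ ⟨x, rfl⟩
  exact ⟨x.1.1, pt x.1.1 x.1.2, pt_off _ _, rfl⟩

end R415VN.P14
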