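import Pool.Agent.R415.VN.St

/-!
# P15: bounding the number of edges by covers (MP_3341d1_co)
-/

namespace R415VN.P15

open Set Bornology R415VN

theorem main : S15 := by
  classical
  intro V N h
  choose C hC1 hC2 hC3 using h
  set f : (Σ i, Fin (N i)) → Set (Fin 4 → ℝ) := fun q =>
    if hq : (C q.1 q.2).Nonempty then connectedComponentIn (offOthers V q.1) hq.some else ∅ with hf
  have hsub : edges V ⊆ f '' univ := by
    rintro E ⟨i, x, hx, rfl⟩
    obtain ⟨k, hk⟩ := mem_iUnion.1 (hC3 i hx)
    have hne : (C i k).Nonempty := ⟨x, hk⟩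
    refine ⟨⟨i, k⟩, mem_univ _, ?_⟩
    simp only [hf]
    rw [dif_pos hne]
    have h1 : hne.some ∈ connectedComponentIn (offOthers V i) x :=
      (hC1 i k).subset_connectedComponentIn hk (hC2 i k) hne.some_mem
    exact (connectedComponentIn_eq h1).symm
  unfold edgeCount
  refine (encard_le_encard hsub).trans ((encard_image_le f univ).trans ?_)
  rw [encard_univ, ENat.card_eq_coe_fintype_card, Fintype.card_sigma]
  simp

end R415VN.P15
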