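import Pool.Agent.R415.VN.St

/-!
# VN project, piece P16: covers of the three graph surfaces of the spun diagram
-/

namespace R415VN.P16

open Set Bornology

/-- the quadratic functions -/
noncomputable def q (c α β : ℝ) (x : Fin 3 → ℝ) : ℝ :=
  c - α * x 0 ^ 2 - β * x 0 - (x 1 ^ 2 + x 2 ^ 2)

theorem q_cont (c α β : ℝ) : Continuous (q c α β) := by
  unfold q
  fun_prop

theorem q_convex (c α β : ℝ) (hα : 0 ≤ α) : Convex ℝ {x : Fin 3 → ℝ | 0 < q c α β x} := by
  intro x hx y hy a b ha hb hab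
  have hb' : b = 1 - a := by linarith
  have e : q c α β (a • x + b • y) = a * q c α β x + b * q c α β y +
      a * b * (α * (x 0 - y 0) ^ 2 + ((x 1 - y 1) ^ 2 + (x 2 - y 2) ^ 2)) := by
    simp only [q, Pi.add_apply, Pi.smul_apply, smul_eq_mul]
    rw [hb']
    ring
  change 0 < q c α β (a • x + b • y)
  have hx' : 0 < q c α β x := hx
  have hy' : 0 < q c α β y := hy
  rw [e]
  have h1 : 0 ≤ a * b * (α * (x 0 - y 0) ^ 2 + ((x 1 - y 1) ^ 2 + (x 2 - y 2) ^ 2)) := by
    positivity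
  rcases eq_or_lt_of_le ha with h0 | h0
  · have hb1 : b = 1 := by linarith
    rw [← h0, hb1] at h1 ⊢
    linarith
  · have h2 : 0 < a * q c α β x := mul_pos h0 hx'
    have h3 : 0 ≤ b * q c α β y := mul_nonneg hb hy'.le
    linarith

/-- the point above `x` at height `s` -/
def pt (x : Fin 3 → ℝ) (s : ℝ) : Fin 4 → ℝ := ![x 0, x 1, x 2, s]

theorem base_pt (x : Fin 3 → ℝ) (s : ℝ) : base (pt x s) = x := by
  funext i
  fin_cases i <;> rfl

theorem pt_base (p : Fin 4 → ℝ) : pt (base p) (p 3) = p := by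
  funext i
  fin_cases i <;> rfl

theorem pt_three (x : Fin 3 → ℝ) (s : ℝ) : pt x s 3 = s := rfl

theorem cover {A : Set (Fin 4 → ℝ)} {M N : ℕ} (hN : N = M * 2) (a : (Fin 3 → ℝ) → ℝ)
    (hc : Continuous a) (hconv : Convex ℝ {x | 0 < a x}) (slab : Fin M → Set (Fin 3 → ℝ))
    (hslab : ∀ k, Convex ℝ (slab k))
    (hsub : ∀ k, ∀ x ∈ slab k, 0 < a x → ∀ s, |s| = a x → pt x s ∈ A)
    (hcov : ∀ p ∈ A, 0 < a (base p) ∧ |p 3| = a (base p) ∧ ∃ k, base p ∈ slab k) :
    CoveredBy A N := by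
  have hcard : Fintype.card (Fin M × Bool) = N := by simp [hN]
  set e := (Fintype.equivFinOfCardEq hcard) with he
  set D : Fin M × Bool → Set (Fin 4 → ℝ) := fun k =>
    (fun x => pt x ((if k.2 then 1 else -1) * a x)) '' ({x | 0 < a x} ∩ slab k.1) with hD
  refine ⟨fun k => D (e.symm k), ?_, ?_, ?_⟩
  · intro k
    apply IsPreconnected.image
    · exact (hconv.inter (hslab _)).isPreconnected
    · apply Continuous.continuousOn
      unfold pt
      apply continuous_pi
      intro i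
      fin_cases i
      · exact continuous_apply 0
      · exact continuous_apply 1
      · exact continuous_apply 2
      · exact continuous_const.mul hc
  · rintro k _ ⟨x, ⟨hx, hxs⟩, rfl⟩
    refine hsub _ x hxs hx _ ?_
    have hx' : 0 < a x := hx
    rw [abs_mul, abs_of_pos hx']
    split_ifs <;> simp
  · intro p hp
    obtain ⟨h1, h2, k, hk⟩ := hcov p hp
    rw [Set.mem_iUnion]
    refine ⟨e (k, decide (0 < p 3)), ?_⟩
    rw [Equiv.symm_apply_apply]
    refine ⟨base p, ⟨h1, hk⟩, ?_⟩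
    have h3 : (if decide (0 < p 3) = true then (1 : ℝ) else -1) * a (base p) = p 3 := by
      rw [← h2]
      by_cases h : 0 < p 3
      · simp [h, abs_of_pos h]
      · rw [abs_of_nonpos (not_lt.1 h)]
        simp [h]
    show pt (base p) _ = p
    rw [h3]
    exact pt_base p

theorem convex_lt (c : ℝ) : Convex ℝ {x : Fin 3 → ℝ | x 0 < c} :=
  convex_halfSpace_lt (f := fun x : Fin 3 → ℝ => x 0) ⟨fun _ _ => rfl, fun _ _ => rfl⟩ c

theorem convex_gt (c : ℝ) : Convex ℝ {x : Fin 3 → ℝ | c < x 0} :=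
  convex_halfSpace_gt (f := fun x : Fin 3 → ℝ => x 0) ⟨fun _ _ => rfl, fun _ _ => rfl⟩ c

theorem h0_eq (x : Fin 3 → ℝ) : hSpun 0 x = q (13 / 16) (1 / 4) 0 x := by
  simp only [hSpun, q, Matrix.cons_val_zero]
  ring

theorem h1_eq (x : Fin 3 → ℝ) : hSpun 1 x = q 1 1 0 x := by
  simp only [hSpun, q, Matrix.cons_val_one]
  simp

theorem h2_eq (x : Fin 3 → ℝ) : hSpun 2 x = q 1 1 (9 / 5) x := by
  simp only [hSpun, q]
  simp

theorem mem_VV0 (p : Fin 4 → ℝ) : p ∈ VV hSpun 0 ↔ |p 3| = q (13 / 16) (1 / 4) 0 (base p) := by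
  rw [← h0_eq]
  change hSpun 0 (base p) - |p 3| = 0 ↔ _
  constructor <;> intro h <;> linarith

theorem mem_VV1 (p : Fin 4 → ℝ) : p ∈ VV hSpun 1 ↔ |p 3| = q 1 1 0 (base p) := by
  rw [← h1_eq]
  change hSpun 1 (base p) - |p 3| = 0 ↔ _
  constructor <;> intro h <;> linarith

theorem mem_VV2 (p : Fin 4 → ℝ) : p ∈ VV hSpun 2 ↔ |p 3| = q 1 1 (9 / 5) (base p) := by
  rw [← h2_eq]
  change hSpun 2 (base p) - |p 3| = 0 ↔ _
  constructor <;> intro h <;> linarith

theorem mem_VV3 (p : Fin 4 → ℝ) : p ∈ VV hSpun 3 ↔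
    min (4 - ‖base p‖) (min (p 3) (4 - p 3)) = 0 := Iff.rfl

theorem norm_lt {x : Fin 3 → ℝ} (h0 : |x 0| < 4) (h1 : |x 1| < 4) (h2 : |x 2| < 4) :
    ‖x‖ < 4 := by
  rw [pi_norm_lt_iff (by norm_num)]
  intro i
  fin_cases i
  · exact h0
  · exact h1
  · exact h2

/-- a point over a small `x` with small nonzero height is not on the floor -/
theorem not_floor {x : Fin 3 → ℝ} {s : ℝ} (hx : ‖x‖ < 4) (hs : |s| < 4) (hs0 : s ≠ 0) :
    pt x s ∉ VV hSpun 3 := by
  rw [mem_VV3, base_pt, pt_three]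
  intro h
  have := abs_lt.1 hs
  rcases lt_or_gt_of_ne hs0 with h1 | h1
  · have h2 : min (4 - ‖x‖) (min s (4 - s)) ≤ s := (min_le_right _ _).trans (min_le_left _ _)
    linarith
  · have h2 : 0 < min (4 - ‖x‖) (min s (4 - s)) :=
      lt_min (by linarith) (lt_min h1 (by linarith))
    linarith

/-- a point at height zero over a small `x` is on the floor -/
theorem floor {p : Fin 4 → ℝ} (hx : ‖base p‖ < 4) (h3 : p 3 = 0) : p ∈ VV hSpun 3 := by
  rw [mem_VV3, h3]
  rw [min_eq_left (by norm_num : (0 : ℝ) ≤ 4 - 0)]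
  exact min_eq_right (by linarith)

theorem mem_off (i : Fin 4) (p : Fin 4 → ℝ) : p ∈ offOthers (VV hSpun) i ↔
    p ∈ VV hSpun i ∧ ∀ j, j ≠ i → p ∉ VV hSpun j := by
  unfold offOthers
  simp only [mem_sdiff, mem_iUnion, mem_ofPred_eq, not_exists]

/-- bounds -/
theorem small {c α β : ℝ} (x : Fin 3 → ℝ) (h : 0 ≤ q c α β x)
    (hc : c ≤ 1) (hα : 1 / 4 ≤ α) (hα1 : α ≤ 1) (hβ : 0 ≤ β) (hβα : β = 0 ∨ (α = 1 ∧ β = 9 / 5)) :
    ‖x‖ < 4 ∧ q c α β x < 4 := by
  unfold q at h ⊢
  rcases hβα with rfl | ⟨rfl, rfl⟩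
  · have h0 : x 0 ^ 2 ≤ 4 := by nlinarith [sq_nonneg (x 0), sq_nonneg (x 1), sq_nonneg (x 2)]
    have h1 : x 1 ^ 2 ≤ 1 := by nlinarith [sq_nonneg (x 0), sq_nonneg (x 1), sq_nonneg (x 2)]
    have h2 : x 2 ^ 2 ≤ 1 := by nlinarith [sq_nonneg (x 0), sq_nonneg (x 1), sq_nonneg (x 2)]
    refine ⟨norm_lt ?_ ?_ ?_, ?_⟩
    · exact abs_lt.2 ⟨by nlinarith, by nlinarith⟩
    · exact abs_lt.2 ⟨by nlinarith, by nlinarith⟩
    · exact abs_lt.2 ⟨by nlinarith, by nlinarith⟩
    · nlinarith [sq_nonneg (x 0), sq_nonneg (x 1), sq_nonneg (x 2)]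
  · have h0 : (x 0 + 9 / 10) ^ 2 ≤ 2 := by nlinarith [sq_nonneg (x 1), sq_nonneg (x 2)]
    have h1 : x 1 ^ 2 ≤ 2 := by nlinarith [sq_nonneg (x 0 + 9 / 10), sq_nonneg (x 1), sq_nonneg (x 2)]
    have h2 : x 2 ^ 2 ≤ 2 := by nlinarith [sq_nonneg (x 0 + 9 / 10), sq_nonneg (x 1), sq_nonneg (x 2)]
    refine ⟨norm_lt ?_ ?_ ?_, ?_⟩
    · exact abs_lt.2 ⟨by nlinarith, by nlinarith⟩
    · exact abs_lt.2 ⟨by nlinarith, by nlinarith⟩
    · exact abs_lt.2 ⟨by nlinarith, by nlinarith⟩
    · nlinarith [sq_nonneg (x 0 + 9 / 10), sq_nonneg (x 1), sq_nonneg (x 2)]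

theorem partA : CoveredBy (offOthers (VV hSpun) 0) 8 := by
  refine cover (M := 4) (by norm_num) (q (13 / 16) (1 / 4) 0) (q_cont _ _ _)
    (q_convex _ _ _ (by norm_num))
    ![{x | x 0 < -1 / 2}, {x | -1 / 2 < x 0} ∩ {x | x 0 < 1 / 10},
      {x | 1 / 10 < x 0} ∩ {x | x 0 < 1 / 2}, {x | 1 / 2 < x 0}] ?_ ?_ ?_
  · intro k
    fin_cases k
    · exact convex_lt _
    · exact (convex_gt _).inter (convex_lt _)
    · exact (convex_gt _).inter (convex_lt _)
    · exact convex_gt _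
  · intro k x hx hpos s hs
    obtain ⟨b1, b2⟩ := small x hpos.le (by norm_num) (by norm_num) (by norm_num) (by norm_num)
      (Or.inl rfl)
    have hq : 0 < (13 / 16 : ℝ) - 1 / 4 * x 0 ^ 2 - 0 * x 0 - (x 1 ^ 2 + x 2 ^ 2) := hpos
    have hu : x 0 ≠ -1 / 2 ∧ x 0 ≠ 1 / 10 ∧ x 0 ≠ 1 / 2 := by
      fin_cases k
      · have h : x 0 < -1 / 2 := hx
        exact ⟨h.ne, by intro h'; linarith, by intro h'; linarith⟩
      · have h : -1 / 2 < x 0 ∧ x 0 < 1 / 10 := hx
        exact ⟨h.1.ne', h.2.ne, by intro h'; linarith [h.2]⟩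
      · have h : 1 / 10 < x 0 ∧ x 0 < 1 / 2 := hx
        exact ⟨by intro h'; linarith [h.1], h.1.ne', h.2.ne⟩
      · have h : 1 / 2 < x 0 := hx
        exact ⟨by intro h'; linarith, by intro h'; linarith, h.ne'⟩
    rw [mem_off]
    refine ⟨?_, ?_⟩
    · rw [mem_VV0, base_pt, pt_three]
      exact hs
    · intro j hj
      fin_cases j
      · exact absurd rfl hj
      · intro h
        have h' := (mem_VV1 _).1 h
        rw [base_pt, pt_three, hs] at h'
        unfold q at h'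
        have h2 : (x 0 - 1 / 2) * (x 0 + 1 / 2) = 0 := by nlinarith
        rcases mul_eq_zero.1 h2 with h3 | h3
        · exact hu.2.2 (by linarith)
        · exact hu.1 (by linarith)
      · intro h
        have h' := (mem_VV2 _).1 h
        rw [base_pt, pt_three, hs] at h'
        unfold q at h'
        have h2 : (x 0 - 1 / 10) * (x 0 + 5 / 2) = 0 := by nlinarith
        rcases mul_eq_zero.1 h2 with h3 | h3
        · exact hu.2.1 (by linarith)
        · have h4 : x 0 = -5 / 2 := by linarith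
          rw [h4] at hq
          nlinarith [sq_nonneg (x 1), sq_nonneg (x 2)]
      · exact not_floor b1 (by rw [hs]; exact b2) (by
          rintro rfl
          rw [abs_zero] at hs
          linarith)
  · intro p hp
    rw [mem_off] at hp
    obtain ⟨hp0, hpj⟩ := hp
    have hp0' := (mem_VV0 p).1 hp0
    have hnn : 0 ≤ q (13 / 16) (1 / 4) 0 (base p) := by
      rw [← hp0']
      exact abs_nonneg _
    obtain ⟨b1, b2⟩ := small (base p) hnn (by norm_num) (by norm_num) (by norm_num) (by norm_num)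
      (Or.inl rfl)
    have hs : p 3 ≠ 0 := fun h => hpj 3 (by decide) (floor b1 h)
    have hpos : 0 < q (13 / 16) (1 / 4) 0 (base p) := by
      rw [← hp0']
      exact abs_pos.2 hs
    refine ⟨hpos, hp0', ?_⟩
    have n1 : |p 3| ≠ q 1 1 0 (base p) := fun h => hpj 1 (by decide) ((mem_VV1 p).2 h)
    have n2 : |p 3| ≠ q 1 1 (9 / 5) (base p) := fun h => hpj 2 (by decide) ((mem_VV2 p).2 h)
    rw [hp0'] at n1 n2
    unfold q at n1 n2
    have u1 : base p 0 ≠ -1 / 2 := by
      intro h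
      apply n1
      rw [h]
      ring
    have u2 : base p 0 ≠ 1 / 2 := by
      intro h
      apply n1
      rw [h]
      ring
    have u3 : base p 0 ≠ 1 / 10 := by
      intro h
      apply n2
      rw [h]
      ring
    rcases lt_or_gt_of_ne u1 with h1 | h1
    · exact ⟨0, h1⟩
    · rcases lt_or_gt_of_ne u3 with h3 | h3
      · exact ⟨1, ⟨h1, h3⟩⟩
      · rcases lt_or_gt_of_ne u2 with h2 | h2
        · exact ⟨2, ⟨h3, h2⟩⟩
        · exact ⟨3, h2⟩

theorem partB : CoveredBy (offOthers (VV hSpun) 1) 8 := by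
  refine cover (M := 4) (by norm_num) (q 1 1 0) (q_cont _ _ _)
    (q_convex _ _ _ (by norm_num))
    ![{x | x 0 < -1 / 2}, {x | -1 / 2 < x 0} ∩ {x | x 0 < 0},
      {x | 0 < x 0} ∩ {x | x 0 < 1 / 2}, {x | 1 / 2 < x 0}] ?_ ?_ ?_
  · intro k
    fin_cases k
    · exact convex_lt _
    · exact (convex_gt _).inter (convex_lt _)
    · exact (convex_gt _).inter (convex_lt _)
    · exact convex_gt _
  · intro k x hx hpos s hs
    obtain ⟨b1, b2⟩ := small x hpos.le (by norm_num) (by norm_num) (by norm_num) (by norm_num)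
      (Or.inl rfl)
    have hu : x 0 ≠ -1 / 2 ∧ x 0 ≠ 0 ∧ x 0 ≠ 1 / 2 := by
      fin_cases k
      · have h : x 0 < -1 / 2 := hx
        exact ⟨h.ne, by intro h'; linarith, by intro h'; linarith⟩
      · have h : -1 / 2 < x 0 ∧ x 0 < 0 := hx
        exact ⟨h.1.ne', h.2.ne, by intro h'; linarith [h.2]⟩
      · have h : 0 < x 0 ∧ x 0 < 1 / 2 := hx
        exact ⟨by intro h'; linarith [h.1], h.1.ne', h.2.ne⟩
      · have h : 1 / 2 < x 0 := hx
        exact ⟨by intro h'; linarith, by intro h'; linarith, h.ne'⟩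
    rw [mem_off]
    refine ⟨?_, ?_⟩
    · rw [mem_VV1, base_pt, pt_three]
      exact hs
    · intro j hj
      fin_cases j
      · intro h
        have h' := (mem_VV0 _).1 h
        rw [base_pt, pt_three, hs] at h'
        unfold q at h'
        have h2 : (x 0 - 1 / 2) * (x 0 + 1 / 2) = 0 := by nlinarith
        rcases mul_eq_zero.1 h2 with h3 | h3
        · exact hu.2.2 (by linarith)
        · exact hu.1 (by linarith)
      · exact absurd rfl hj
      · intro h
        have h' := (mem_VV2 _).1 h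
        rw [base_pt, pt_three, hs] at h'
        unfold q at h'
        exact hu.2.1 (by linarith)
      · exact not_floor b1 (by rw [hs]; exact b2) (by
          rintro rfl
          rw [abs_zero] at hs
          linarith)
  · intro p hp
    rw [mem_off] at hp
    obtain ⟨hp0, hpj⟩ := hp
    have hp0' := (mem_VV1 p).1 hp0
    have hnn : 0 ≤ q 1 1 0 (base p) := by
      rw [← hp0']
      exact abs_nonneg _
    obtain ⟨b1, b2⟩ := small (base p) hnn (by norm_num) (by norm_num) (by norm_num) (by norm_num)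
      (Or.inl rfl)
    have hs : p 3 ≠ 0 := fun h => hpj 3 (by decide) (floor b1 h)
    have hpos : 0 < q 1 1 0 (base p) := by
      rw [← hp0']
      exact abs_pos.2 hs
    refine ⟨hpos, hp0', ?_⟩
    have n1 : |p 3| ≠ q (13 / 16) (1 / 4) 0 (base p) :=
      fun h => hpj 0 (by decide) ((mem_VV0 p).2 h)
    have n2 : |p 3| ≠ q 1 1 (9 / 5) (base p) := fun h => hpj 2 (by decide) ((mem_VV2 p).2 h)
    rw [hp0'] at n1 n2
    unfold q at n1 n2
    have u1 : base p 0 ≠ -1 / 2 := by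
      intro h
      apply n1
      rw [h]
      ring
    have u2 : base p 0 ≠ 1 / 2 := by
      intro h
      apply n1
      rw [h]
      ring
    have u3 : base p 0 ≠ 0 := by
      intro h
      apply n2
      rw [h]
      ring
    rcases lt_or_gt_of_ne u1 with h1 | h1
    · exact ⟨0, h1⟩
    · rcases lt_or_gt_of_ne u3 with h3 | h3
      · exact ⟨1, ⟨h1, h3⟩⟩
      · rcases lt_or_gt_of_ne u2 with h2 | h2
        · exact ⟨2, ⟨h3, h2⟩⟩
        · exact ⟨3, h2⟩

theorem partC : CoveredBy (offOthers (VV hSpun) 2) 6 := by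
  refine cover (M := 3) (by norm_num) (q 1 1 (9 / 5)) (q_cont _ _ _)
    (q_convex _ _ _ (by norm_num))
    ![{x | x 0 < 0}, {x | 0 < x 0} ∩ {x | x 0 < 1 / 10}, {x | 1 / 10 < x 0}] ?_ ?_ ?_
  · intro k
    fin_cases k
    · exact convex_lt _
    · exact (convex_gt _).inter (convex_lt _)
    · exact convex_gt _
  · intro k x hx hpos s hs
    obtain ⟨b1, b2⟩ := small x hpos.le (by norm_num) (by norm_num) (by norm_num) (by norm_num)
      (Or.inr ⟨rfl, rfl⟩)
    have hq : 0 < (1 : ℝ) - 1 * x 0 ^ 2 - 9 / 5 * x 0 - (x 1 ^ 2 + x 2 ^ 2) := hpos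
    have hu : x 0 ≠ 0 ∧ x 0 ≠ 1 / 10 := by
      fin_cases k
      · have h : x 0 < 0 := hx
        exact ⟨h.ne, by intro h'; linarith⟩
      · have h : 0 < x 0 ∧ x 0 < 1 / 10 := hx
        exact ⟨h.1.ne', h.2.ne⟩
      · have h : 1 / 10 < x 0 := hx
        exact ⟨by intro h'; linarith, h.ne'⟩
    rw [mem_off]
    refine ⟨?_, ?_⟩
    · rw [mem_VV2, base_pt, pt_three]
      exact hs
    · intro j hj
      fin_cases j
      · intro h
        have h' := (mem_VV0 _).1 h
        rw [base_pt, pt_three, hs] at h'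
        unfold q at h'
        have h2 : (x 0 - 1 / 10) * (x 0 + 5 / 2) = 0 := by nlinarith
        rcases mul_eq_zero.1 h2 with h3 | h3
        · exact hu.2 (by linarith)
        · have h4 : x 0 = -5 / 2 := by linarith
          rw [h4] at hq
          nlinarith [sq_nonneg (x 1), sq_nonneg (x 2)]
      · intro h
        have h' := (mem_VV1 _).1 h
        rw [base_pt, pt_three, hs] at h'
        unfold q at h'
        exact hu.1 (by linarith)
      · exact absurd rfl hj
      · exact not_floor b1 (by rw [hs]; exact b2) (by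
          rintro rfl
          rw [abs_zero] at hs
          linarith)
  · intro p hp
    rw [mem_off] at hp
    obtain ⟨hp0, hpj⟩ := hp
    have hp0' := (mem_VV2 p).1 hp0
    have hnn : 0 ≤ q 1 1 (9 / 5) (base p) := by
      rw [← hp0']
      exact abs_nonneg _
    obtain ⟨b1, b2⟩ := small (base p) hnn (by norm_num) (by norm_num) (by norm_num) (by norm_num)
      (Or.inr ⟨rfl, rfl⟩)
    have hs : p 3 ≠ 0 := fun h => hpj 3 (by decide) (floor b1 h)
    have hpos : 0 < q 1 1 (9 / 5) (base p) := by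
      rw [← hp0']
      exact abs_pos.2 hs
    refine ⟨hpos, hp0', ?_⟩
    have n1 : |p 3| ≠ q (13 / 16) (1 / 4) 0 (base p) :=
      fun h => hpj 0 (by decide) ((mem_VV0 p).2 h)
    have n2 : |p 3| ≠ q 1 1 0 (base p) := fun h => hpj 1 (by decide) ((mem_VV1 p).2 h)
    rw [hp0'] at n1 n2
    unfold q at n1 n2
    have u1 : base p 0 ≠ 1 / 10 := by
      intro h
      apply n1
      rw [h]
      ring
    have u2 : base p 0 ≠ 0 := by
      intro h
      apply n2
      rw [h]
      ring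
    rcases lt_or_gt_of_ne u2 with h1 | h1
    · exact ⟨0, h1⟩
    · rcases lt_or_gt_of_ne u1 with h3 | h3
      · exact ⟨1, ⟨h1, h3⟩⟩
      · exact ⟨2, h3⟩

theorem main : S16 := ⟨partA, partB, partC⟩

end R415VN.P16
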