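import Pool.Agent.R415.VN.St

namespace R415VN.P17
open Set Bornology

theorem G3_iff (h : Fin 3 → (Fin 3 → ℝ) → ℝ) (p : Fin 4 → ℝ) :
    G h 3 p = 0 ↔ (‖base p‖ ≤ 4 ∧ 0 ≤ p 3 ∧ p 3 ≤ 4 ∧ (‖base p‖ = 4 ∨ p 3 = 0 ∨ p 3 = 4)) := by
  have : G h 3 p = min (4 - ‖base p‖) (min (p 3) (4 - p 3)) := rfl
  rw [this]
  constructor
  · intro h0
    have h1 : 0 ≤ 4 - ‖base p‖ := by rw [← h0]; exact min_le_left _ _
    have h2 : 0 ≤ p 3 := by rw [← h0]; exact (min_le_right _ _).trans (min_le_left _ _)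
    have h3 : 0 ≤ 4 - p 3 := by rw [← h0]; exact (min_le_right _ _).trans (min_le_right _ _)
    refine ⟨by linarith, h2, by linarith, ?_⟩
    rcases min_choice (4 - ‖base p‖) (min (p 3) (4 - p 3)) with h4 | h4
    · left; linarith
    · rcases min_choice (p 3) (4 - p 3) with h5 | h5
      · right; left; linarith
      · right; right; linarith
  · rintro ⟨h1, h2, h3, h4⟩
    apply le_antisymm
    · rcases h4 with h4 | h4 | h4
      · exact (min_le_left _ _).trans (by linarith)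
      · exact (min_le_right _ _).trans ((min_le_left _ _).trans (by linarith))
      · exact (min_le_right _ _).trans ((min_le_right _ _).trans (by linarith))
    · exact le_min (by linarith) (le_min h2 (by linarith))

/-- The set over `J` between `lo` and `hi`, rotated. -/
def Q (lo hi : ℝ → ℝ) : Set (Fin 4 → ℝ) :=
  {p | p 3 = 0 ∧ lo (p 0) < p 1 ^ 2 + p 2 ^ 2 ∧ p 1 ^ 2 + p 2 ^ 2 < hi (p 0)}

theorem polar (a b : ℝ) : ∃ θ : ℝ, a = √(a ^ 2 + b ^ 2) * Real.cos θ ∧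
    b = √(a ^ 2 + b ^ 2) * Real.sin θ := by
  refine ⟨Complex.arg ⟨a, b⟩, ?_, ?_⟩
  · have := Complex.norm_mul_cos_arg (⟨a, b⟩ : ℂ)
    rw [Complex.norm_def, Complex.normSq_mk] at this
    simpa [pow_two] using this.symm
  · have := Complex.norm_mul_sin_arg (⟨a, b⟩ : ℂ)
    rw [Complex.norm_def, Complex.normSq_mk] at this
    simpa [pow_two] using this.symm

theorem Q_preconnected {lo hi : ℝ → ℝ} (hlo : Continuous lo) (hhi : Continuous hi)
    (hJ : IsPreconnected {u | max 0 (lo u) < hi u}) : IsPreconnected (Q lo hi) := by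
  set J : Set ℝ := {u | max 0 (lo u) < hi u} with hJdef
  let l : ℝ → ℝ := fun u => max 0 (lo u)
  have hl : Continuous l := continuous_const.max hlo
  let F : ℝ × ℝ × ℝ → (Fin 4 → ℝ) := fun z =>
    ![z.1, √(l z.1 + z.2.1 * (hi z.1 - l z.1)) * Real.cos z.2.2,
      √(l z.1 + z.2.1 * (hi z.1 - l z.1)) * Real.sin z.2.2, 0]
  have hF : Continuous F := by
    refine continuous_pi fun i => ?_
    fin_cases i
    · exact continuous_fst
    · show Continuous fun z : ℝ × ℝ × ℝ =>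
        √(l z.1 + z.2.1 * (hi z.1 - l z.1)) * Real.cos z.2.2
      fun_prop
    · show Continuous fun z : ℝ × ℝ × ℝ =>
        √(l z.1 + z.2.1 * (hi z.1 - l z.1)) * Real.sin z.2.2
      fun_prop
    · exact continuous_const
  have hS : IsPreconnected (F '' (J ×ˢ (Ioo (0:ℝ) 1 ×ˢ (univ : Set ℝ)))) :=
    (hJ.prod (isPreconnected_Ioo.prod isPreconnected_univ)).image _ hF.continuousOn
  have hl0 : ∀ u, 0 ≤ l u := fun u => le_max_left _ _
  have key : ∀ p ∈ Q lo hi, l (p 0) < p 1 ^ 2 + p 2 ^ 2 →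
      p ∈ F '' (J ×ˢ (Ioo (0:ℝ) 1 ×ˢ (univ : Set ℝ))) := by
    rintro p ⟨h3, h1, h2⟩ hl1
    obtain ⟨θ, hc, hs⟩ := polar (p 1) (p 2)
    have hd : 0 < hi (p 0) - l (p 0) := by linarith
    refine ⟨⟨p 0, (p 1 ^ 2 + p 2 ^ 2 - l (p 0)) / (hi (p 0) - l (p 0)), θ⟩, ⟨?_, ⟨?_, ?_⟩, trivial⟩, ?_⟩
    · show l (p 0) < hi (p 0)
      linarith
    · exact div_pos (by linarith) hd
    · exact (div_lt_one hd).2 (by linarith)
    · have he : l (p 0) + (p 1 ^ 2 + p 2 ^ 2 - l (p 0)) / (hi (p 0) - l (p 0)) *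
          (hi (p 0) - l (p 0)) = p 1 ^ 2 + p 2 ^ 2 := by
        rw [div_mul_cancel₀ _ hd.ne']; ring
      funext i
      fin_cases i
      · rfl
      · show √(l (p 0) + (p 1 ^ 2 + p 2 ^ 2 - l (p 0)) / (hi (p 0) - l (p 0)) *
          (hi (p 0) - l (p 0))) * Real.cos θ = p 1
        rw [he]; exact hc.symm
      · show √(l (p 0) + (p 1 ^ 2 + p 2 ^ 2 - l (p 0)) / (hi (p 0) - l (p 0)) *
          (hi (p 0) - l (p 0))) * Real.sin θ = p 2
        rw [he]; exact hs.symm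
      · exact h3.symm
  refine hS.subset_closure ?_ ?_
  · rintro _ ⟨⟨u, t, θ⟩, ⟨hu, ⟨ht0, ht1⟩, -⟩, rfl⟩
    have hu' : l u < hi u := hu
    simp only at ht0 ht1
    have hpos : 0 < l u + t * (hi u - l u) := by
      have := hl0 u
      have : 0 < t * (hi u - l u) := mul_pos ht0 (by linarith)
      linarith
    have hsq : (√(l u + t * (hi u - l u)) * Real.cos θ) ^ 2 +
        (√(l u + t * (hi u - l u)) * Real.sin θ) ^ 2 = l u + t * (hi u - l u) := by
      rw [mul_pow, mul_pow, ← mul_add, Real.cos_sq_add_sin_sq, mul_one, Real.sq_sqrt hpos.le]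
    refine ⟨rfl, ?_, ?_⟩
    · show lo u < (√(l u + t * (hi u - l u)) * Real.cos θ) ^ 2 +
        (√(l u + t * (hi u - l u)) * Real.sin θ) ^ 2
      rw [hsq]
      have : lo u ≤ l u := le_max_right _ _
      have : 0 < t * (hi u - l u) := mul_pos ht0 (by linarith)
      linarith
    · show (√(l u + t * (hi u - l u)) * Real.cos θ) ^ 2 +
        (√(l u + t * (hi u - l u)) * Real.sin θ) ^ 2 < hi u
      rw [hsq]
      nlinarith
  · intro p hp
    by_cases hl1 : l (p 0) < p 1 ^ 2 + p 2 ^ 2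
    · exact subset_closure (key p hp hl1)
    · obtain ⟨h3, h1, h2⟩ := hp
      push Not at hl1
      have hlz : l (p 0) = 0 := by
        rcases max_choice 0 (lo (p 0)) with h | h
        · exact h
        · exfalso
          have : l (p 0) = lo (p 0) := h
          linarith
      have hz : p 1 ^ 2 + p 2 ^ 2 = 0 := by
        rw [hlz] at hl1
        exact le_antisymm hl1 (by positivity)
      have hp1 : p 1 = 0 := by nlinarith [sq_nonneg (p 1), sq_nonneg (p 2)]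
      have hp2 : p 2 = 0 := by nlinarith [sq_nonneg (p 1), sq_nonneg (p 2)]
      rw [hz] at h1 h2
      -- approximating curve
      let c : ℝ → (Fin 4 → ℝ) := fun e => ![p 0, e, 0, 0]
      have hc : Continuous c := by
        refine continuous_pi fun i => ?_
        fin_cases i
        · exact continuous_const
        · exact continuous_id
        · exact continuous_const
        · exact continuous_const
      have hc0 : c 0 = p := by
        funext i
        fin_cases i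
        · rfl
        · exact hp1.symm
        · exact hp2.symm
        · exact h3.symm
      have ht : Filter.Tendsto c (nhdsWithin 0 (Ioi 0)) (nhds p) := by
        have := hc.tendsto 0
        rw [hc0] at this
        exact this.mono_left nhdsWithin_le_nhds
      refine mem_closure_of_tendsto ht ?_
      have h1' : ∀ᶠ e : ℝ in nhdsWithin 0 (Ioi 0), e ^ 2 < hi (p 0) := by
        have : Filter.Tendsto (fun e : ℝ => e ^ 2) (nhdsWithin 0 (Ioi 0)) (nhds 0) := by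
          have h := (continuous_pow 2 : Continuous fun e : ℝ => e ^ 2).tendsto 0
          simp only [ne_eq, OfNat.ofNat_ne_zero, not_false_eq_true, zero_pow] at h
          exact h.mono_left nhdsWithin_le_nhds
        exact this.eventually (gt_mem_nhds h2)
      filter_upwards [h1', self_mem_nhdsWithin] with e he1 he2
      have he2' : (0:ℝ) < e := he2
      apply key
      · refine ⟨rfl, ?_, ?_⟩
        · show lo (p 0) < e ^ 2 + 0 ^ 2
          have := pow_pos he2' 2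
          linarith
        · show e ^ 2 + 0 ^ 2 < hi (p 0)
          simpa using he1
      · show l (p 0) < e ^ 2 + 0 ^ 2
        rw [hlz]
        have := pow_pos he2' 2
        linarith

noncomputable def aA (u : ℝ) : ℝ := 13 / 16 - u ^ 2 / 4
noncomputable def aB (u : ℝ) : ℝ := 1 - u ^ 2
noncomputable def aC (u : ℝ) : ℝ := 1 - u ^ 2 - 9 / 5 * u

theorem cA : Continuous aA := by unfold aA; fun_prop
theorem cB : Continuous aB := by unfold aB; fun_prop
theorem cC : Continuous aC := by unfold aC; fun_prop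

theorem G0_eq (p : Fin 4 → ℝ) : G hSpun 0 p = aA (p 0) - (p 1 ^ 2 + p 2 ^ 2) - |p 3| := rfl
theorem G1_eq (p : Fin 4 → ℝ) : G hSpun 1 p = aB (p 0) - (p 1 ^ 2 + p 2 ^ 2) - |p 3| := rfl
theorem G2_eq (p : Fin 4 → ℝ) : G hSpun 2 p = aC (p 0) - (p 1 ^ 2 + p 2 ^ 2) - |p 3| := rfl

theorem small {p : Fin 4 → ℝ} (h : 0 < G hSpun 0 p ∨ 0 < G hSpun 1 p ∨ 0 < G hSpun 2 p) :
    ‖base p‖ < 4 ∧ p 3 < 4 := by
  rw [G0_eq, G1_eq, G2_eq] at h
  unfold aA aB aC at h
  have h3 := abs_nonneg (p 3)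
  have h4 := le_abs_self (p 3)
  have key : p 0 ^ 2 < 16 ∧ p 1 ^ 2 < 16 ∧ p 2 ^ 2 < 16 ∧ |p 3| < 4 := by
    rcases h with h | h | h
    · refine ⟨?_, ?_, ?_, ?_⟩ <;> nlinarith [sq_nonneg (p 0), sq_nonneg (p 1), sq_nonneg (p 2)]
    · refine ⟨?_, ?_, ?_, ?_⟩ <;> nlinarith [sq_nonneg (p 0), sq_nonneg (p 1), sq_nonneg (p 2)]
    · have h5 : (p 0 + 9/10) ^ 2 < 181/100 := by
        nlinarith [sq_nonneg (p 0), sq_nonneg (p 1), sq_nonneg (p 2)]
      have h6 : -3 < p 0 := by nlinarith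
      have h7 : p 0 < 3 := by nlinarith
      refine ⟨?_, ?_, ?_, ?_⟩ <;>
        nlinarith [sq_nonneg (p 0), sq_nonneg (p 1), sq_nonneg (p 2), sq_nonneg (p 0 + 9/10)]
  obtain ⟨k0, k1, k2, k3⟩ := key
  refine ⟨?_, by linarith⟩
  rw [pi_norm_lt_iff (by norm_num)]
  intro i
  fin_cases i
  · show |p 0| < 4
    exact abs_lt_of_sq_lt_sq (by linarith) (by norm_num)
  · show |p 1| < 4
    exact abs_lt_of_sq_lt_sq (by linarith) (by norm_num)
  · show |p 2| < 4
    exact abs_lt_of_sq_lt_sq (by linarith) (by norm_num)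

theorem floor_iff {p : Fin 4 → ℝ} (h : 0 < G hSpun 0 p ∨ 0 < G hSpun 1 p ∨ 0 < G hSpun 2 p) :
    G hSpun 3 p = 0 ↔ p 3 = 0 := by
  obtain ⟨h1, h2⟩ := small h
  rw [G3_iff]
  constructor
  · rintro ⟨-, -, -, h5 | h5 | h5⟩
    · linarith
    · exact h5
    · linarith
  · intro h5
    exact ⟨h1.le, h5.ge, by rw [h5]; norm_num, Or.inr (Or.inl h5)⟩

theorem quad (c r : ℝ) : Convex ℝ {u : ℝ | (u - c) ^ 2 < r} := by
  intro x hx y hy a b ha hb hab
  have hx' : (x - c) ^ 2 < r := hx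
  have hy' : (y - c) ^ 2 < r := hy
  show (a • x + b • y - c) ^ 2 < r
  have hb' : b = 1 - a := by linarith
  subst hb'
  simp only [smul_eq_mul]
  rcases ha.eq_or_lt with h0 | h0
  · rw [← h0]; simpa using hy'
  · have h1 : (a * x + (1 - a) * y - c) ^ 2 ≤ a * (x - c) ^ 2 + (1 - a) * (y - c) ^ 2 := by
      nlinarith [mul_nonneg (mul_nonneg ha hb) (sq_nonneg (x - y))]
    have h2 : a * (x - c) ^ 2 < a * r := mul_lt_mul_of_pos_left hx' h0
    have h3 : (1 - a) * (y - c) ^ 2 ≤ (1 - a) * r := mul_le_mul_of_nonneg_left hy'.le hb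
    linarith

theorem JA : IsPreconnected {u | max 0 ((fun u => max (aB u) (aC u)) u) < aA u} := by
  have : {u | max 0 ((fun u => max (aB u) (aC u)) u) < aA u} =
      Ioi (1 / 2) ∩ {u | (u - 0) ^ 2 < 13 / 4} := by
    ext u
    simp only [mem_ofPred_eq, max_lt_iff, mem_inter_iff, mem_Ioi, aA, aB, aC, sub_zero]
    constructor
    · rintro ⟨h1, h2, h3⟩
      have h4 : u ^ 2 < 13 / 4 := by linarith
      refine ⟨?_, h4⟩
      by_contra h5
      push Not at h5
      have h6 : u < -1 / 2 := by nlinarith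
      have h7 : -2 < u := by nlinarith
      nlinarith
    · rintro ⟨h1, h2⟩
      refine ⟨by linarith, ?_, ?_⟩ <;> nlinarith
  rw [this]
  exact ((convex_Ioi _).inter (quad 0 _)).isPreconnected

theorem JB : IsPreconnected {u | max 0 ((fun u => max (aA u) (aC u)) u) < aB u} := by
  have : {u | max 0 ((fun u => max (aA u) (aC u)) u) < aB u} = Ioo 0 (1 / 2) := by
    ext u
    simp only [mem_ofPred_eq, max_lt_iff, mem_Ioo, aA, aB, aC]
    constructor
    · rintro ⟨h1, h2, h3⟩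
      refine ⟨by linarith, by nlinarith⟩
    · rintro ⟨h1, h2⟩
      refine ⟨by nlinarith, by nlinarith, by linarith⟩
  rw [this]
  exact isPreconnected_Ioo

theorem JC : IsPreconnected {u | max 0 ((fun u => max (aA u) (aB u)) u) < aC u} := by
  have : {u | max 0 ((fun u => max (aA u) (aB u)) u) < aC u} =
      Iio 0 ∩ {u | (u - (-9 / 10)) ^ 2 < 181 / 100} := by
    ext u
    simp only [mem_ofPred_eq, max_lt_iff, mem_inter_iff, mem_Iio, aA, aB, aC]
    constructor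
    · rintro ⟨h1, h2, h3⟩
      refine ⟨by linarith, by nlinarith⟩
    · rintro ⟨h1, h2⟩
      have h3 : -5 / 2 < u := by nlinarith
      refine ⟨by nlinarith, by nlinarith, by linarith⟩
  rw [this]
  exact ((convex_Iio _).inter (quad _ _)).isPreconnected

theorem JAB : IsPreconnected {u | max 0 (aC u) < (fun u => min (aA u) (aB u)) u} := by
  have : {u | max 0 (aC u) < (fun u => min (aA u) (aB u)) u} =
      Ioi (1 / 10) ∩ {u | (u - 0) ^ 2 < 1} := by
    ext u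
    simp only [mem_ofPred_eq, max_lt_iff, lt_min_iff, mem_inter_iff, mem_Ioi, aA, aB, aC, sub_zero]
    constructor
    · rintro ⟨⟨h1, h2⟩, h3, h4⟩
      refine ⟨by nlinarith, by linarith⟩
    · rintro ⟨h1, h2⟩
      have h3 := mul_pos (sub_pos.2 h1) (show 0 < u + 5 / 2 by linarith)
      refine ⟨⟨by linarith, by nlinarith⟩, by linarith, by linarith⟩
  rw [this]
  exact ((convex_Ioi _).inter (quad 0 _)).isPreconnected

theorem JAC : IsPreconnected {u | max 0 (aB u) < (fun u => min (aA u) (aC u)) u} := by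
  have : {u | max 0 (aB u) < (fun u => min (aA u) (aC u)) u} =
      Iio (-1 / 2) ∩ {u | (u - 0) ^ 2 < 13 / 4} ∩ {u | (u - (-9 / 10)) ^ 2 < 181 / 100} := by
    ext u
    simp only [mem_ofPred_eq, max_lt_iff, lt_min_iff, mem_inter_iff, mem_Iio, aA, aB, aC, sub_zero]
    constructor
    · rintro ⟨⟨h1, h2⟩, h3, h4⟩
      refine ⟨⟨by nlinarith, by linarith⟩, by nlinarith⟩
    · rintro ⟨⟨h1, h2⟩, h3⟩
      refine ⟨⟨by linarith, by nlinarith⟩, by nlinarith, by linarith⟩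
  rw [this]
  exact (((convex_Iio _).inter (quad 0 _)).inter (quad _ _)).isPreconnected

theorem JBC : IsPreconnected {u | max 0 (aA u) < (fun u => min (aB u) (aC u)) u} := by
  have : {u | max 0 (aA u) < (fun u => min (aB u) (aC u)) u} = Ioo (-1 / 2) (1 / 10) := by
    ext u
    simp only [mem_ofPred_eq, max_lt_iff, lt_min_iff, mem_Ioo, aA, aB, aC]
    constructor
    · rintro ⟨⟨h1, h2⟩, h3, h4⟩
      refine ⟨by nlinarith, by nlinarith⟩
    · rintro ⟨h1, h2⟩
      refine ⟨⟨by nlinarith, by nlinarith⟩, by nlinarith, by nlinarith⟩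
  rw [this]
  exact isPreconnected_Ioo

theorem JABC : IsPreconnected
    {u | max 0 ((fun _ : ℝ => (-1 : ℝ)) u) < (fun u => min (aA u) (min (aB u) (aC u))) u} := by
  have : {u | max 0 ((fun _ : ℝ => (-1 : ℝ)) u) < (fun u => min (aA u) (min (aB u) (aC u))) u} =
      {u | (u - 0) ^ 2 < 1} ∩ {u | (u - (-9 / 10)) ^ 2 < 181 / 100} := by
    ext u
    simp only [mem_ofPred_eq, max_lt_iff, lt_min_iff, mem_inter_iff, aA, aB, aC, sub_zero]
    constructor
    · rintro ⟨⟨h1, -⟩, ⟨h2, -⟩, h3, -⟩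
      refine ⟨by linarith, by nlinarith⟩
    · rintro ⟨h1, h2⟩
      refine ⟨⟨by linarith, by linarith⟩, ⟨by linarith, by linarith⟩, by nlinarith, by nlinarith⟩
  rw [this]
  exact ((quad 0 _).inter (quad _ _)).isPreconnected

theorem base_norm_le {p : Fin 4 → ℝ} : ‖base p‖ ≤ 4 ↔ |p 0| ≤ 4 ∧ |p 1| ≤ 4 ∧ |p 2| ≤ 4 := by
  rw [pi_norm_le_iff_of_nonneg (by norm_num)]
  constructor
  · intro h
    exact ⟨h 0, h 1, h 2⟩
  · rintro ⟨h0, h1, h2⟩ i
    fin_cases i
    · exact h0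
    · exact h1
    · exact h2

/-- the outside part of the floor -/
def C0 : Set (Fin 4 → ℝ) := {p | G hSpun 3 p = 0 ∧ G hSpun 0 p < 0 ∧ G hSpun 1 p < 0 ∧
  G hSpun 2 p < 0}

def top : Set (Fin 4 → ℝ) := {p | p 3 = 4 ∧ |p 0| ≤ 4 ∧ |p 1| ≤ 4 ∧ |p 2| ≤ 4}

theorem top_convex : Convex ℝ top := by
  have h0 : Convex ℝ {p : Fin 4 → ℝ | |p 0| ≤ 4} := by
    have : {p : Fin 4 → ℝ | |p 0| ≤ 4} = (LinearMap.proj 0 : (Fin 4 → ℝ) →ₗ[ℝ] ℝ) ⁻¹' (Icc (-4) 4) := by
      ext p; simp [abs_le]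
    rw [this]; exact (convex_Icc _ _).linear_preimage _
  have h1 : Convex ℝ {p : Fin 4 → ℝ | |p 1| ≤ 4} := by
    have : {p : Fin 4 → ℝ | |p 1| ≤ 4} = (LinearMap.proj 1 : (Fin 4 → ℝ) →ₗ[ℝ] ℝ) ⁻¹' (Icc (-4) 4) := by
      ext p; simp [abs_le]
    rw [this]; exact (convex_Icc _ _).linear_preimage _
  have h2 : Convex ℝ {p : Fin 4 → ℝ | |p 2| ≤ 4} := by
    have : {p : Fin 4 → ℝ | |p 2| ≤ 4} = (LinearMap.proj 2 : (Fin 4 → ℝ) →ₗ[ℝ] ℝ) ⁻¹' (Icc (-4) 4) := by
      ext p; simp [abs_le]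
    rw [this]; exact (convex_Icc _ _).linear_preimage _
  have h3 : Convex ℝ {p : Fin 4 → ℝ | p 3 = 4} := by
    have : {p : Fin 4 → ℝ | p 3 = 4} = (LinearMap.proj 3 : (Fin 4 → ℝ) →ₗ[ℝ] ℝ) ⁻¹' {4} := by
      ext p; simp
    rw [this]; exact (convex_singleton _).linear_preimage _
  exact h3.inter (h0.inter (h1.inter h2))

/-- outside a cylinder of radius 4 (in sup norm) all heights are negative. -/
theorem neg_of_big {p : Fin 4 → ℝ} (h : ‖base p‖ = 4 ∨ p 3 = 4) :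
    G hSpun 0 p < 0 ∧ G hSpun 1 p < 0 ∧ G hSpun 2 p < 0 := by
  have key : ∀ x : ℝ, x ≤ 0 ∨ 0 < x := fun x => le_or_gt x 0
  by_contra hcon
  -- one of them is nonnegative; then the point is small
  have h' : 0 ≤ G hSpun 0 p ∨ 0 ≤ G hSpun 1 p ∨ 0 ≤ G hSpun 2 p := by
    by_contra h2
    push Not at h2
    exact hcon h2
  have hs : ‖base p‖ < 4 ∧ p 3 < 4 := by
    rw [G0_eq, G1_eq, G2_eq] at h'
    unfold aA aB aC at h'
    have h3 := abs_nonneg (p 3)
    have h4 := le_abs_self (p 3)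
    have key : p 0 ^ 2 < 16 ∧ p 1 ^ 2 < 16 ∧ p 2 ^ 2 < 16 ∧ |p 3| < 4 := by
      rcases h' with h | h | h
      · refine ⟨?_, ?_, ?_, ?_⟩ <;> nlinarith [sq_nonneg (p 0), sq_nonneg (p 1), sq_nonneg (p 2)]
      · refine ⟨?_, ?_, ?_, ?_⟩ <;> nlinarith [sq_nonneg (p 0), sq_nonneg (p 1), sq_nonneg (p 2)]
      · have h5 : (p 0 + 9/10) ^ 2 ≤ 181/100 := by
          nlinarith [sq_nonneg (p 0), sq_nonneg (p 1), sq_nonneg (p 2)]
        have h6 : -3 < p 0 := by nlinarith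
        have h7 : p 0 < 3 := by nlinarith
        refine ⟨?_, ?_, ?_, ?_⟩ <;>
          nlinarith [sq_nonneg (p 0), sq_nonneg (p 1), sq_nonneg (p 2), sq_nonneg (p 0 + 9/10)]
    obtain ⟨k0, k1, k2, k3⟩ := key
    refine ⟨?_, by linarith⟩
    rw [pi_norm_lt_iff (by norm_num)]
    intro i
    fin_cases i
    · show |p 0| < 4
      exact abs_lt_of_sq_lt_sq (by linarith) (by norm_num)
    · show |p 1| < 4
      exact abs_lt_of_sq_lt_sq (by linarith) (by norm_num)
    · show |p 2| < 4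
      exact abs_lt_of_sq_lt_sq (by linarith) (by norm_num)
  rcases h with h | h
  · linarith [hs.1]
  · linarith [hs.2]

theorem top_sub : top ⊆ C0 := by
  rintro p ⟨h3, h0, h1, h2⟩
  refine ⟨?_, neg_of_big (Or.inr h3)⟩
  rw [G3_iff]
  exact ⟨base_norm_le.2 ⟨h0, h1, h2⟩, by rw [h3]; norm_num, h3.le, Or.inr (Or.inr h3)⟩

/-- vertical segment above a side point -/
theorem vert {p : Fin 4 → ℝ} (hp : ‖base p‖ = 4) (h0 : 0 ≤ p 3) (h4 : p 3 ≤ 4) :
    ∃ t ⊆ C0, p ∈ t ∧ ![p 0, p 1, p 2, 4] ∈ t ∧ IsPreconnected t := by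
  refine ⟨segment ℝ p ![p 0, p 1, p 2, 4], ?_, left_mem_segment _ _ _, right_mem_segment _ _ _,
    (convex_segment _ _).isPreconnected⟩
  rintro q ⟨a, b, ha, hb, hab, rfl⟩
  have hbase : base (a • p + b • ![p 0, p 1, p 2, 4]) = base p := by
    funext i
    fin_cases i
    · show a * p 0 + b * p 0 = p 0
      rw [← add_mul, hab, one_mul]
    · show a * p 1 + b * p 1 = p 1
      rw [← add_mul, hab, one_mul]
    · show a * p 2 + b * p 2 = p 2
      rw [← add_mul, hab, one_mul]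
  have h3 : (a • p + b • ![p 0, p 1, p 2, 4]) 3 = a * p 3 + b * 4 := rfl
  refine ⟨?_, neg_of_big (Or.inl (by rw [hbase]; exact hp))⟩
  rw [G3_iff, hbase, h3]
  have hb' : b = 1 - a := by linarith
  subst hb'
  refine ⟨hp.le, ?_, ?_, Or.inl hp⟩
  · nlinarith
  · nlinarith

theorem C0_preconnected : IsPreconnected C0 := by
  let x : Fin 4 → ℝ := ![0, 0, 0, 4]
  have hx : x ∈ top := ⟨rfl, by simp [x], by simp [x], by simp [x]⟩
  -- side points
  have side : ∀ p : Fin 4 → ℝ, ‖base p‖ = 4 → 0 ≤ p 3 → p 3 ≤ 4 →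
      ∃ t ⊆ C0, x ∈ t ∧ p ∈ t ∧ IsPreconnected t := by
    intro p hp h0 h4
    obtain ⟨t, ht, hpt, hqt, hc⟩ := vert hp h0 h4
    have hq : ![p 0, p 1, p 2, 4] ∈ top := by
      have := base_norm_le.1 hp.le
      exact ⟨rfl, this.1, this.2.1, this.2.2⟩
    exact ⟨t ∪ top, union_subset ht top_sub, Or.inr hx, Or.inl hpt,
      hc.union _ hqt hq top_convex.isPreconnected⟩
  refine isPreconnected_of_forall x ?_
  intro p hp
  obtain ⟨hG3, hG0, hG1, hG2⟩ := hp
  obtain ⟨hb, h0, h4, hor⟩ := (G3_iff _ _).1 hG3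
  rcases hor with hor | hor | hor
  · exact side p hor h0 h4
  · -- s = 0
    obtain ⟨b0, b1, b2⟩ := base_norm_le.1 hb
    -- target value of coordinate 1
    obtain ⟨c, hc4, hc⟩ : ∃ c : ℝ, |c| = 4 ∧ 0 ≤ c * p 1 := by
      rcases le_total 0 (p 1) with h | h
      · exact ⟨4, by norm_num, by linarith⟩
      · exact ⟨-4, by norm_num, by linarith⟩
    let p' : Fin 4 → ℝ := ![p 0, c, p 2, 0]
    have hp' : ‖base p'‖ = 4 := by
      apply le_antisymm
      · exact base_norm_le.2 ⟨b0, hc4.le, b2⟩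
      · have := norm_le_pi_norm (base p') 1
        have h5 : ‖base p' 1‖ = 4 := hc4
        linarith
    obtain ⟨t, ht, hxt, hpt, hct⟩ := side p' hp' le_rfl (show (0:ℝ) ≤ 4 by norm_num)
    have hseg : segment ℝ p p' ⊆ C0 := by
      rintro q ⟨a, b, ha, hb', hab, rfl⟩
      have hbb : b = 1 - a := by linarith
      subst hbb
      have e0 : (a • p + (1 - a) • p') 0 = p 0 := by
        show a * p 0 + (1 - a) * p 0 = p 0; ring
      have e1 : (a • p + (1 - a) • p') 1 = a * p 1 + (1 - a) * c := rfl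
      have e2 : (a • p + (1 - a) • p') 2 = p 2 := by
        show a * p 2 + (1 - a) * p 2 = p 2; ring
      have e3 : (a • p + (1 - a) • p') 3 = 0 := by
        show a * p 3 + (1 - a) * 0 = 0; rw [hor]; ring
      have hcc : c ^ 2 = 16 := by rw [← sq_abs, hc4]; norm_num
      have hp1 : p 1 ^ 2 ≤ 16 := by rw [← sq_abs]; nlinarith [abs_nonneg (p 1)]
      have hp1c : p 1 ^ 2 ≤ c * p 1 := by
        have : |p 1| * |p 1| ≤ |c| * |p 1| := by
          rw [hc4]; exact mul_le_mul_of_nonneg_right b1 (abs_nonneg _)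
        rw [← abs_mul, ← abs_mul, abs_of_nonneg hc, abs_of_nonneg (mul_self_nonneg _)] at this
        nlinarith
      have hsq : p 1 ^ 2 ≤ (a * p 1 + (1 - a) * c) ^ 2 := by
        have h6 : (a * p 1 + (1 - a) * c) ^ 2 = a ^ 2 * p 1 ^ 2 + 2 * a * (1 - a) * (c * p 1) +
          (1 - a) ^ 2 * c ^ 2 := by ring
        rw [h6, hcc]
        nlinarith [mul_nonneg (mul_nonneg ha hb') (sub_nonneg.2 hp1c),
          mul_nonneg (sq_nonneg (1 - a)) (sub_nonneg.2 hp1)]
      refine ⟨?_, ?_, ?_, ?_⟩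
      · rw [G3_iff]
        refine ⟨base_norm_le.2 ⟨?_, ?_, ?_⟩, e3.ge, by rw [e3]; norm_num, Or.inr (Or.inl e3)⟩
        · rw [e0]; exact b0
        · rw [e1]
          calc |a * p 1 + (1 - a) * c| ≤ |a * p 1| + |(1 - a) * c| := abs_add_le _ _
            _ = a * |p 1| + (1 - a) * |c| := by
              rw [abs_mul, abs_mul, abs_of_nonneg ha, abs_of_nonneg hb']
            _ ≤ 4 := by rw [hc4]; nlinarith
        · rw [e2]; exact b2
      · rw [G0_eq] at hG0 ⊢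
        rw [e0, e1, e2, e3]
        rw [hor] at hG0
        linarith
      · rw [G1_eq] at hG1 ⊢
        rw [e0, e1, e2, e3]
        rw [hor] at hG1
        linarith
      · rw [G2_eq] at hG2 ⊢
        rw [e0, e1, e2, e3]
        rw [hor] at hG2
        linarith
    exact ⟨t ∪ segment ℝ p p', union_subset ht hseg, Or.inl hxt, Or.inr (left_mem_segment _ _ _),
      hct.union _ hpt (right_mem_segment _ _ _) (convex_segment _ _).isPreconnected⟩
  · obtain ⟨b0, b1, b2⟩ := base_norm_le.1 hb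
    exact ⟨top, top_sub, hx, ⟨hor, b0, b1, b2⟩, top_convex.isPreconnected⟩

theorem Q_eqA : {p : Fin 4 → ℝ | G hSpun 3 p = 0 ∧ 0 < G hSpun 0 p ∧ G hSpun 1 p < 0 ∧
    G hSpun 2 p < 0} = Q (fun u => max (aB u) (aC u)) aA := by
  ext p
  constructor
  · rintro ⟨h3, h0, h1, h2⟩
    have hs := (floor_iff (Or.inl h0)).1 h3
    rw [G0_eq, hs, abs_zero] at h0
    rw [G1_eq, hs, abs_zero] at h1
    rw [G2_eq, hs, abs_zero] at h2
    exact ⟨hs, max_lt (by linarith) (by linarith), by linarith⟩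
  · rintro ⟨hs, h1, h2⟩
    have h1a := (le_max_left _ _).trans_lt h1
    have h1b := (le_max_right _ _).trans_lt h1
    have h0 : 0 < G hSpun 0 p := by rw [G0_eq, hs, abs_zero]; linarith
    exact ⟨(floor_iff (Or.inl h0)).2 hs, h0, by rw [G1_eq, hs, abs_zero]; linarith,
      by rw [G2_eq, hs, abs_zero]; linarith⟩

theorem Q_eqB : {p : Fin 4 → ℝ | G hSpun 3 p = 0 ∧ G hSpun 0 p < 0 ∧ 0 < G hSpun 1 p ∧
    G hSpun 2 p < 0} = Q (fun u => max (aA u) (aC u)) aB := by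
  ext p
  constructor
  · rintro ⟨h3, h0, h1, h2⟩
    have hs := (floor_iff (Or.inr (Or.inl h1))).1 h3
    rw [G0_eq, hs, abs_zero] at h0
    rw [G1_eq, hs, abs_zero] at h1
    rw [G2_eq, hs, abs_zero] at h2
    exact ⟨hs, max_lt (by linarith) (by linarith), by linarith⟩
  · rintro ⟨hs, h1, h2⟩
    have h1a := (le_max_left _ _).trans_lt h1
    have h1b := (le_max_right _ _).trans_lt h1
    have h0 : 0 < G hSpun 1 p := by rw [G1_eq, hs, abs_zero]; linarith
    exact ⟨(floor_iff (Or.inr (Or.inl h0))).2 hs, by rw [G0_eq, hs, abs_zero]; linarith, h0,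
      by rw [G2_eq, hs, abs_zero]; linarith⟩

theorem Q_eqC : {p : Fin 4 → ℝ | G hSpun 3 p = 0 ∧ G hSpun 0 p < 0 ∧ G hSpun 1 p < 0 ∧
    0 < G hSpun 2 p} = Q (fun u => max (aA u) (aB u)) aC := by
  ext p
  constructor
  · rintro ⟨h3, h0, h1, h2⟩
    have hs := (floor_iff (Or.inr (Or.inr h2))).1 h3
    rw [G0_eq, hs, abs_zero] at h0
    rw [G1_eq, hs, abs_zero] at h1
    rw [G2_eq, hs, abs_zero] at h2
    exact ⟨hs, max_lt (by linarith) (by linarith), by linarith⟩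
  · rintro ⟨hs, h1, h2⟩
    have h1a := (le_max_left _ _).trans_lt h1
    have h1b := (le_max_right _ _).trans_lt h1
    have h0 : 0 < G hSpun 2 p := by rw [G2_eq, hs, abs_zero]; linarith
    exact ⟨(floor_iff (Or.inr (Or.inr h0))).2 hs, by rw [G0_eq, hs, abs_zero]; linarith,
      by rw [G1_eq, hs, abs_zero]; linarith, h0⟩

theorem Q_eqAB : {p : Fin 4 → ℝ | G hSpun 3 p = 0 ∧ 0 < G hSpun 0 p ∧ 0 < G hSpun 1 p ∧
    G hSpun 2 p < 0} = Q aC (fun u => min (aA u) (aB u)) := by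
  ext p
  constructor
  · rintro ⟨h3, h0, h1, h2⟩
    have hs := (floor_iff (Or.inl h0)).1 h3
    rw [G0_eq, hs, abs_zero] at h0
    rw [G1_eq, hs, abs_zero] at h1
    rw [G2_eq, hs, abs_zero] at h2
    exact ⟨hs, by linarith, lt_min (by linarith) (by linarith)⟩
  · rintro ⟨hs, h1, h2⟩
    have h2a := h2.trans_le (min_le_left _ _)
    have h2b := h2.trans_le (min_le_right _ _)
    have h0 : 0 < G hSpun 0 p := by rw [G0_eq, hs, abs_zero]; linarith
    exact ⟨(floor_iff (Or.inl h0)).2 hs, h0, by rw [G1_eq, hs, abs_zero]; linarith,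
      by rw [G2_eq, hs, abs_zero]; linarith⟩

theorem Q_eqAC : {p : Fin 4 → ℝ | G hSpun 3 p = 0 ∧ 0 < G hSpun 0 p ∧ G hSpun 1 p < 0 ∧
    0 < G hSpun 2 p} = Q aB (fun u => min (aA u) (aC u)) := by
  ext p
  constructor
  · rintro ⟨h3, h0, h1, h2⟩
    have hs := (floor_iff (Or.inl h0)).1 h3
    rw [G0_eq, hs, abs_zero] at h0
    rw [G1_eq, hs, abs_zero] at h1
    rw [G2_eq, hs, abs_zero] at h2
    exact ⟨hs, by linarith, lt_min (by linarith) (by linarith)⟩
  · rintro ⟨hs, h1, h2⟩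
    have h2a := h2.trans_le (min_le_left _ _)
    have h2b := h2.trans_le (min_le_right _ _)
    have h0 : 0 < G hSpun 0 p := by rw [G0_eq, hs, abs_zero]; linarith
    exact ⟨(floor_iff (Or.inl h0)).2 hs, h0, by rw [G1_eq, hs, abs_zero]; linarith,
      by rw [G2_eq, hs, abs_zero]; linarith⟩

theorem Q_eqBC : {p : Fin 4 → ℝ | G hSpun 3 p = 0 ∧ G hSpun 0 p < 0 ∧ 0 < G hSpun 1 p ∧
    0 < G hSpun 2 p} = Q aA (fun u => min (aB u) (aC u)) := by
  ext p
  constructor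
  · rintro ⟨h3, h0, h1, h2⟩
    have hs := (floor_iff (Or.inr (Or.inl h1))).1 h3
    rw [G0_eq, hs, abs_zero] at h0
    rw [G1_eq, hs, abs_zero] at h1
    rw [G2_eq, hs, abs_zero] at h2
    exact ⟨hs, by linarith, lt_min (by linarith) (by linarith)⟩
  · rintro ⟨hs, h1, h2⟩
    have h2a := h2.trans_le (min_le_left _ _)
    have h2b := h2.trans_le (min_le_right _ _)
    have h0 : 0 < G hSpun 1 p := by rw [G1_eq, hs, abs_zero]; linarith
    exact ⟨(floor_iff (Or.inr (Or.inl h0))).2 hs, by rw [G0_eq, hs, abs_zero]; linarith, h0,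
      by rw [G2_eq, hs, abs_zero]; linarith⟩

theorem Q_eqABC : {p : Fin 4 → ℝ | G hSpun 3 p = 0 ∧ 0 < G hSpun 0 p ∧ 0 < G hSpun 1 p ∧
    0 < G hSpun 2 p} = Q (fun _ => (-1 : ℝ)) (fun u => min (aA u) (min (aB u) (aC u))) := by
  ext p
  constructor
  · rintro ⟨h3, h0, h1, h2⟩
    have hs := (floor_iff (Or.inl h0)).1 h3
    rw [G0_eq, hs, abs_zero] at h0
    rw [G1_eq, hs, abs_zero] at h1
    rw [G2_eq, hs, abs_zero] at h2
    have : 0 ≤ p 1 ^ 2 + p 2 ^ 2 := by positivity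
    exact ⟨hs, by linarith, lt_min (by linarith) (lt_min (by linarith) (by linarith))⟩
  · rintro ⟨hs, h1, h2⟩
    have h2a := h2.trans_le (min_le_left _ _)
    have h2b := (h2.trans_le (min_le_right _ _)).trans_le (min_le_left _ _)
    have h2c := (h2.trans_le (min_le_right _ _)).trans_le (min_le_right _ _)
    have h0 : 0 < G hSpun 0 p := by rw [G0_eq, hs, abs_zero]; linarith
    exact ⟨(floor_iff (Or.inl h0)).2 hs, h0, by rw [G1_eq, hs, abs_zero]; linarith,
      by rw [G2_eq, hs, abs_zero]; linarith⟩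

theorem off3 (p : Fin 4 → ℝ) : p ∈ offOthers (VV hSpun) 3 ↔
    (G hSpun 3 p = 0 ∧ G hSpun 0 p ≠ 0 ∧ G hSpun 1 p ≠ 0 ∧ G hSpun 2 p ≠ 0) := by
  unfold offOthers VV
  constructor
  · rintro ⟨h3, h⟩
    refine ⟨h3, ?_, ?_, ?_⟩
    · intro h0
      exact h (mem_iUnion₂.2 ⟨0, by decide, h0⟩)
    · intro h0
      exact h (mem_iUnion₂.2 ⟨1, by decide, h0⟩)
    · intro h0
      exact h (mem_iUnion₂.2 ⟨2, by decide, h0⟩)
  · rintro ⟨h3, h0, h1, h2⟩
    refine ⟨h3, ?_⟩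
    intro h
    obtain ⟨j, hj, hj'⟩ := mem_iUnion₂.1 h
    fin_cases j
    · exact h0 hj'
    · exact h1 hj'
    · exact h2 hj'
    · exact hj rfl

theorem main : S17 := by
  have cAB : Continuous fun u => max (aA u) (aB u) := cA.max cB
  refine ⟨![C0,
    {p : Fin 4 → ℝ | G hSpun 3 p = 0 ∧ 0 < G hSpun 0 p ∧ G hSpun 1 p < 0 ∧ G hSpun 2 p < 0},
    {p : Fin 4 → ℝ | G hSpun 3 p = 0 ∧ G hSpun 0 p < 0 ∧ 0 < G hSpun 1 p ∧ G hSpun 2 p < 0},
    {p : Fin 4 → ℝ | G hSpun 3 p = 0 ∧ G hSpun 0 p < 0 ∧ G hSpun 1 p < 0 ∧ 0 < G hSpun 2 p},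
    {p : Fin 4 → ℝ | G hSpun 3 p = 0 ∧ 0 < G hSpun 0 p ∧ 0 < G hSpun 1 p ∧ G hSpun 2 p < 0},
    {p : Fin 4 → ℝ | G hSpun 3 p = 0 ∧ 0 < G hSpun 0 p ∧ G hSpun 1 p < 0 ∧ 0 < G hSpun 2 p},
    {p : Fin 4 → ℝ | G hSpun 3 p = 0 ∧ G hSpun 0 p < 0 ∧ 0 < G hSpun 1 p ∧ 0 < G hSpun 2 p},
    {p : Fin 4 → ℝ | G hSpun 3 p = 0 ∧ 0 < G hSpun 0 p ∧ 0 < G hSpun 1 p ∧ 0 < G hSpun 2 p}],
    ?_, ?_, ?_⟩
  · intro k
    fin_cases k
    · exact C0_preconnected
    · show IsPreconnected {p : Fin 4 → ℝ | _}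
      rw [Q_eqA]; exact Q_preconnected (cB.max cC) cA JA
    · show IsPreconnected {p : Fin 4 → ℝ | _}
      rw [Q_eqB]; exact Q_preconnected (cA.max cC) cB JB
    · show IsPreconnected {p : Fin 4 → ℝ | _}
      rw [Q_eqC]; exact Q_preconnected (cA.max cB) cC JC
    · show IsPreconnected {p : Fin 4 → ℝ | _}
      rw [Q_eqAB]; exact Q_preconnected cC (cA.min cB) JAB
    · show IsPreconnected {p : Fin 4 → ℝ | _}
      rw [Q_eqAC]; exact Q_preconnected cB (cA.min cC) JAC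
    · show IsPreconnected {p : Fin 4 → ℝ | _}
      rw [Q_eqBC]; exact Q_preconnected cA (cB.min cC) JBC
    · show IsPreconnected {p : Fin 4 → ℝ | _}
      rw [Q_eqABC]; exact Q_preconnected continuous_const (cA.min (cB.min cC)) JABC
  · intro k p hp
    rw [off3]
    fin_cases k <;> exact ⟨hp.1, by have := hp.2.1; first | exact this.ne | exact this.ne',
      by have := hp.2.2.1; first | exact this.ne | exact this.ne',
      by have := hp.2.2.2; first | exact this.ne | exact this.ne'⟩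
  · intro p hp
    obtain ⟨h3, h0, h1, h2⟩ := (off3 p).1 hp
    rw [mem_iUnion]
    rcases lt_or_gt_of_ne h0 with h0 | h0 <;> rcases lt_or_gt_of_ne h1 with h1 | h1 <;>
      rcases lt_or_gt_of_ne h2 with h2 | h2
    · exact ⟨0, h3, h0, h1, h2⟩
    · exact ⟨3, h3, h0, h1, h2⟩
    · exact ⟨2, h3, h0, h1, h2⟩
    · exact ⟨6, h3, h0, h1, h2⟩
    · exact ⟨1, h3, h0, h1, h2⟩
    · exact ⟨5, h3, h0, h1, h2⟩
    · exact ⟨4, h3, h0, h1, h2⟩
    · exact ⟨7, h3, h0, h1, h2⟩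

end R415VN.P17
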