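import Pool.Agent.R415.VN.Defs

/-!
# Statements of the pieces (problem MP_3341d1_co); see `notes.md` next to this file.
Every piece `k` is to be proved in `Pool/Agent/R415/VN/Pk.lean` as `R415VN.Pk.main`.
-/

namespace R415VN
open Set Bornology

/-- P01: the frontier of a bounded open convex set is a topological sphere. -/
def S01 : Prop := ∀ {j : ℕ} {W : Set (Fin (j + 1) → ℝ)}, IsOpen W → Convex ℝ W →
  IsBounded W → W.Nonempty → IsTopSphere j (frontier W)

/-- P02: the two sides of the frontier of a bounded open convex set. -/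
def S02 : Prop := ∀ {m : ℕ}, 2 ≤ m → ∀ {W : Set (Fin m → ℝ)}, IsOpen W → Convex ℝ W →
  IsBounded W → W.Nonempty →
    inside (frontier W) = W ∧ outside (frontier W) = (closure W)ᶜ ∧ IsConnected (closure W)ᶜ

/-- P03: level sets of continuous concave functions. -/
def S03 : Prop := ∀ {m : ℕ} {g : (Fin m → ℝ) → ℝ}, Continuous g → ConcaveOn ℝ univ g →
  IsBounded {x | 0 ≤ g x} → (∃ x, 0 < g x) →
    IsOpen {x | 0 < g x} ∧ Convex ℝ {x | 0 < g x} ∧ IsBounded {x | 0 < g x} ∧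
    ({x | 0 < g x}).Nonempty ∧ frontier {x | 0 < g x} = {x | g x = 0} ∧
    closure {x | 0 < g x} = {x | 0 ≤ g x}

/-- P04 (from S01, S03): embedded level sets are topological spheres. -/
def S04 : Prop := ∀ {k m : ℕ} {g : (Fin (k + 1) → ℝ) → ℝ}, Continuous g →
  ConcaveOn ℝ univ g → IsBounded {x | 0 ≤ g x} → (∃ x, 0 < g x) →
  ∀ {φ : (Fin (k + 1) → ℝ) → (Fin m → ℝ)} {ψ : (Fin m → ℝ) → (Fin (k + 1) → ℝ)},
  Continuous φ → Continuous ψ → (∀ x, ψ (φ x) = x) → IsTopSphere k (φ '' {x | g x = 0})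

/-- P05 (from S01, S02): the open set between two graphs over an open convex set. -/
def S05 : Prop := ∀ {Ω : Set (Fin 3 → ℝ)}, IsOpen Ω → Convex ℝ Ω → IsBounded Ω →
  Ω.Nonempty → ∀ {a b : (Fin 3 → ℝ) → ℝ}, Continuous a → Continuous b →
  (∀ x ∈ Ω, a x < b x) →
    GoodRegion {p : Fin 4 → ℝ | base p ∈ Ω ∧ a (base p) < p 3 ∧ p 3 < b (base p)}

/-- P06 (from S01, S02): the outer region. -/
def S06 : Prop := ∀ {B : (Fin 3 → ℝ) → ℝ}, Continuous B → (∀ x, 0 ≤ B x) →
  (∀ x, B x < 4) →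
    GoodRegion {p : Fin 4 → ℝ | ¬ (‖base p‖ ≤ 4 ∧ -B (base p) ≤ p 3 ∧ p 3 ≤ 4)}

/-- P07: reflecting a good region. -/
def S07 : Prop := ∀ {R : Set (Fin 4 → ℝ)}, GoodRegion R →
  GoodRegion {p : Fin 4 → ℝ | (![p 0, p 1, p 2, -p 3] : Fin 4 → ℝ) ∈ R}

/-- P08 (from S01, S02, S03): the surfaces and their sides. -/
def S08 : Prop := ∀ {h : Fin 3 → (Fin 3 → ℝ) → ℝ}, Good h → ∀ i : Fin 4,
  IsSurface (VV h i) ∧ inside (VV h i) = {p | 0 < G h i p} ∧
    outside (VV h i) = {p | G h i p < 0}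

/-- P09 (from S05, S06, S07, S08): all 16 regions are good. -/
def S09 : Prop := ∀ {h : Fin 3 → (Fin 3 → ℝ) → ℝ}, Good h → ∀ ε : Fin 4 → Bool,
  GoodRegion (region (VV h) ε)

/-- P10 -/
def S10 : Prop := Good hStd

/-- P11 -/
def S11 : Prop := Good hSpun

/-- P12 (from S04): intersections of the standard diagram. -/
def S12 : Prop := ∀ K : Finset (Fin 4), 2 ≤ K.card →
  IsUnionOfSpheres (4 - K.card) (⋂ i ∈ K, VV hStd i)

/-- P13 (from S04): intersections of the spun diagram. -/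
def S13 : Prop := ∀ K : Finset (Fin 4), 2 ≤ K.card →
  IsUnionOfSpheres (4 - K.card) (⋂ i ∈ K, VV hSpun i)

/-- P14: the standard diagram has at least 32 edges. -/
def S14 : Prop := 32 ≤ edgeCount (VV hStd)

/-- P15: bounding the number of edges by covers. -/
def S15 : Prop := ∀ {V : Fin 4 → Set (Fin 4 → ℝ)} {N : Fin 4 → ℕ},
  (∀ i, CoveredBy (offOthers V i) (N i)) → edgeCount V ≤ ((∑ i, N i : ℕ) : ℕ∞)

/-- P16: covers of the three graph surfaces of the spun diagram. -/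
def S16 : Prop := CoveredBy (offOthers (VV hSpun) 0) 8 ∧
  CoveredBy (offOthers (VV hSpun) 1) 8 ∧ CoveredBy (offOthers (VV hSpun) 2) 6

/-- P17: cover of the floor of the spun diagram. -/
def S17 : Prop := CoveredBy (offOthers (VV hSpun) 3) 8

end R415VN
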